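import Pool.Agent.TH783.MD.Emb
import Pool.Agent.TH783.FC.Pos
import Pool.Agent.TH686.DO.Bor
import Pool.Agent.W889.SD.Deg

set_option autoImplicit false

/-! Faithful completeness from first-order interpretations in graphs. -/

namespace Pool.Agent.TH783.MD

open FirstOrder FirstOrder.Language
open Pool.Agent.W889.FO
open Pool.Agent.W889.FO.StE (LG gd siso_gd)
open Pool.Agent.W889.VC (BP BinStr BIso Faithful bp_atom)
open Pool.Agent.W889.SD (bp_nth Nth)
open Pool.Agent.TH783.FC (gc siso_cg siso_gc)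
open Pool.Agent.TH686.FO (L2 R2 g1 g2 ps ofp ps1 ps2 ps_ofp siso_ps)
open Pool.Agent.TH686.DO (DL1 faithful_interp' piso_of)

theorem gc_cg (y : BinStr) : FC.cg (gc y) = y := by
  funext u v
  rw [Bool.eq_iff_iff, FC.cg_iff]
  exact Iff.rfl

theorem bp_gc {W : LG.Structure ℕ → Prop} (h : Ax W) : BP (fun y : BinStr => W (gc y)) := by
  have := StD.countable_LG
  have hsc : Countable LG.Sentence := countable_sentence
  obtain ⟨T, hT⟩ := h
  have hrel : ∀ (n : ℕ) (R : LG.Relations n) (a : Fin n → ℕ),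
      BP (fun y : BinStr => @Structure.RelMap LG ℕ (gc y) n R a) := by
    intro n R a
    cases R with
    | adj => exact bp_atom (a 0) (a 1)
  have hT' : Countable T := Subtype.countable
  have h1 : BP (fun y : BinStr => ∀ φ : T, @Sentence.Realize LG ℕ (gc y) φ.1) :=
    BP.all fun φ => bp_sentence hrel φ.1
  refine h1.congr fun y => ?_
  rw [← hT]
  constructor
  · exact fun h2 => ax_iff.2 fun φ hφ => h2 ⟨φ, hφ⟩
  · exact fun h2 φ => ax_iff.1 h2 φ.1 φ.2

section gen

variable {L : FirstOrder.Language.{0, 0}} [L.IsRelational] (I : Itp L LG)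
  {Z : Type} [MeasurableSpace Z] {E0 : Z → Z → Prop} (dz : Z → L.Structure ℕ)
  (cz : L.Structure ℕ → Z)

/-- faithful completeness from a first-order interpretation -/
theorem itp_faithful
    (hup : ∀ S S', I.W S → I.W S' → SIso (I.D S) (I.D S') → SIso S S')
    (hm : ∀ (Y : Type) [MeasurableSpace Y] (f : Y → L.Structure ℕ),
      (∀ (n : ℕ) (R : L.Relations n) (a : Fin n → ℕ),
        BP (fun y => @Structure.RelMap L ℕ (f y) n R a)) → Measurable (fun y => cz (f y)))
    (hc : ∀ S S', SIso S S' ↔ E0 (cz S) (cz S')) (hd : ∀ z, cz (dz z) = z)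
    (hs : ∀ z z', E0 z z' → E0 z' z)
    {K0 : Z → Prop} {K : BinStr → Prop}
    (hF : Faithful E0 K0) (hex : ∀ x, K0 x → ∃ S, I.W S ∧ SIso (I.D S) (dz x))
    (hK : ∀ y, I.W (gc y) → K y) : Faithful BIso K := by
  classical
  let s : Set BinStr := {y : BinStr | I.W (gc y)}
  have hsm : MeasurableSet s := bp_gc I.axW
  by_cases hne : Nonempty Z
  swap
  · intro a B hB hinv
    obtain ⟨B', F, k1, k2, k3, k4, k5, k6, k7⟩ := hF a B hB hinv
    have hemp : IsEmpty Z := not_nonempty_iff.1 hne
    refine ⟨∅, fun _ _ _ => false, MeasurableSet.empty, fun _ _ _ => Iff.rfl,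
      fun y hy => hy.elim, measurable_const, fun y hy => hy.elim, fun y hy => hy.elim,
      fun x hx => ?_⟩
    obtain ⟨z, -, -⟩ := k7 x hx
    exact hemp.elim z
  obtain ⟨z0⟩ := hne
  let δ : BinStr → Z := fun y => if y ∈ s then cz (I.D (gc y)) else z0
  have hδ : ∀ {y : BinStr}, I.W (gc y) → δ y = cz (I.D (gc y)) := fun {y} h => if_pos h
  have hδm : Measurable δ := by
    let f : s → LG.Structure ℕ := fun y => gc y.1
    have hb : ∀ (n : ℕ) (R : LG.Relations n) (a : Fin n → ℕ),
        BP (fun y => @Structure.RelMap LG ℕ (f y) n R a) := by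
      intro n R a
      cases R with
      | adj => exact measurable_subtype_coe (bp_atom (a 0) (a 1))
    have hW : ∀ y, I.W (f y) := fun y => y.2
    have hdom : ∀ u, BP (fun y => I.dom (f y) u) := fun u => I.fdom.bp hb hW (fun _ => u)
    have hD : ∀ (n : ℕ) (R : L.Relations n) (v : Fin n → ℕ),
        BP (fun y => @Structure.RelMap L ℕ (I.D (f y)) n R v) := fun n R v =>
      BP.ex fun u : Fin n → ℕ => (BP.all fun i => bp_nth hdom (v i) (u i)).and
        ((I.frel R).bp hb hW u)
    have hF : Measurable (fun y : s => cz (I.D (f y))) := hm _ _ hD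
    have h := Measurable.dite (s := s) hF (g := fun _ => z0) measurable_const hsm
    convert h using 1
    funext y
    by_cases hy : y ∈ s
    · rw [dif_pos hy]
      exact if_pos hy
    · rw [dif_neg hy]
      exact if_neg hy
  refine faithful_interp' hF (W := fun y => I.W (gc y)) (δ := δ)
    (fun _ _ h => h.symm) hs (bp_gc I.axW) hδm
    (fun y z h hy => I.W_iso (S := gc y) hy (siso_gc.2 h)) (fun y z hy hz => ?_)
    (fun x hx => ?_) hK
  · rw [hδ hy, hδ hz, ← hc]
    constructor
    · exact fun h => I.iso_down (S := gc y) hy (siso_gc.2 h)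
    · exact fun h => siso_gc.1 (hup _ _ hy hz h)
  · obtain ⟨S, h1, h2⟩ := hex x hx
    have h3 := siso_cg S
    have h4 : I.W (gc (FC.cg S)) := I.W_iso (S := S) h1 h3
    refine ⟨FC.cg S, h4, ?_⟩
    rw [hδ h4]
    have h5 := (hc _ _).1 (((I.iso_down (S := S) h1 h3).symm).trans h2)
    rwa [hd] at h5

end gen

/-- interpretations of pairs of relations -/
theorem itp_faithful2 (I : Itp L2 LG)
    (hup : ∀ S S', I.W S → I.W S' → SIso (I.D S) (I.D S') → SIso S S')
    {K0 : Pool.Agent.W889.VC.PairStr → Prop} {K : BinStr → Prop}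
    (hF : Faithful Pool.Agent.W889.VC.PIso K0)
    (hex : ∀ x, K0 x → ∃ S, I.W S ∧ SIso (I.D S) (ofp x))
    (hK : ∀ y, I.W (gc y) → K y) : Faithful BIso K := by
  classical
  refine itp_faithful I ofp ps hup (fun Y _ f hD => ?_) (fun S S' => ⟨piso_of, siso_ps⟩)
    ps_ofp (fun _ _ h => h.symm) hF hex hK
  refine Measurable.prodMk ?_ ?_
  · refine measurable_pi_iff.2 fun u => measurable_pi_iff.2 fun v => measurable_to_bool ?_
    refine (congrArg MeasurableSet (Set.ext fun y => ?_)).mp (hD 2 R2.fst ![u, v])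
    show g1 (f y) u v ↔ (ps (f y)).1 u v = true
    exact (ps1 _ u v).symm
  · refine measurable_pi_iff.2 fun u => measurable_pi_iff.2 fun v => measurable_to_bool ?_
    refine (congrArg MeasurableSet (Set.ext fun y => ?_)).mp (hD 2 R2.snd ![u, v])
    show g2 (f y) u v ↔ (ps (f y)).2 u v = true
    exact (ps2 _ u v).symm

/-- interpretations of graphs -/
theorem itp_faithful1 (I : Itp LG LG)
    (hup : ∀ S S', I.W S → I.W S' → SIso (I.D S) (I.D S') → SIso S S')
    {K0 : BinStr → Prop} {K : BinStr → Prop} (hF : Faithful BIso K0)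
    (hex : ∀ x, K0 x → ∃ S, I.W S ∧ SIso (I.D S) (gc x))
    (hK : ∀ y, I.W (gc y) → K y) : Faithful BIso K := by
  classical
  refine itp_faithful I gc FC.cg hup (fun Y _ f hD => ?_) (fun S S' => ⟨fun h => ?_, fun h => ?_⟩)
    gc_cg (fun _ _ h => h.symm) hF hex hK
  · refine measurable_pi_iff.2 fun u => measurable_pi_iff.2 fun v => measurable_to_bool ?_
    refine (congrArg MeasurableSet (Set.ext fun y => ?_)).mp
      (hD 2 FirstOrder.Language.graphRel.adj ![u, v])
    show gd (f y) u v ↔ FC.cg (f y) u v = true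
    exact (FC.cg_iff _ u v).symm
  · exact siso_gc.1 ((siso_cg S).symm.trans (h.trans (siso_cg S')))
  · exact (siso_cg S).trans ((siso_gc.2 h).trans (siso_cg S').symm)

/-- ordered patterns -/
theorem faithful_ws {r : ℕ} {s : Bool} {f : ℕ → ℕ → Prop} (hr : 1 ≤ r)
    (hf : ∀ a b, f a b → f b a) (hs : s = true → r = 1) {K : BinStr → Prop}
    (hK : ∀ y, WS r s f (gc y) → K y) : Faithful BIso K :=
  itp_faithful2 (itp r s f) (fun _ _ => up) Pool.Agent.TH686.DO.faithful_DD
    (fun x hx => ex hr hf hs (ofp x) hx.1 hx.2) hK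

/-- unordered patterns -/
theorem faithful_wf {r : ℕ} {s : Bool} {f : ℕ → ℕ → Prop} (hr : 1 ≤ r)
    (hf : ∀ a b, f a b → f b a) {K : BinStr → Prop}
    (hK : ∀ y, FC.WF r s f (gc y) → K y) : Faithful BIso K :=
  itp_faithful1 (FC.itp r s f) (fun _ _ => FC.up) Pool.Agent.W889.SD.target_K3.faithful
    (fun x hx => FC.ex hr hf (gc x) (fun u v => hx.1.symm u v)
      (fun u h => by
        have := hx.1.irrefl u
        have h' : x u u = true := h
        rw [this] at h'
        cases h') hx.2) hK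

end Pool.Agent.TH783.MD
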