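import Pool.Agent.TH783.MD.Pat
import Pool.Agent.TH783.MD.Bor

set_option autoImplicit false

/-! From the axioms to the patterns. -/

namespace Pool.Agent.TH783.MD

open FirstOrder FirstOrder.Language
open Pool.Agent.W889.FO
open Pool.Agent.W889.FO.StE (LG gd)
open Pool.Agent.W889.VC (BinStr BIso Faithful)
open Pool.Agent.TH783.MD.Pat

variable {r : ℕ}

/-- the flip on natural numbers -/
def nf (F : Fin (r + 2) → Fin (r + 2) → Prop) (a b : ℕ) : Prop :=
  ∃ (ha : a < r + 2) (hb : b < r + 2), F ⟨a, ha⟩ ⟨b, hb⟩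

theorem nf_symm {F : Fin (r + 2) → Fin (r + 2) → Prop} (hF : ∀ a b, F a b → F b a) (a b : ℕ)
    (h : nf F a b) : nf F b a := by
  obtain ⟨ha, hb, h⟩ := h
  exact ⟨hb, ha, hF _ _ h⟩

theorem nf_iff {F : Fin (r + 2) → Fin (r + 2) → Prop} {x y : Fin (r + 2)} {a b : ℕ}
    (hx : (x : ℕ) = a) (hy : (y : ℕ) = b) : F x y ↔ nf F a b := by
  subst hx hy
  constructor
  · exact fun h => ⟨x.2, y.2, h⟩
  · rintro ⟨_, _, h⟩
    exact h

/-- the kind of an unordered crossing -/
def knd (s : Bool) : Kind := if s = true then Kind.clique else Kind.star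

/-- unordered crossings -/
def tr1 : FC.Vx r → Vertex ℚ r
  | .row i => .row i
  | .col j => .col j
  | .pt i j t => .pt i j t

theorem tr1_inj : Function.Injective (tr1 : FC.Vx r → Vertex ℚ r) := by
  rintro (i | j | ⟨i, j, t⟩) (i' | j' | ⟨i', j', t'⟩) h
  all_goals
    simp only [tr1, Vertex.row.injEq, Vertex.col.injEq, Vertex.pt.injEq, reduceCtorEq,
      Nat.cast_inj] at h ⊢
  all_goals simp only [FC.Vx.row.injEq, FC.Vx.col.injEq, FC.Vx.pt.injEq]
  all_goals exact h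

theorem tr1_lay (v : FC.Vx r) : ((tr1 v).layer : ℕ) = v.lay := by
  rcases v with i | j | ⟨i, j, t⟩ <;> rfl

theorem tr1_edge (s : Bool) (u v : FC.Vx r) :
    Vertex.Edge (knd s) (tr1 u) (tr1 v) ↔ FC.Vx.edge s u v := by
  have h1 : ∀ i j : ℕ, (knd s).rel (i : ℚ) (j : ℚ) ↔ i = j := by
    intro i j
    cases s
    · exact Nat.cast_inj
    · exact Nat.cast_inj
  have h2 : knd s = Kind.clique ↔ s = true := by
    cases s
    · simp [knd]
    · simp [knd]
  rcases u with i | j | ⟨i, j, t⟩ <;> rcases v with i' | j' | ⟨i', j', t'⟩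
  all_goals simp only [tr1, Vertex.Edge, FC.Vx.edge, h1, h2, Nat.cast_inj]
  exact and_congr eq_comm Iff.rfl

theorem brg1 {s : Bool} {F : Fin (r + 2) → Fin (r + 2) → Prop} (hF : ∀ a b, F a b → F b a)
    (hr : 1 ≤ r) {S : LG.Structure ℕ} (h : FC.WF r s (nf F) S) :
    InducedIn (crossing ℚ r (knd s) F hF) (gd S) := by
  obtain ⟨g, h1, h2⟩ := h.sub hr
  refine ⟨fun u => tr1 (g u), tr1_inj.comp h1, fun u v => ?_⟩
  refine (h2 u v).trans ?_
  show _ ↔ tr1 (g u) ≠ tr1 (g v) ∧ ¬ ((Vertex.Edge (knd s) (tr1 (g u)) (tr1 (g v)) ∨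
    Vertex.Edge (knd s) (tr1 (g v)) (tr1 (g u))) ↔ F (tr1 (g u)).layer (tr1 (g v)).layer)
  rw [tr1_inj.ne_iff, tr1_edge, tr1_edge, nf_iff (F := F) (tr1_lay _) (tr1_lay _)]
  exact Iff.rfl

/-- half graph crossings -/
def tr2 : Vx ℚ r → Vertex ℚ r
  | .row i => .row i
  | .col j => .col j
  | .pt i j t => .pt i j t

theorem tr2_inj : Function.Injective (tr2 : Vx ℚ r → Vertex ℚ r) := by
  rintro (i | j | ⟨i, j, t⟩) (i' | j' | ⟨i', j', t'⟩) h
  all_goals
    simp only [tr2, Vertex.row.injEq, Vertex.col.injEq, Vertex.pt.injEq, reduceCtorEq] at h ⊢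
  all_goals simp only [Vx.row.injEq, Vx.col.injEq, Vx.pt.injEq]
  all_goals exact h

theorem tr2_lay (v : Vx ℚ r) : ((tr2 v).layer : ℕ) = v.lay := by
  rcases v with i | j | ⟨i, j, t⟩ <;> rfl

theorem tr2_edge (u v : Vx ℚ r) : Vertex.Edge Kind.half (tr2 u) (tr2 v) ↔ he u v := by
  rcases u with i | j | ⟨i, j, t⟩ <;> rcases v with i' | j' | ⟨i', j', t'⟩
  all_goals simp [tr2, Vertex.Edge, he, Kind.rel]

theorem brg2 {F : Fin (r + 2) → Fin (r + 2) → Prop} (hF : ∀ a b, F a b → F b a)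
    (hr : 1 ≤ r) {S : LG.Structure ℕ} (h : WS r false (nf F) S) :
    InducedIn (crossing ℚ r Kind.half F hF) (gd S) := by
  obtain ⟨g, h1, h2⟩ := h.half hr
  refine ⟨fun u => tr2 (g u), tr2_inj.comp h1, fun u v => ?_⟩
  refine (h2 u v).trans ?_
  show _ ↔ tr2 (g u) ≠ tr2 (g v) ∧ ¬ ((Vertex.Edge Kind.half (tr2 (g u)) (tr2 (g v)) ∨
    Vertex.Edge Kind.half (tr2 (g v)) (tr2 (g u))) ↔ F (tr2 (g u)).layer (tr2 (g v)).layer)
  rw [tr2_inj.ne_iff, tr2_edge, tr2_edge, nf_iff (F := F) (tr2_lay _) (tr2_lay _)]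
  exact Iff.rfl

theorem brg3 {S : LG.Structure ℕ} (h : WS 1 true (fun _ _ => False) S) :
    InducedIn (comparabilityGrid ℚ) (gd S) := h.grid

/-- first-order theories, crossings -/
theorem fo_crossing (hr : 1 ≤ r) (K : Kind) {F : Fin (r + 2) → Fin (r + 2) → Prop}
    (hF : ∀ a b, F a b → F b a)
    (hV : ∀ T' : LG.Theory, T'.IsComplete → (∀ S : LG.Structure ℕ,
      @Theory.Model LG ℕ S T' → InducedIn (crossing ℚ r K F hF) (gd S)) → VaughtF LG T')
    (L : FirstOrder.Language.{0, 0}) (hL : Countable L.Symbols) (T : L.Theory) :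
    VaughtF L T := by
  cases K with
  | star =>
    exact FC.main (s := false) hr (nf_symm hF) (fun T' h1 h2 => hV T' h1 fun S hS => by
      obtain ⟨g, k1, k2⟩ := h2 S hS
      refine ⟨fun u => tr1 (g u), tr1_inj.comp k1, fun u v => ?_⟩
      refine (k2 u v).trans ?_
      show _ ↔ tr1 (g u) ≠ tr1 (g v) ∧ ¬ ((Vertex.Edge (knd false) (tr1 (g u)) (tr1 (g v)) ∨
        Vertex.Edge (knd false) (tr1 (g v)) (tr1 (g u))) ↔
          F (tr1 (g u)).layer (tr1 (g v)).layer)
      rw [tr1_inj.ne_iff, tr1_edge, tr1_edge, nf_iff (F := F) (tr1_lay _) (tr1_lay _)]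
      exact Iff.rfl) L hL T
  | clique =>
    exact FC.main (s := true) hr (nf_symm hF) (fun T' h1 h2 => hV T' h1 fun S hS => by
      obtain ⟨g, k1, k2⟩ := h2 S hS
      refine ⟨fun u => tr1 (g u), tr1_inj.comp k1, fun u v => ?_⟩
      refine (k2 u v).trans ?_
      show _ ↔ tr1 (g u) ≠ tr1 (g v) ∧ ¬ ((Vertex.Edge (knd true) (tr1 (g u)) (tr1 (g v)) ∨
        Vertex.Edge (knd true) (tr1 (g v)) (tr1 (g u))) ↔
          F (tr1 (g u)).layer (tr1 (g v)).layer)
      rw [tr1_inj.ne_iff, tr1_edge, tr1_edge, nf_iff (F := F) (tr1_lay _) (tr1_lay _)]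
      exact Iff.rfl) L hL T
  | half =>
    exact main (s := false) hr (nf_symm hF) (by simp) (fun T' h1 h2 => hV T' h1 fun S hS =>
      brg2 hF hr (h2 S hS)) L hL T

/-- first-order theories, comparability grids -/
theorem fo_grid
    (hV : ∀ T' : LG.Theory, T'.IsComplete → (∀ S : LG.Structure ℕ,
      @Theory.Model LG ℕ S T' → InducedIn (comparabilityGrid ℚ) (gd S)) → VaughtF LG T')
    (L : FirstOrder.Language.{0, 0}) (hL : Countable L.Symbols) (T : L.Theory) :
    VaughtF L T :=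
  main (r := 1) (s := true) (f := fun _ _ => False) le_rfl (fun _ _ h => h) (fun _ => rfl)
    (fun T' h1 h2 => hV T' h1 fun S hS => brg3 (h2 S hS)) L hL T

/-- Borel classes, crossings -/
theorem bor_crossing (hr : 1 ≤ r) (K : Kind) {F : Fin (r + 2) → Fin (r + 2) → Prop}
    (hF : ∀ a b, F a b → F b a) :
    Faithful BIso (fun y => InducedIn (crossing ℚ r K F hF) fun u v => y u v = true) := by
  cases K with
  | star => exact faithful_wf (s := false) hr (nf_symm hF) fun y h => brg1 hF hr h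
  | clique => exact faithful_wf (s := true) hr (nf_symm hF) fun y h => brg1 hF hr h
  | half => exact faithful_ws (s := false) hr (nf_symm hF) (by simp) fun y h => brg2 hF hr h

/-- Borel classes, comparability grids -/
theorem bor_grid :
    Faithful BIso (fun y => InducedIn (comparabilityGrid ℚ) fun u v => y u v = true) :=
  faithful_ws (r := 1) (s := true) (f := fun _ _ => False) le_rfl (fun _ _ h => h)
    (fun _ => rfl) fun _ h => brg3 h

end Pool.Agent.TH783.MD
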