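import Pool.Agent.TH783.MD.Fd
import Pool.Agent.TH686.DO.Inv2

set_option autoImplicit false

/-! The interpretation of pairs of dense linear orders. -/

namespace Pool.Agent.TH783.MD

open FirstOrder FirstOrder.Language
open Pool.Agent.TH783.FC (Tw Iz Mt Fl Un flip FD1 FD2 fd2_gd)
open Pool.Agent.W889.FO
open Pool.Agent.W889.FO.StE (LG gd siso_gd)
open Pool.Agent.W889.VC (DLO)
open Pool.Agent.TH686.FO (L2 R2 g1 g2)
open Pool.Agent.TH686.DO (DL1)

/-- the decoded relation -/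
def Xd (s : Bool) (S : LG.Structure ℕ) (u v : ℕ) : Prop := De s (Un (gd S)) u v

/-- the decoded flip -/
def fd (S : LG.Structure ℕ) (u v : ℕ) : Prop := Fl (gd S) u v

theorem fd2_Xd {V : LG.Structure ℕ → Prop} (s : Bool) : FD2 V (Xd s) :=
  fd_de (FD2.un (fd2_gd (V := V))) s

theorem fd2_fd {V : LG.Structure ℕ → Prop} : FD2 V fd := FD2.fl (fd2_gd (V := V))

/-- the axioms -/
structure WS (r : ℕ) (s : Bool) (f : ℕ → ℕ → Prop) (S : LG.Structure ℕ) : Prop where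
  w : W2 r f (Xd s S) (fd S)
  eq : ∀ u v, gd S u v ↔ flip (En s r (Xd s S)) (fd S) u v

theorem ax_WS (r : ℕ) (s : Bool) (f : ℕ → ℕ → Prop) : Ax (WS r s f) := by
  have h1 := ax_w2 (fd2_Xd (V := fun _ => True) s) fd2_fd r f
  have h2 : Ax (fun S : LG.Structure ℕ => ∀ v : Fin 2 → ℕ, gd S (v 0) (v 1) ↔
      flip (En s r (Xd s S)) (fd S) (v 0) (v 1)) := Ax.ofn 2 <|
    (fd2_gd _ _ _).iff ((FD2.flip (fd_en (fd2_Xd s) s r) fd2_fd) _ _ _)
  refine (h1.and h2).congr fun S => ?_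
  constructor
  · rintro ⟨k1, k2⟩
    exact ⟨k1, fun u v => k2 ![u, v]⟩
  · rintro ⟨k1, k2⟩
    exact ⟨k1, fun v => k2 _ _⟩

/-- the interpretation -/
def itp (r : ℕ) (s : Bool) (f : ℕ → ℕ → Prop) : Itp L2 LG where
  W := WS r s f
  axW := ax_WS r s f
  dom := fun S u => Dm (Xd s S) u
  rel := fun {n} Q => match n, Q with
    | _, R2.fst => fun S v => O1 (Xd s S) (v 0) (v 1)
    | _, R2.snd => fun S v => O2 r (Xd s S) (v 0) (v 1)
  fdom := fd_dm (fd2_Xd s) _ _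
  frel := fun {n} Q => match n, Q with
    | _, R2.fst => fd_o1 (fd2_Xd s) _ _ _
    | _, R2.snd => fd_o2 (fd2_Xd s) r _ _ _
  inf := fun _ h => inf_of_card h.w.inf

variable {r : ℕ} {s : Bool} {f : ℕ → ℕ → Prop} {S S' : LG.Structure ℕ}

theorem up (h : WS r s f S) (h' : WS r s f S') (hi : SIso ((itp r s f).D S) ((itp r s f).D S')) :
    SIso S S' := by
  obtain ⟨π, hπ⟩ : ∃ π : {u // Dm (Xd s S) u} ≃ {u // Dm (Xd s S') u},
      ∀ {n : ℕ} (R : L2.Relations n) (u : Fin n → {u // Dm (Xd s S) u}),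
        (itp r s f).rel R S (fun i => u i) ↔ (itp r s f).rel R S' (fun i => π (u i)) :=
    ((itp r s f).D_iso_iff h h').1 hi
  obtain ⟨e, h1, h2⟩ := W2.ext h.w h'.w π
    (fun u v => hπ R2.fst (fun m => if m = 0 then u else v))
    (fun u v => hπ R2.snd (fun m => if m = 0 then u else v))
  refine siso_gd e fun u v => ?_
  rw [h.eq, h'.eq]
  unfold FC.flip
  rw [← en_map e h1 s u v, ← h2]

theorem cntS (r : ℕ) (s : Bool) (f : ℕ → ℕ → Prop) :
    Itp.Cnt (itp r s f) Unit (fun _ => ()) where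
  up := fun _ _ h h' hi _ => up h h' hi
  bp := fun _ _ _ _ => Pool.Agent.W889.VC.BP.const _

instance (Q : Type) [Countable Q] (r : ℕ) : Countable (Tk Q r) := by
  have : Function.Surjective (fun x : (Kd r × Q) ⊕ Fin 2 ⊕ Fin 3 ⊕ ℕ => (match x with
      | .inl (k, q) => Tk.p k q
      | .inr (.inl i) => Tk.e i
      | .inr (.inr (.inl i)) => Tk.f i
      | .inr (.inr (.inr i)) => Tk.z i : Tk Q r)) := by
    rintro (⟨k, q⟩ | i | i | i)
    · exact ⟨.inl (k, q), rfl⟩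
    · exact ⟨.inr (.inl i), rfl⟩
    · exact ⟨.inr (.inr (.inl i)), rfl⟩
    · exact ⟨.inr (.inr (.inr i)), rfl⟩
  exact this.countable

instance (Q : Type) (r : ℕ) : Infinite (Tk Q r) :=
  Infinite.of_injective (fun m : ℕ => (Tk.z m : Tk Q r)) fun m n h => by simpa using h

theorem dlo_of {l : ℕ → ℕ → Prop} (h : DL1 l) : DLO l :=
  ⟨h.slo.irrefl, h.slo.trans, h.slo.total, h.dn, h.ab, h.be⟩

/-- the graph over a pair of orders; the places are counted by `e` -/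
@[reducible] def std (r : ℕ) (s : Bool) (f : ℕ → ℕ → Prop) (e : Tk ℕ r ≃ ℕ)
    (o1 o2 : ℕ → ℕ → Prop) : LG.Structure ℕ where
  funMap := fun {_} f => isEmptyElim f
  RelMap := fun {n} Q => match n, Q with
    | _, FirstOrder.Language.graphRel.adj => fun v =>
      flip (SY s o1 o2) (flT f) (e.symm (v 0)) (e.symm (v 1))

theorem gd_std (e : Tk ℕ r ≃ ℕ) (o1 o2 : ℕ → ℕ → Prop) (u v : ℕ) :
    gd (std r s f e o1 o2) u v ↔ flip (SY s o1 o2) (flT f) (e.symm u) (e.symm v) := Iff.rfl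

theorem std_W (hr : 1 ≤ r) (hf : ∀ a b, f a b → f b a) (hs : s = true → r = 1)
    (e : Tk ℕ r ≃ ℕ) {o1 o2 : ℕ → ℕ → Prop} (h1 : DLO o1) (h2 : DLO o2) :
    WS r s f (std r s f e o1 o2) ∧ (∀ u v, SY false o1 o2 u v ↔
      Xd s (std r s f e o1 o2) (e u) (e v)) := by
  let X : ℕ → ℕ → Prop := fun u v => SY false o1 o2 (e.symm u) (e.symm v)
  let fl : ℕ → ℕ → Prop := fun u v => flT f (e.symm u) (e.symm v)
  have hy : ∀ u v, SY false o1 o2 u v ↔ X (e u) (e v) := by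
    intro u v
    simp [X]
  have hy' : ∀ u v, flT f u v ↔ fl (e u) (e v) := by
    intro u v
    simp [fl]
  have hw : W2 r f X fl := w2_map e hy hy' (w2_T hr h1 h2 hf)
  have hen : ∀ u v, SY s o1 o2 u v ↔ En s r X (e u) (e v) := fun u v => by
    rw [← en_map e hy, en_sy hr h1 h2 hs]
  have hgd : gd (std r s f e o1 o2) = flip (En s r X) fl := by
    funext u v
    refine propext ((gd_std e o1 o2 u v).trans ?_)
    unfold FC.flip
    rw [hen, hy', e.apply_symm_apply, e.apply_symm_apply]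
  obtain ⟨k1, k2⟩ := hw.unflip hf hr hs
  have hX : Xd s (std r s f e o1 o2) = X := by
    funext u v
    show De s (Un (gd _)) u v = _
    rw [hgd]
    exact propext (k1 u v)
  have hfl : fd (std r s f e o1 o2) = fl := by
    funext u v
    show Fl (gd _) u v = _
    rw [hgd]
    exact propext (k2 u v)
  refine ⟨⟨?_, fun u v => ?_⟩, fun u v => ?_⟩
  · rw [hX, hfl]
    exact hw
  · rw [hX, hfl, hgd]
  · rw [hX]
    exact hy u v

/-- existence -/
theorem std_iso (hr : 1 ≤ r) (hf : ∀ a b, f a b → f b a) (hs : s = true → r = 1)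
    (e : Tk ℕ r ≃ ℕ) (N : L2.Structure ℕ) (h1 : DL1 (g1 N)) (h2 : DL1 (g2 N)) :
    SIso ((itp r s f).D (std r s f e (g1 N) (g2 N))) N := by
  have h1 := dlo_of h1
  have h2 := dlo_of h2
  obtain ⟨hW, hX⟩ := std_W hr hf hs e h1 h2
  have hB : ∀ q : ℕ, Dm (Xd s (std r s f e (g1 N) (g2 N))) (e (pt0 hr q)) := fun q =>
    (dm_map e hX _).1 ((dm_iff hr h1 h2).2 ⟨q, rfl⟩)
  have hbij : Function.Bijective (fun q : ℕ => (⟨e (pt0 hr q), hB q⟩ :
      {u // Dm (Xd s (std r s f e (g1 N) (g2 N))) u})) := by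
    constructor
    · intro u v huv
      exact pt0_inj hr (e.injective (congrArg Subtype.val huv))
    · rintro ⟨u, hu⟩
      obtain ⟨t, rfl⟩ := e.surjective u
      obtain ⟨q, rfl⟩ := (dm_iff hr h1 h2).1 ((dm_map e hX _).2 hu)
      exact ⟨q, rfl⟩
  refine (itp r s f).D_iso hW (Equiv.ofBijective _ hbij) fun {n} Q u => ?_
  cases Q with
  | fst =>
    have e1 : ![u 0, u 1] = u := by
      funext m
      fin_cases m <;> rfl
    have h3 : @Structure.RelMap L2 ℕ N 2 R2.fst u ↔ g1 N (u 0) (u 1) := by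
      unfold g1
      rw [e1]
    refine h3.trans ?_
    show _ ↔ O1 (Xd s (std r s f e (g1 N) (g2 N))) (e (pt0 hr (u 0))) (e (pt0 hr (u 1)))
    rw [← o1_map e hX, o1_iff hr h1 h2]
  | snd =>
    have e1 : ![u 0, u 1] = u := by
      funext m
      fin_cases m <;> rfl
    have h3 : @Structure.RelMap L2 ℕ N 2 R2.snd u ↔ g2 N (u 0) (u 1) := by
      unfold g2
      rw [e1]
    refine h3.trans ?_
    show _ ↔ O2 r (Xd s (std r s f e (g1 N) (g2 N))) (e (pt0 hr (u 0))) (e (pt0 hr (u 1)))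
    rw [← o2_map e hX, o2_iff hr h1 h2]

theorem ex (hr : 1 ≤ r) (hf : ∀ a b, f a b → f b a) (hs : s = true → r = 1)
    (N : L2.Structure ℕ) (h1 : DL1 (g1 N)) (h2 : DL1 (g2 N)) :
    ∃ S : LG.Structure ℕ, WS r s f S ∧ SIso ((itp r s f).D S) N := by
  obtain ⟨e⟩ : Nonempty (Tk ℕ r ≃ ℕ) := nonempty_equiv_of_countable
  exact ⟨_, (std_W hr hf hs e (dlo_of h1) (dlo_of h2)).1, std_iso hr hf hs e N h1 h2⟩

/-- a standard representation -/
theorem WS.std (h : WS r s f S) (hr : 1 ≤ r) (hs : s = true → r = 1) :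
    ∃ (Q : Type) (_ : Countable Q) (_ : Nonempty Q) (o1 o2 : Q → Q → Prop), DLO o1 ∧ DLO o2 ∧
      ∃ e : ℕ ≃ Tk Q r, ∀ u v, gd S u v ↔ flip (SY s o1 o2) (flT f) (e u) (e v) := by
  obtain ⟨e, h3, h4⟩ := h.w.rep_en hr hs
  obtain ⟨x, hx⟩ := h.w.pt
  refine ⟨{x // Dm (Xd s S) x}, inferInstance, ⟨⟨x, hx⟩⟩, _, _, h.w.d1, h.w.d2, e.symm,
    fun u v => ?_⟩
  rw [h.eq]
  unfold FC.flip
  rw [h3, h4, e.apply_symm_apply, e.apply_symm_apply]

/-- the reduction -/
theorem reduce (hr : 1 ≤ r) (hf : ∀ a b, f a b → f b a) (hs : s = true → r = 1)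
    (hV : ∀ T' : LG.Theory, (∀ S : LG.Structure ℕ,
      @Theory.Model LG ℕ S T' → WS r s f S) → Vaught LG T') (T : L2.Theory)
    (hT : ∀ S : L2.Structure ℕ, @Theory.Model L2 ℕ S T → DL1 (g1 S) ∧ DL1 (g2 S)) :
    Vaught L2 T := by
  have := Pool.Agent.TH686.FO.countable_L2
  refine (itp r s f).transfer (cntS r s f) T (fun M hM => ?_) fun T' hT' =>
    hV T' fun S hS => (hT' S hS).1
  obtain ⟨h1, h2⟩ := hT M hM
  exact ex hr hf hs M h1 h2

/-- Vaught's conjecture reduces to complete theories of these graphs. -/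
theorem main (hr : 1 ≤ r) (hf : ∀ a b, f a b → f b a) (hs : s = true → r = 1)
    (hV : ∀ T' : LG.Theory, T'.IsComplete → (∀ S : LG.Structure ℕ,
      @Theory.Model LG ℕ S T' → WS r s f S) → VaughtF LG T')
    (L : FirstOrder.Language.{0, 0}) (hL : Countable L.Symbols) (T : L.Theory) :
    VaughtF L T := by
  have := StD.countable_LG
  have := Pool.Agent.TH686.FO.countable_L2
  refine Pool.Agent.TH686.FO.all_of_LG (Pool.Agent.TH686.DO.red_dd fun T' hT' => ?_) L hL T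
  exact reduce hr hf hs (fun T2 hT2 => Pool.Agent.TH686.FO.compl hV T2 hT2) T' hT'

end Pool.Agent.TH783.MD
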