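import Pool.Agent.TH783.MD.Itp

set_option autoImplicit false
set_option linter.unusedSectionVars false

/-! Embeddings of the standard graphs into half-graph crossings and comparability grids. -/

namespace Pool.Agent.TH783.MD

open Pool.Agent.W889.VC (DLO shuffle_unique)

/-- vertices of the crossings -/
inductive Vx (ι : Type) (r : ℕ) : Type
  | row (i : ι) : Vx ι r
  | col (j : ι) : Vx ι r
  | pt (i j : ι) (t : Fin r) : Vx ι r

/-- layers -/
def Vx.lay {ι : Type} {r : ℕ} : Vx ι r → ℕ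
  | row _ => 0
  | pt _ _ t => t + 1
  | col _ => r + 1

/-- half graph crossings -/
def he {r : ℕ} : Vx ℚ r → Vx ℚ r → Prop
  | .row i, .pt i' _ t => i ≤ i' ∧ (t : ℕ) = 0
  | .pt i j t, .pt i' j' t' => i = i' ∧ j = j' ∧ (t' : ℕ) = t + 1
  | .pt _ j t, .col j' => j' ≤ j ∧ (t : ℕ) + 1 = r
  | _, _ => False

/-- comparability grids -/
def cg (u v : ℚ × ℚ) : Prop := u.1 = v.1 ∨ u.2 = v.2 ∨ (u.1 < v.1 ↔ u.2 < v.2)

variable {Q : Type} {r : ℕ} {o1 o2 : Q → Q → Prop}

/-- countable dense linear orders are intervals of rationals -/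
theorem ex_phi [Countable Q] [Nonempty Q] (h : DLO o1) : ∃ φ : Q → ℚ, Function.Injective φ ∧
    (∀ q q', o1 q q' ↔ φ q < φ q') ∧ ∀ q, 0 < φ q ∧ φ q < 1 := by
  have hB : DLO (fun p q : {x : ℚ // 0 < x ∧ x < 1} => (p : ℚ) < q) := by
    refine ⟨fun a => lt_irrefl _, fun a b c => lt_trans, fun a b hab => ?_, fun a b hab => ?_,
      fun a => ?_, fun a => ?_⟩
    · exact lt_or_gt_of_ne fun e => hab (Subtype.ext e)
    · obtain ⟨c, h1, h2⟩ := exists_between hab
      exact ⟨⟨c, a.2.1.trans h1, h2.trans b.2.2⟩, h1, h2⟩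
    · obtain ⟨c, h1, h2⟩ := exists_between a.2.2
      exact ⟨⟨c, a.2.1.trans h1, h2⟩, h1⟩
    · obtain ⟨c, h1, h2⟩ := exists_between a.2.1
      exact ⟨⟨c, h1, h2.trans a.2.2⟩, h2⟩
  obtain ⟨e, he, -⟩ := shuffle_unique (A := Q) (B := {x : ℚ // 0 < x ∧ x < 1}) (Q := Unit) o1
    _ h hB (fun _ => ()) (fun _ => ())
    (fun _ a1 a2 ha => by
      obtain ⟨c, h1, h2⟩ := h.dense a1 a2 ha
      exact ⟨c, h1, h2, rfl⟩)
    (fun _ a1 a2 ha => by
      obtain ⟨c, h1, h2⟩ := hB.dense a1 a2 ha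
      exact ⟨c, h1, h2, rfl⟩)
    (fun _ => ⟨⟨1 / 2, by norm_num, by norm_num⟩, rfl⟩)
    (fun _ => ⟨Classical.choice inferInstance, rfl⟩)
  exact ⟨fun q => e q, fun q q' h => e.injective (Subtype.ext h), he, fun q => (e q).2⟩

theorem not_lt_phi {φ : Q → ℚ} (h : ∀ q q', o1 q q' ↔ φ q < φ q') (q q' : Q) :
    ¬ o1 q q' ↔ φ q' ≤ φ q := by
  rw [h, not_lt]

/-- directed edges -/
def sd (o1 o2 : Q → Q → Prop) : Tk Q r → Tk Q r → Prop
  | Tk.p Kd.a p, Tk.p (Kd.c t) q => ¬ o1 q p ∧ (t : ℕ) = 0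
  | Tk.p (Kd.c t) q, Tk.p Kd.b p => ¬ o2 q p ∧ (t : ℕ) + 1 = r
  | Tk.p (Kd.c t) q, Tk.p (Kd.c t') q' => q = q' ∧ (t' : ℕ) = t + 1
  | Tk.p Kd.a _, Tk.e _ => True
  | Tk.f _, Tk.p Kd.b _ => True
  | _, _ => False

theorem sy_sd (u v : Tk Q r) : SY false o1 o2 u v ↔ sd o1 o2 u v ∨ sd o1 o2 v u := by
  rcases u with ⟨k, q⟩ | i | i | i <;> rcases v with ⟨k', q'⟩ | j | j | j
  · rcases k with _ | _ | t <;> rcases k' with _ | _ | t' <;>
      simp only [SY, cc, sd, or_false, false_or, or_self, Bool.false_eq_true, false_and]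
    constructor
    · rintro ⟨rfl, h | h⟩
      · exact Or.inl ⟨rfl, h⟩
      · exact Or.inr ⟨rfl, h⟩
    · rintro (⟨rfl, h⟩ | ⟨rfl, h⟩)
      · exact ⟨rfl, Or.inl h⟩
      · exact ⟨rfl, Or.inr h⟩
  · rcases k with _ | _ | t <;> simp [SY, sd]
  · rcases k with _ | _ | t <;> simp [SY, sd]
  · rcases k with _ | _ | t <;> simp [SY, sd]
  · rcases k' with _ | _ | t <;> simp [SY, sd]
  · simp [SY, sd]
  · simp [SY, sd]
  · simp [SY, sd]
  · rcases k' with _ | _ | t <;> simp [SY, sd]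
  · simp [SY, sd]
  · simp [SY, sd]
  · simp [SY, sd]
  · rcases k' with _ | _ | t <;> simp [SY, sd]
  · simp [SY, sd]
  · simp [SY, sd]
  · simp [SY, sd]

section half

variable (hr : 1 ≤ r) (φ ψ : Q → ℚ)

open Classical in
/-- the places in the half graph crossing -/
noncomputable def gh : Tk Q r → Vx ℚ r
  | .p Kd.a q => .row (φ q)
  | .p Kd.b q => .col (ψ q)
  | .p (Kd.c t) q => .pt (φ q) (ψ q) t
  | .e i => .pt (2 + (i : ℕ)) (-1 - (i : ℕ)) ⟨0, hr⟩
  | .f j => .pt (-1 - (j : ℕ)) (2 + (j : ℕ)) ⟨r - 1, Nat.sub_lt hr one_pos⟩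
  | .z m => if m % (r + 2) = 0 then .row (10 + m) else
      if h : m % (r + 2) - 1 < r then .pt (-10 - m) (-10 - m) ⟨m % (r + 2) - 1, h⟩
      else .col (10 + m)

theorem gh_z (m : ℕ) : (gh hr φ ψ (Tk.z m) = .row (10 + m) ∧ m % (r + 2) = 0) ∨
    (∃ t : Fin r, gh hr φ ψ (Tk.z m) = .pt (-10 - m) (-10 - m) t ∧ m % (r + 2) = t + 1) ∨
    (gh hr φ ψ (Tk.z m) = .col (10 + m) ∧ m % (r + 2) = r + 1) := by
  have := Nat.mod_lt m (show 0 < r + 2 by omega)
  by_cases h1 : m % (r + 2) = 0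
  · exact Or.inl ⟨if_pos h1, h1⟩
  · by_cases h2 : m % (r + 2) - 1 < r
    · refine Or.inr (Or.inl ⟨⟨m % (r + 2) - 1, h2⟩, ?_, ?_⟩)
      · show (if m % (r + 2) = 0 then _ else _) = _
        rw [if_neg h1, dif_pos h2]
      · show m % (r + 2) = m % (r + 2) - 1 + 1
        omega
    · refine Or.inr (Or.inr ⟨?_, by omega⟩)
      show (if m % (r + 2) = 0 then _ else _) = _
      rw [if_neg h1, dif_neg h2]

theorem gh_lay (u : Tk Q r) : (gh hr φ ψ u).lay = u.lay := by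
  rcases u with ⟨_ | _ | t, q⟩ | i | i | m
  · rfl
  · rfl
  · rfl
  · rfl
  · show r - 1 + 1 = r
    omega
  · rcases gh_z hr φ ψ m with ⟨h1, h2⟩ | ⟨t, h1, h2⟩ | ⟨h1, h2⟩
    · rw [h1]
      exact h2.symm
    · rw [h1]
      exact h2.symm
    · rw [h1]
      exact h2.symm

variable {φ ψ} (hφ : Function.Injective φ) (hψ : Function.Injective ψ)
  (h1 : ∀ q q', o1 q q' ↔ φ q < φ q') (h2 : ∀ q q', o2 q q' ↔ ψ q < ψ q')
  (b1 : ∀ q, 0 < φ q ∧ φ q < 1) (b2 : ∀ q, 0 < ψ q ∧ ψ q < 1)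

theorem cast2 (i : Fin 2) : (0 : ℚ) ≤ (i : ℕ) ∧ ((i : ℕ) : ℚ) ≤ 1 := by
  constructor
  · positivity
  · have := i.2
    have h : (i : ℕ) ≤ 1 := by omega
    exact_mod_cast h

theorem cast3 (i : Fin 3) : (0 : ℚ) ≤ (i : ℕ) ∧ ((i : ℕ) : ℚ) ≤ 2 := by
  constructor
  · positivity
  · have := i.2
    have h : (i : ℕ) ≤ 2 := by omega
    exact_mod_cast h

theorem row_case {u : Tk Q r} {x : ℚ} (h : gh hr φ ψ u = .row x) :
    (∃ q, u = .p Kd.a q ∧ x = φ q) ∨ ∃ m, u = .z m ∧ x = 10 + m := by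
  rcases u with ⟨_ | _ | t, q⟩ | i | i | m
  · exact Or.inl ⟨q, rfl, by cases h; rfl⟩
  · cases h
  · cases h
  · cases h
  · cases h
  · rcases gh_z hr φ ψ m with ⟨z1, z2⟩ | ⟨w, z1, z2⟩ | ⟨z1, z2⟩
    · rw [z1] at h
      exact Or.inr ⟨m, rfl, by cases h; rfl⟩
    · rw [z1] at h
      cases h
    · rw [z1] at h
      cases h

theorem col_case {u : Tk Q r} {x : ℚ} (h : gh hr φ ψ u = .col x) :
    (∃ q, u = .p Kd.b q ∧ x = ψ q) ∨ ∃ m, u = .z m ∧ x = 10 + m := by
  rcases u with ⟨_ | _ | t, q⟩ | i | i | m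
  · cases h
  · exact Or.inl ⟨q, rfl, by cases h; rfl⟩
  · cases h
  · cases h
  · cases h
  · rcases gh_z hr φ ψ m with ⟨z1, z2⟩ | ⟨w, z1, z2⟩ | ⟨z1, z2⟩
    · rw [z1] at h
      cases h
    · rw [z1] at h
      cases h
    · rw [z1] at h
      exact Or.inr ⟨m, rfl, by cases h; rfl⟩

theorem pt_case {u : Tk Q r} {x y : ℚ} {t : Fin r} (h : gh hr φ ψ u = .pt x y t) :
    (∃ q, u = .p (Kd.c t) q ∧ x = φ q ∧ y = ψ q) ∨
    (∃ i : Fin 2, u = .e i ∧ x = 2 + (i : ℕ) ∧ y = -1 - (i : ℕ) ∧ (t : ℕ) = 0) ∨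
    (∃ i : Fin 3, u = .f i ∧ x = -1 - (i : ℕ) ∧ y = 2 + (i : ℕ) ∧ (t : ℕ) + 1 = r) ∨
    ∃ m : ℕ, u = .z m ∧ x = -10 - m ∧ y = -10 - m ∧ m % (r + 2) = t + 1 := by
  rcases u with ⟨_ | _ | t, q⟩ | i | i | m
  · cases h
  · cases h
  · cases h
    exact Or.inl ⟨q, rfl, rfl, rfl⟩
  · cases h
    exact Or.inr (Or.inl ⟨i, rfl, rfl, rfl, rfl⟩)
  · cases h
    refine Or.inr (Or.inr (Or.inl ⟨i, rfl, rfl, rfl, ?_⟩))
    show r - 1 + 1 = r
    omega
  · rcases gh_z hr φ ψ m with ⟨z1, z2⟩ | ⟨w, z1, z2⟩ | ⟨z1, z2⟩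
    · rw [z1] at h
      cases h
    · rw [z1] at h
      cases h
      exact Or.inr (Or.inr (Or.inr ⟨m, rfl, rfl, rfl, z2⟩))
    · rw [z1] at h
      cases h

theorem fin2_ext {i j : Fin 2} (h : (2 : ℚ) + (i : ℕ) = 2 + (j : ℕ)) : i = j := by
  have h1 : ((i : ℕ) : ℚ) = (j : ℕ) := by linarith
  exact Fin.ext (by exact_mod_cast h1)

theorem fin3_ext {i j : Fin 3} (h : (2 : ℚ) + (i : ℕ) = 2 + (j : ℕ)) : i = j := by
  have h1 : ((i : ℕ) : ℚ) = (j : ℕ) := by linarith
  exact Fin.ext (by exact_mod_cast h1)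

theorem nat_ext {i j : ℕ} (h : (10 : ℚ) + i = 10 + j) : i = j := by
  have h1 : (i : ℚ) = j := by linarith
  exact_mod_cast h1

include b1 b2 hφ hψ in
theorem gh_inj : Function.Injective (gh hr φ ψ) := by
  intro u u' h
  rcases hu : gh hr φ ψ u with x | x | ⟨x, y, t⟩
  · rcases row_case hr hu with ⟨q, rfl, e1⟩ | ⟨m, rfl, e1⟩ <;>
      rcases row_case hr (h.symm.trans hu) with ⟨q', rfl, e2⟩ | ⟨m', rfl, e2⟩
    · rw [hφ (e1.symm.trans e2)]
    · have := b1 q
      have : (0 : ℚ) ≤ m' := Nat.cast_nonneg _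
      exfalso
      linarith
    · have := b1 q'
      have : (0 : ℚ) ≤ m := Nat.cast_nonneg _
      exfalso
      linarith
    · rw [nat_ext (e1.symm.trans e2)]
  · rcases col_case hr hu with ⟨q, rfl, e1⟩ | ⟨m, rfl, e1⟩ <;>
      rcases col_case hr (h.symm.trans hu) with ⟨q', rfl, e2⟩ | ⟨m', rfl, e2⟩
    · rw [hψ (e1.symm.trans e2)]
    · have := b2 q
      have : (0 : ℚ) ≤ m' := Nat.cast_nonneg _
      exfalso
      linarith
    · have := b2 q'
      have : (0 : ℚ) ≤ m := Nat.cast_nonneg _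
      exfalso
      linarith
    · rw [nat_ext (e1.symm.trans e2)]
  · rcases pt_case hr hu with ⟨q, rfl, e1, e2⟩ | ⟨i, rfl, e1, e2, e3⟩ | ⟨i, rfl, e1, e2, e3⟩ |
      ⟨m, rfl, e1, e2, e3⟩ <;>
      rcases pt_case hr (h.symm.trans hu) with ⟨q', rfl, e1', e2'⟩ | ⟨i', rfl, e1', e2', e3'⟩ |
        ⟨i', rfl, e1', e2', e3'⟩ | ⟨m', rfl, e1', e2', e3'⟩
    · rw [hφ (e1.symm.trans e1')]
    · have := b1 q
      have := cast2 i'
      exfalso
      linarith
    · have := b1 q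
      have := cast3 i'
      exfalso
      linarith
    · have := b1 q
      have : (0 : ℚ) ≤ m' := Nat.cast_nonneg _
      exfalso
      linarith
    · have := b1 q'
      have := cast2 i
      exfalso
      linarith
    · rw [fin2_ext (e1.symm.trans e1')]
    · have := cast2 i
      have := cast3 i'
      exfalso
      linarith
    · have := cast2 i
      have : (0 : ℚ) ≤ m' := Nat.cast_nonneg _
      exfalso
      linarith
    · have := b1 q'
      have := cast3 i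
      exfalso
      linarith
    · have := cast2 i'
      have := cast3 i
      exfalso
      linarith
    · rw [fin3_ext (e2.symm.trans e2')]
    · have := cast3 i
      have : (0 : ℚ) ≤ m' := Nat.cast_nonneg _
      exfalso
      linarith
    · have := b1 q'
      have : (0 : ℚ) ≤ m := Nat.cast_nonneg _
      exfalso
      linarith
    · have := cast2 i'
      have : (0 : ℚ) ≤ m := Nat.cast_nonneg _
      exfalso
      linarith
    · have := cast3 i'
      have : (0 : ℚ) ≤ m := Nat.cast_nonneg _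
      exfalso
      linarith
    · have : (10 : ℚ) + m = 10 + m' := by linarith
      rw [nat_ext this]

include h1 h2 b1 b2 in
theorem sd_he {u v : Tk Q r} (h : sd o1 o2 u v) : he (gh hr φ ψ u) (gh hr φ ψ v) := by
  rcases u with ⟨k, q⟩ | i | i | i <;> rcases v with ⟨k', q'⟩ | j | j | j
  · rcases k with _ | _ | t <;> rcases k' with _ | _ | t' <;> try exact h.elim
    · exact ⟨(not_lt_phi h1 _ _).1 h.1, h.2⟩
    · exact ⟨(not_lt_phi h2 _ _).1 h.1, h.2⟩
    · exact ⟨by rw [h.1], by rw [h.1], h.2⟩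
  · rcases k with _ | _ | t <;> try exact h.elim
    refine ⟨?_, rfl⟩
    have := b1 q
    have := cast2 j
    show φ q ≤ 2 + (j : ℕ)
    linarith
  · rcases k with _ | _ | t <;> exact h.elim
  · rcases k with _ | _ | t <;> exact h.elim
  · rcases k' with _ | _ | t <;> exact h.elim
  · exact h.elim
  · exact h.elim
  · exact h.elim
  · rcases k' with _ | _ | t <;> try exact h.elim
    refine ⟨?_, ?_⟩
    · have := b2 q'
      have := cast3 i
      show ψ q' ≤ 2 + (i : ℕ)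
      linarith
    · show r - 1 + 1 = r
      omega
  · exact h.elim
  · exact h.elim
  · exact h.elim
  · rcases k' with _ | _ | t <;> exact h.elim
  · exact h.elim
  · exact h.elim
  · exact h.elim

include h1 h2 b1 b2 hφ hψ in
theorem he_sd {u v : Tk Q r} (h : he (gh hr φ ψ u) (gh hr φ ψ v)) : sd o1 o2 u v := by
  rcases hu : gh hr φ ψ u with x | x | ⟨x, y, t⟩ <;>
    rcases hv : gh hr φ ψ v with x' | x' | ⟨x', y', t'⟩ <;> rw [hu, hv] at h <;>
    try exact h.elim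
  · -- a row and a point
    obtain ⟨h3, h4⟩ := h
    rcases row_case hr hu with ⟨q, rfl, e1⟩ | ⟨m, rfl, e1⟩ <;>
      rcases pt_case hr hv with ⟨q', rfl, e1', e2'⟩ | ⟨i', rfl, e1', e2', e3'⟩ |
        ⟨i', rfl, e1', e2', e3'⟩ | ⟨m', rfl, e1', e2', e3'⟩
    · rw [e1, e1'] at h3
      exact ⟨(not_lt_phi h1 _ _).2 h3, h4⟩
    · trivial
    · have := b1 q
      have := cast3 i'
      exfalso
      linarith
    · have := b1 q
      have : (0 : ℚ) ≤ m' := Nat.cast_nonneg _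
      exfalso
      linarith
    · have := b1 q'
      have : (0 : ℚ) ≤ m := Nat.cast_nonneg _
      exfalso
      linarith
    · have := cast2 i'
      have : (0 : ℚ) ≤ m := Nat.cast_nonneg _
      exfalso
      linarith
    · have := cast3 i'
      have : (0 : ℚ) ≤ m := Nat.cast_nonneg _
      exfalso
      linarith
    · have : (0 : ℚ) ≤ m := Nat.cast_nonneg _
      have : (0 : ℚ) ≤ m' := Nat.cast_nonneg _
      exfalso
      linarith
  · -- a point and a column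
    obtain ⟨h3, h4⟩ := h
    rcases col_case hr hv with ⟨q, rfl, e1⟩ | ⟨m, rfl, e1⟩ <;>
      rcases pt_case hr hu with ⟨q', rfl, e1', e2'⟩ | ⟨i', rfl, e1', e2', e3'⟩ |
        ⟨i', rfl, e1', e2', e3'⟩ | ⟨m', rfl, e1', e2', e3'⟩
    · rw [e1, e2'] at h3
      exact ⟨(not_lt_phi h2 _ _).2 h3, h4⟩
    · have := b2 q
      have := cast2 i'
      exfalso
      linarith
    · trivial
    · have := b2 q
      have : (0 : ℚ) ≤ m' := Nat.cast_nonneg _
      exfalso
      linarith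
    · have := b2 q'
      have : (0 : ℚ) ≤ m := Nat.cast_nonneg _
      exfalso
      linarith
    · have := cast2 i'
      have : (0 : ℚ) ≤ m := Nat.cast_nonneg _
      exfalso
      linarith
    · have := cast3 i'
      have : (0 : ℚ) ≤ m := Nat.cast_nonneg _
      exfalso
      linarith
    · have : (0 : ℚ) ≤ m := Nat.cast_nonneg _
      have : (0 : ℚ) ≤ m' := Nat.cast_nonneg _
      exfalso
      linarith
  · -- two points
    obtain ⟨h3, h4, h5⟩ := h
    rcases pt_case hr hu with ⟨q, rfl, e1, e2⟩ | ⟨i, rfl, e1, e2, e3⟩ | ⟨i, rfl, e1, e2, e3⟩ |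
      ⟨m, rfl, e1, e2, e3⟩ <;>
      rcases pt_case hr hv with ⟨q', rfl, e1', e2'⟩ | ⟨i', rfl, e1', e2', e3'⟩ |
        ⟨i', rfl, e1', e2', e3'⟩ | ⟨m', rfl, e1', e2', e3'⟩
    · rw [e1, e1'] at h3
      exact ⟨hφ h3, h5⟩
    · have := b1 q
      have := cast2 i'
      exfalso
      linarith
    · have := b1 q
      have := cast3 i'
      exfalso
      linarith
    · have := b1 q
      have : (0 : ℚ) ≤ m' := Nat.cast_nonneg _
      exfalso
      linarith
    · have := b1 q'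
      have := cast2 i
      exfalso
      linarith
    · omega
    · have := cast2 i
      have := cast3 i'
      exfalso
      linarith
    · have := cast2 i
      have : (0 : ℚ) ≤ m' := Nat.cast_nonneg _
      exfalso
      linarith
    · have := b1 q'
      have := cast3 i
      exfalso
      linarith
    · have := cast2 i'
      have := cast3 i
      exfalso
      linarith
    · omega
    · have := cast3 i
      have : (0 : ℚ) ≤ m' := Nat.cast_nonneg _
      exfalso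
      linarith
    · have := b1 q'
      have : (0 : ℚ) ≤ m := Nat.cast_nonneg _
      exfalso
      linarith
    · have := cast2 i'
      have : (0 : ℚ) ≤ m := Nat.cast_nonneg _
      exfalso
      linarith
    · have := cast3 i'
      have : (0 : ℚ) ≤ m := Nat.cast_nonneg _
      exfalso
      linarith
    · have : (10 : ℚ) + m = 10 + m' := by linarith
      have := nat_ext this
      subst this
      omega

end half

section grid

variable (φ ψ : Q → ℚ)

/-- the places in the comparability grid -/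
def gg : Tk Q 1 → ℚ × ℚ
  | .p Kd.a q => (φ q, -1 - φ q)
  | .p Kd.b q => (-1 - ψ q, ψ q)
  | .p (Kd.c _) q => (φ q, ψ q)
  | .e i => (2 + (i : ℕ), -(1 + (i : ℕ)) / 3)
  | .f j => (-(1 + (j : ℕ)) / 4, 2 + (j : ℕ))
  | .z m => (10 + m, -10 - m)

variable {φ ψ} (hφ : Function.Injective φ) (hψ : Function.Injective ψ)
  (h1 : ∀ q q', o1 q q' ↔ φ q < φ q') (h2 : ∀ q q', o2 q q' ↔ ψ q < ψ q')
  (b1 : ∀ q, 0 < φ q ∧ φ q < 1) (b2 : ∀ q, 0 < ψ q ∧ ψ q < 1)

theorem cg_symm {u v : ℚ × ℚ} (h : cg u v) : cg v u := by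
  rcases h with h | h | h
  · exact Or.inl h.symm
  · exact Or.inr (Or.inl h.symm)
  · by_cases h3 : u.1 = v.1
    · exact Or.inl h3.symm
    by_cases h4 : u.2 = v.2
    · exact Or.inr (Or.inl h4.symm)
    refine Or.inr (Or.inr ?_)
    rcases lt_or_gt_of_ne h3 with h5 | h5 <;> rcases lt_or_gt_of_ne h4 with h6 | h6
    · exact iff_of_false (not_lt.2 h5.le) (not_lt.2 h6.le)
    · exact absurd (h.1 h5) (not_lt.2 h6.le)
    · exact absurd (h.2 h6) (not_lt.2 h5.le)
    · exact iff_of_true h5 h6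

theorem cg_lt {x y x' y' : ℚ} (h : x < x') (h' : y < y') : cg (x, y) (x', y') :=
  Or.inr (Or.inr (iff_of_true h h'))

theorem cg_gt {x y x' y' : ℚ} (h : x < x') (h' : y' < y) : ¬ cg (x, y) (x', y') := by
  rintro (h3 | h3 | h3)
  · exact absurd h3 h.ne
  · exact absurd h3 h'.ne'
  · exact absurd (h3.1 h) (not_lt.2 h'.le)

theorem cg_gt' {x y x' y' : ℚ} (h : x' < x) (h' : y < y') : ¬ cg (x, y) (x', y') := by
  rintro (h3 | h3 | h3)
  · exact absurd h3 h.ne'
  · exact absurd h3 h'.ne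
  · exact absurd (h3.2 h') (not_lt.2 h.le)

include hφ hψ h1 h2 b1 b2 in
theorem gg_iff {u v : Tk Q 1} (h : u ≠ v) :
    SY true o1 o2 u v ↔ cg (gg φ ψ u) (gg φ ψ v) := by
  have sym : ∀ u v : Tk Q 1, (SY true o1 o2 u v ↔ cg (gg φ ψ u) (gg φ ψ v)) →
      (SY true o1 o2 v u ↔ cg (gg φ ψ v) (gg φ ψ u)) := by
    intro u v h
    constructor
    · exact fun h3 => cg_symm (h.1 (sy_symm h3))
    · exact fun h3 => sy_symm (h.2 (cg_symm h3))
  have f1 : ∀ t : Fin 1, (t : ℕ) = 0 := fun t => by omega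
  have haa : ∀ q q', q ≠ q' → ¬ cg (gg φ ψ (.p Kd.a q)) (gg φ ψ (.p Kd.a q')) := by
    intro q q' hne
    rcases lt_or_gt_of_ne (hφ.ne hne) with h3 | h3
    · exact cg_gt h3 (by linarith)
    · exact cg_gt' h3 (by linarith)
  have hab : ∀ q q', ¬ cg (gg φ ψ (.p Kd.a q)) (gg φ ψ (.p Kd.b q')) := by
    intro q q'
    have := b1 q
    have := b2 q'
    exact cg_gt' (by linarith) (by linarith)
  have hac : ∀ q t q', (SY true o1 o2 (.p Kd.a q : Tk Q 1) (.p (Kd.c t) q') ↔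
      cg (gg φ ψ (.p Kd.a q)) (gg φ ψ (.p (Kd.c t) q'))) := by
    intro q t q'
    have := b1 q
    have := b2 q'
    show (¬ o1 q' q ∧ (t : ℕ) = 0) ↔ cg (φ q, -1 - φ q) (φ q', ψ q')
    rw [not_lt_phi h1]
    rcases lt_trichotomy (φ q) (φ q') with h3 | h3 | h3
    · exact iff_of_true ⟨h3.le, f1 t⟩ (cg_lt h3 (by linarith))
    · exact iff_of_true ⟨h3.le, f1 t⟩ (Or.inl h3)
    · exact iff_of_false (fun h4 => absurd h4.1 (not_le.2 h3)) (cg_gt' h3 (by linarith))
  have hae : ∀ q i, cg (gg φ ψ (.p Kd.a q)) (gg φ ψ (.e i)) := by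
    intro q i
    have := b1 q
    have := cast2 i
    exact cg_lt (by linarith) (by linarith)
  have haf : ∀ q i, ¬ cg (gg φ ψ (.p Kd.a q)) (gg φ ψ (.f i)) := by
    intro q i
    have := b1 q
    have := cast3 i
    exact cg_gt' (by linarith) (by linarith)
  have haz : ∀ q m, ¬ cg (gg φ ψ (.p Kd.a q)) (gg φ ψ (.z m)) := by
    intro q m
    have := b1 q
    have : (0 : ℚ) ≤ m := Nat.cast_nonneg _
    exact cg_gt (by linarith) (by linarith)
  have hbb : ∀ q q', q ≠ q' → ¬ cg (gg φ ψ (.p Kd.b q)) (gg φ ψ (.p Kd.b q')) := by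
    intro q q' hne
    rcases lt_or_gt_of_ne (hψ.ne hne) with h3 | h3
    · exact cg_gt' (by linarith) h3
    · exact cg_gt (by linarith) h3
  have hbc : ∀ q t q', (SY true o1 o2 (.p Kd.b q : Tk Q 1) (.p (Kd.c t) q') ↔
      cg (gg φ ψ (.p Kd.b q)) (gg φ ψ (.p (Kd.c t) q'))) := by
    intro q t q'
    have := b2 q
    have := b1 q'
    show (¬ o2 q' q ∧ (t : ℕ) + 1 = 1) ↔ cg (-1 - ψ q, ψ q) (φ q', ψ q')
    rw [not_lt_phi h2]
    have f2 : (t : ℕ) + 1 = 1 := by have := f1 t; omega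
    rcases lt_trichotomy (ψ q) (ψ q') with h3 | h3 | h3
    · exact iff_of_true ⟨h3.le, f2⟩ (cg_lt (by linarith) h3)
    · exact iff_of_true ⟨h3.le, f2⟩ (Or.inr (Or.inl h3))
    · exact iff_of_false (fun h4 => absurd h4.1 (not_le.2 h3)) (cg_gt (by linarith) h3)
  have hbe : ∀ q i, ¬ cg (gg φ ψ (.p Kd.b q)) (gg φ ψ (.e i)) := by
    intro q i
    have := b2 q
    have := cast2 i
    exact cg_gt (by linarith) (by linarith)
  have hbf : ∀ q i, cg (gg φ ψ (.p Kd.b q)) (gg φ ψ (.f i)) := by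
    intro q i
    have := b2 q
    have := cast3 i
    exact cg_lt (by linarith) (by linarith)
  have hbz : ∀ q m, ¬ cg (gg φ ψ (.p Kd.b q)) (gg φ ψ (.z m)) := by
    intro q m
    have := b2 q
    have : (0 : ℚ) ≤ m := Nat.cast_nonneg _
    exact cg_gt (by linarith) (by linarith)
  have hcc : ∀ t q t' q', q ≠ q' →
      (SY true o1 o2 (.p (Kd.c t) q : Tk Q 1) (.p (Kd.c t') q') ↔
      cg (gg φ ψ (.p (Kd.c t) q)) (gg φ ψ (.p (Kd.c t') q'))) := by
    intro t q t' q' hne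
    show ((q = q' ∧ _) ∨ (true = true ∧ ((o1 q q' ∧ o2 q q') ∨ (o1 q' q ∧ o2 q' q)))) ↔
      cg (φ q, ψ q) (φ q', ψ q')
    rw [h1, h1, h2, h2]
    rcases lt_or_gt_of_ne (hφ.ne hne) with h3 | h3 <;>
      rcases lt_or_gt_of_ne (hψ.ne hne) with h4 | h4
    · exact iff_of_true (Or.inr ⟨rfl, Or.inl ⟨h3, h4⟩⟩) (cg_lt h3 h4)
    · refine iff_of_false ?_ (cg_gt h3 h4)
      rintro (⟨h5, -⟩ | ⟨-, ⟨-, h5⟩ | ⟨h5, -⟩⟩)
      · exact hne h5
      · exact lt_asymm h4 h5
      · exact lt_asymm h3 h5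
    · refine iff_of_false ?_ (cg_gt' h3 h4)
      rintro (⟨h5, -⟩ | ⟨-, ⟨h5, -⟩ | ⟨-, h5⟩⟩)
      · exact hne h5
      · exact lt_asymm h3 h5
      · exact lt_asymm h4 h5
    · exact iff_of_true (Or.inr ⟨rfl, Or.inr ⟨h3, h4⟩⟩) (cg_symm (cg_lt h3 h4))
  have hce : ∀ t q i, ¬ cg (gg φ ψ (.p (Kd.c t) q)) (gg φ ψ (.e i)) := by
    intro t q i
    have := b1 q
    have := b2 q
    have := cast2 i
    exact cg_gt (by linarith) (by linarith)
  have hcf : ∀ t q i, ¬ cg (gg φ ψ (.p (Kd.c t) q)) (gg φ ψ (.f i)) := by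
    intro t q i
    have := b1 q
    have := b2 q
    have := cast3 i
    exact cg_gt' (by linarith) (by linarith)
  have hcz : ∀ t q m, ¬ cg (gg φ ψ (.p (Kd.c t) q)) (gg φ ψ (.z m)) := by
    intro t q m
    have := b1 q
    have := b2 q
    have : (0 : ℚ) ≤ m := Nat.cast_nonneg _
    exact cg_gt (by linarith) (by linarith)
  have hee : ∀ i j : Fin 2, i ≠ j → ¬ cg (gg φ ψ (.e i)) (gg φ ψ (.e j)) := by
    intro i j hne
    have h3 : ((i : ℕ) : ℚ) ≠ (j : ℕ) := fun e => hne (Fin.ext (by exact_mod_cast e))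
    rcases lt_or_gt_of_ne h3 with h3 | h3
    · exact cg_gt (by linarith) (by linarith)
    · exact cg_gt' (by linarith) (by linarith)
  have hef : ∀ i j, ¬ cg (gg φ ψ (.e i)) (gg φ ψ (.f j)) := by
    intro i j
    have := cast2 i
    have := cast3 j
    exact cg_gt' (by linarith) (by linarith)
  have hez : ∀ i m, ¬ cg (gg φ ψ (.e i)) (gg φ ψ (.z m)) := by
    intro i m
    have := cast2 i
    have : (0 : ℚ) ≤ m := Nat.cast_nonneg _
    exact cg_gt (by linarith) (by linarith)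
  have hff : ∀ i j : Fin 3, i ≠ j → ¬ cg (gg φ ψ (.f i)) (gg φ ψ (.f j)) := by
    intro i j hne
    have h3 : ((i : ℕ) : ℚ) ≠ (j : ℕ) := fun e => hne (Fin.ext (by exact_mod_cast e))
    rcases lt_or_gt_of_ne h3 with h3 | h3
    · exact cg_gt' (by linarith) (by linarith)
    · exact cg_gt (by linarith) (by linarith)
  have hfz : ∀ i m, ¬ cg (gg φ ψ (.f i)) (gg φ ψ (.z m)) := by
    intro i m
    have := cast3 i
    have : (0 : ℚ) ≤ m := Nat.cast_nonneg _
    exact cg_gt (by linarith) (by linarith)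
  have hzz : ∀ i j : ℕ, i ≠ j → ¬ cg (gg φ ψ (.z i)) (gg φ ψ (.z j)) := by
    intro i j hne
    have h3 : (i : ℚ) ≠ j := fun e => hne (by exact_mod_cast e)
    rcases lt_or_gt_of_ne h3 with h3 | h3
    · exact cg_gt (by linarith) (by linarith)
    · exact cg_gt' (by linarith) (by linarith)
  have nt : ∀ {p : Prop}, ¬ p → (False ↔ p) := fun h => iff_of_false id h
  rcases u with ⟨_ | _ | t, q⟩ | i | i | i <;> rcases v with ⟨_ | _ | t', q'⟩ | j | j | j
  · exact nt (haa q q' fun e => h (by rw [e]))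
  · exact nt (hab q q')
  · exact hac q t' q'
  · exact iff_of_true rfl (hae q j)
  · exact iff_of_false (fun h => by cases h) (haf q j)
  · exact nt (haz q j)
  · exact sym _ _ (nt (hab q' q))
  · exact nt (hbb q q' fun e => h (by rw [e]))
  · exact hbc q t' q'
  · exact iff_of_false (fun h => by cases h) (hbe q j)
  · exact iff_of_true rfl (hbf q j)
  · exact nt (hbz q j)
  · exact sym _ _ (hac q' t q)
  · exact sym _ _ (hbc q' t q)
  · have e0 : t = t' := Fin.ext (by rw [f1, f1])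
    exact hcc t q t' q' fun e => h (by rw [e, e0])
  · exact iff_of_false (fun h => by cases h) (hce t q j)
  · exact iff_of_false (fun h => by cases h) (hcf t q j)
  · exact nt (hcz t q j)
  · exact sym _ _ (iff_of_true rfl (hae q' i))
  · exact sym _ _ (iff_of_false (fun h => by cases h) (hbe q' i))
  · exact sym _ _ (iff_of_false (fun h => by cases h) (hce t' q' i))
  · exact nt (hee i j fun e => h (by rw [e]))
  · exact nt (hef i j)
  · exact nt (hez i j)
  · exact sym _ _ (iff_of_false (fun h => by cases h) (haf q' i))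
  · exact sym _ _ (iff_of_true rfl (hbf q' i))
  · exact sym _ _ (iff_of_false (fun h => by cases h) (hcf t' q' i))
  · exact sym _ _ (nt (hef j i))
  · exact nt (hff i j fun e => h (by rw [e]))
  · exact nt (hfz i j)
  · exact sym _ _ (nt (haz q' i))
  · exact sym _ _ (nt (hbz q' i))
  · exact sym _ _ (nt (hcz t' q' i))
  · exact sym _ _ (nt (hez j i))
  · exact sym _ _ (nt (hfz j i))
  · exact nt (hzz i j fun e => h (by rw [e]))

include hφ hψ h1 h2 b1 b2 in
theorem gg_inj : Function.Injective (gg φ ψ : Tk Q 1 → ℚ × ℚ) := by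
  intro u v huv
  by_contra hne
  have h3 : SY true o1 o2 u v := (gg_iff hφ hψ h1 h2 b1 b2 hne).2 (Or.inl (by rw [huv]))
  have key : ∀ u v : Tk Q 1, gg φ ψ u = gg φ ψ v → SY true o1 o2 u v →
      (∃ q, u = .p Kd.a q) ∨ (∃ q, u = .p Kd.b q) → False := by
    rintro u v huv h3 (⟨q, rfl⟩ | ⟨q, rfl⟩)
    · have := b1 q
      rcases v with ⟨_ | _ | t', q'⟩ | j | j | j
      · exact h3
      · exact h3
      · have := b2 q'
        have h4 : -1 - φ q = ψ q' := congrArg Prod.snd huv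
        linarith
      · have := cast2 j
        have h4 : φ q = 2 + (j : ℕ) := congrArg Prod.fst huv
        linarith
      · cases h3
      · exact h3
    · have := b2 q
      rcases v with ⟨_ | _ | t', q'⟩ | j | j | j
      · exact h3
      · exact h3
      · have := b1 q'
        have h4 : -1 - ψ q = φ q' := congrArg Prod.fst huv
        linarith
      · cases h3
      · have := cast3 j
        have h4 : ψ q = 2 + (j : ℕ) := congrArg Prod.snd huv
        linarith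
      · exact h3
  rcases u with ⟨_ | _ | t, q⟩ | i | i | i
  · exact key _ _ huv h3 (Or.inl ⟨q, rfl⟩)
  · exact key _ _ huv h3 (Or.inr ⟨q, rfl⟩)
  · rcases v with ⟨_ | _ | t', q'⟩ | j | j | j
    · exact key _ _ huv.symm (sy_symm h3) (Or.inl ⟨q', rfl⟩)
    · exact key _ _ huv.symm (sy_symm h3) (Or.inr ⟨q', rfl⟩)
    · have h4 : φ q = φ q' := congrArg Prod.fst huv
      have h5 : t = t' := Fin.ext (by omega)
      exact hne (by rw [hφ h4, h5])
    · cases h3
    · cases h3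
    · exact h3
  · rcases v with ⟨_ | _ | t', q'⟩ | j | j | j
    · exact key _ _ huv.symm (sy_symm h3) (Or.inl ⟨q', rfl⟩)
    · cases h3
    · cases h3
    · exact h3
    · exact h3
    · exact h3
  · rcases v with ⟨_ | _ | t', q'⟩ | j | j | j
    · cases h3
    · exact key _ _ huv.symm (sy_symm h3) (Or.inr ⟨q', rfl⟩)
    · cases h3
    · exact h3
    · exact h3
    · exact h3
  · rcases v with ⟨_ | _ | t', q'⟩ | j | j | j <;> exact h3

end grid

/-- the flipped half graph crossing -/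
def Hc (r : ℕ) (f : ℕ → ℕ → Prop) (u v : Vx ℚ r) : Prop :=
  u ≠ v ∧ ¬ ((he u v ∨ he v u) ↔ f u.lay v.lay)

open FirstOrder FirstOrder.Language in
open Pool.Agent.W889.FO.StE in
/-- induced subgraphs of the half graph crossings -/
theorem WS.half {f : ℕ → ℕ → Prop} {S : LG.Structure ℕ} (h : WS r false f S) (hr : 1 ≤ r) :
    ∃ g : ℕ → Vx ℚ r, Function.Injective g ∧ ∀ u v, gd S u v ↔ Hc r f (g u) (g v) := by
  obtain ⟨Q, _, _, o1, o2, d1, d2, e, he'⟩ := h.std hr (by simp)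
  obtain ⟨φ, hφ, h1, b1⟩ := ex_phi d1
  obtain ⟨ψ, hψ, h2, b2⟩ := ex_phi d2
  have hinj := gh_inj (r := r) hr hφ hψ b1 b2
  refine ⟨fun u => gh hr φ ψ (e u), hinj.comp e.injective, fun u v => ?_⟩
  rw [he']
  unfold FC.flip Hc
  have h3 : SY false o1 o2 (e u) (e v) ↔ (he (gh hr φ ψ (e u)) (gh hr φ ψ (e v)) ∨
      he (gh hr φ ψ (e v)) (gh hr φ ψ (e u))) := by
    rw [sy_sd]
    exact or_congr ⟨sd_he hr h1 h2 b1 b2, he_sd hr hφ hψ h1 h2 b1 b2⟩
      ⟨sd_he hr h1 h2 b1 b2, he_sd hr hφ hψ h1 h2 b1 b2⟩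
  rw [← h3, gh_lay, gh_lay, hinj.ne_iff]
  unfold flT
  by_cases huv : e u = e v
  · have := sy_irr (s := false) (o2 := o2) d1 (e v)
    rw [huv]
    tauto
  · tauto

open FirstOrder FirstOrder.Language in
open Pool.Agent.W889.FO.StE in
/-- induced subgraphs of the comparability grid -/
theorem WS.grid {S : LG.Structure ℕ} (h : WS 1 true (fun _ _ => False) S) :
    ∃ g : ℕ → ℚ × ℚ, Function.Injective g ∧ ∀ u v, gd S u v ↔ g u ≠ g v ∧ cg (g u) (g v) := by
  obtain ⟨Q, _, _, o1, o2, d1, d2, e, he'⟩ := h.std le_rfl (fun _ => rfl)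
  obtain ⟨φ, hφ, h1, b1⟩ := ex_phi d1
  obtain ⟨ψ, hψ, h2, b2⟩ := ex_phi d2
  have hinj := gg_inj (o1 := o1) (o2 := o2) hφ hψ h1 h2 b1 b2
  refine ⟨fun u => gg φ ψ (e u), hinj.comp e.injective, fun u v => ?_⟩
  rw [he']
  unfold FC.flip flT
  rw [hinj.ne_iff]
  by_cases huv : e u = e v
  · have := sy_irr (s := true) (o2 := o2) d1 (e v)
    rw [huv]
    tauto
  · rw [← gg_iff hφ hψ h1 h2 b1 b2 huv]
    tauto

end Pool.Agent.TH783.MD
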