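import Pool.Agent.TH783.MD.Rep2
import Pool.Agent.TH783.FC.Itp

set_option autoImplicit false

/-! Definability. -/

namespace Pool.Agent.TH783.MD

open FirstOrder FirstOrder.Language
open Pool.Agent.TH783.FC (Tw Iz Mt Fl Un flip FD1 FD2 fd2_gd)
open Pool.Agent.W889.FO
open Pool.Agent.W889.FO.StA (FD.all1 FD.ex1)
open Pool.Agent.W889.FO.StE (LG gd siso_gd)
open Pool.Agent.W889.VC (DLO)

instance (r : ℕ) : Finite (Kd r) := by
  refine Finite.of_surjective (α := Option (Option (Fin r))) (fun x => match x with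
    | none => Kd.a
    | some none => Kd.b
    | some (some t) => Kd.c t) ?_
  rintro (_ | _ | t)
  · exact ⟨none, rfl⟩
  · exact ⟨some none, rfl⟩
  · exact ⟨some (some t), rfl⟩

variable {L : FirstOrder.Language.{0, 0}} {V : L.Structure ℕ → Prop}
  {R Q : L.Structure ℕ → ℕ → ℕ → Prop} {P : L.Structure ℕ → ℕ → Prop}

theorem fd_nz (h : FD2 V R) : FD1 V (fun S => Nz (R S)) := fun _ i =>
  FD.ex1 (P := fun S v w => R S (v i) w) (h _ _ _)

theorem fd_es (h : FD2 V R) : FD1 V (fun S => Es (R S)) := fun _ i =>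
  (fd_nz h _ _).and <|
    FD.ex1 (P := fun S v w => Tw (R S) (v i) w ∧ ∀ w', Tw (R S) (v i) w' → w' = w) <|
    (h.tw _ _ _).and <|
    FD.all1 (P := fun S v w' => Tw (R S) (v (Sum.inl i)) w' → w' = v (Sum.inr ())) <|
    (h.tw _ _ _).imp (FD.eq _ _)

theorem fd_fs (h : FD2 V R) : FD1 V (fun S => Fs (R S)) := fun _ i =>
  (fd_nz h _ _).and <|
    FD.ex1 (P := fun S v w => ∃ w', w ≠ w' ∧ Tw (R S) (v i) w ∧ Tw (R S) (v i) w') <|
    FD.ex1 (P := fun S v w' => v (Sum.inr ()) ≠ w' ∧ Tw (R S) (v (Sum.inl i)) (v (Sum.inr ())) ∧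
      Tw (R S) (v (Sum.inl i)) w') <|
    (FD.eq _ _).not.and <| (h.tw _ _ _).and (h.tw _ _ _)

theorem fd_rw (h : FD2 V R) : FD1 V (fun S => Rw (R S)) := fun _ i =>
  FD.ex1 (P := fun S v w => Es (R S) w ∧ R S w (v i)) <| (fd_es h _ _).and (h _ _ _)

theorem fd_cw (h : FD2 V R) : FD1 V (fun S => Cw (R S)) := fun _ i =>
  FD.ex1 (P := fun S v w => Fs (R S) w ∧ R S w (v i)) <| (fd_fs h _ _).and (h _ _ _)

theorem fd_dm (h : FD2 V R) : FD1 V (fun S => Dm (R S)) := fun _ i =>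
  (fd_es h _ _).not.and <|
    FD.ex1 (P := fun S v w => Rw (R S) w ∧ R S w (v i)) <| (fd_rw h _ _).and (h _ _ _)

theorem fd_pt (h : FD2 V R) (n : ℕ) : FD2 V (fun S => Pt (R S) n) ∧
    FD2 V (fun S => Pt (R S) (n + 1)) := by
  induction n with
  | zero =>
    refine ⟨fun _ i j => FD.eq j i, fun _ i j => ?_⟩
    exact (h _ i j).and <| (fd_rw h _ j).not.and (fd_cw h _ j).not
  | succ n ih =>
    refine ⟨ih.2, fun _ i j => ?_⟩
    exact FD.ex1 (P := fun S v w => ∃ w', Pt (R S) n (v i) w' ∧ Pt (R S) (n + 1) (v i) w ∧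
        R S w (v j) ∧ v j ≠ w' ∧ ¬ Rw (R S) (v j) ∧ ¬ Cw (R S) (v j)) <|
      FD.ex1 (P := fun S v w' => Pt (R S) n (v (Sum.inl i)) w' ∧
        Pt (R S) (n + 1) (v (Sum.inl i)) (v (Sum.inr ())) ∧
        R S (v (Sum.inr ())) (v (Sum.inl j)) ∧ v (Sum.inl j) ≠ w' ∧
        ¬ Rw (R S) (v (Sum.inl j)) ∧ ¬ Cw (R S) (v (Sum.inl j))) <|
      (ih.1 _ _ _).and <| (ih.2 _ _ _).and <| (h _ _ _).and <| (FD.eq _ _).not.and <|
      (fd_rw h _ _).not.and (fd_cw h _ _).not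

theorem fd_o1 (h : FD2 V R) : FD2 V (fun S => O1 (R S)) := fun _ i j =>
  FD.ex1 (P := fun S v w => Rw (R S) w ∧ R S w (v j) ∧ ¬ R S w (v i)) <|
    (fd_rw h _ _).and <| (h _ _ _).and (h _ _ _).not

theorem fd_o2 (h : FD2 V R) (r : ℕ) : FD2 V (fun S => O2 r (R S)) := fun _ i j => by
  have hp := (fd_pt h (r - 1)).1
  refine (FD.ex (β := Fin 3) (P := fun S v (b : Fin 3 → ℕ) => Cw (R S) (b 0) ∧
    Pt (R S) (r - 1) (v i) (b 1) ∧ Pt (R S) (r - 1) (v j) (b 2) ∧ R S (b 0) (b 2) ∧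
    ¬ R S (b 0) (b 1)) <| (fd_cw h _ _).and <| (hp _ _ _).and <| (hp _ _ _).and <|
    (h _ _ _).and (h _ _ _).not).congr fun S _ v => ?_
  constructor
  · rintro ⟨b, h1⟩
    exact ⟨b 0, b 1, b 2, h1⟩
  · rintro ⟨u, y, y', h1⟩
    exact ⟨![u, y, y'], h1⟩

theorem fd_at (h : FD2 V R) {r : ℕ} (k : Kd r) : FD2 V (fun S => At (R S) k) := by
  rcases k with _ | _ | t
  · exact fun _ i j => (fd_dm h _ j).and <| (fd_rw h _ i).and <| (h _ i j).and <|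
      FD.all1 (P := fun S v w => Rw (R S) w → R S w (v j) → ∀ y, R S (v i) y → R S w y) <|
      (fd_rw h _ _).imp <| (h _ _ _).imp <|
      FD.all1 (P := fun S v y => R S (v (Sum.inl i)) y → R S (v (Sum.inr ())) y) <|
      (h _ _ _).imp (h _ _ _)
  · have hp := (fd_pt h (r - 1)).1
    exact fun _ i j => (fd_dm h _ j).and <|
      FD.ex1 (P := fun S v y => Pt (R S) (r - 1) (v j) y ∧ Cw (R S) (v i) ∧ R S (v i) y ∧
        ∀ w, Cw (R S) w → R S w y → ∀ x, R S (v i) x → R S w x) <|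
      (hp _ _ _).and <| (fd_cw h _ _).and <| (h _ _ _).and <|
      FD.all1 (P := fun S v w => Cw (R S) w → R S w (v (Sum.inr ())) →
        ∀ x, R S (v (Sum.inl i)) x → R S w x) <|
      (fd_cw h _ _).imp <| (h _ _ _).imp <|
      FD.all1 (P := fun S v x => R S (v (Sum.inl (Sum.inl i))) x → R S (v (Sum.inr ())) x) <|
      (h _ _ _).imp (h _ _ _)
  · exact fun _ i j => (fd_dm h _ j).and ((fd_pt h t).1 _ j i)

theorem fd_en (h : FD2 V R) (s : Bool) (r : ℕ) : FD2 V (fun S => En s r (R S)) := fun _ i j =>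
  (h _ i j).or <| (FD.const _).and <| (fd_dm h _ i).and <| (fd_dm h _ j).and <|
    ((fd_o1 h _ i j).and (fd_o2 h r _ i j)).or ((fd_o1 h _ j i).and (fd_o2 h r _ j i))

theorem fd_de (h : FD2 V R) (s : Bool) : FD2 V (fun S => De s (R S)) := fun _ i j =>
  (h _ i j).and <| (FD.const _).imp <| (fd_rw h _ i).or <| (fd_cw h _ i).or <|
    (fd_rw h _ j).or (fd_cw h _ j)

theorem fd_cc (h : FD2 V R) {r : ℕ} (k k' : Kd r) :
    FD2 V (fun S => cc false (O1 (R S)) (O2 r (R S)) k k') := by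
  rcases k with _ | _ | t <;> rcases k' with _ | _ | t'
  · exact fun _ i j => FD.const False
  · exact fun _ i j => FD.const False
  · exact fun _ i j => (fd_o1 h _ j i).not.and (FD.const _)
  · exact fun _ i j => FD.const False
  · exact fun _ i j => FD.const False
  · exact fun _ i j => (fd_o2 h r _ j i).not.and (FD.const _)
  · exact fun _ i j => (fd_o1 h _ i j).not.and (FD.const _)
  · exact fun _ i j => (fd_o2 h r _ i j).not.and (FD.const _)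
  · exact fun _ i j => ((FD.eq i j).and (FD.const _)).or <| (FD.const (false = true)).and <|
      ((fd_o1 h _ i j).and (fd_o2 h r _ i j)).or ((fd_o1 h _ j i).and (fd_o2 h r _ j i))

theorem fd_ly (h : FD2 V R) (r a : ℕ) : FD1 V (fun S u => Ly r (R S) u a) := fun _ i =>
  (FD.fin' (ι := Kd r) fun k => (FD.ex1 (P := fun S v x => At (R S) k (v i) x)
    (fd_at h k _ _ _)).and (FD.const _)).or <|
  ((fd_es h _ _).and (FD.const _)).or ((fd_fs h _ _).and (FD.const _))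

theorem fd_tt (h : FD2 V R) (h' : FD2 V Q) (r : ℕ) (f : ℕ → ℕ → Prop) (a : ℕ) :
    FD1 V (fun S u => TT r f (R S) (Q S) u a) := fun _ i =>
  FD.fin fun b : Fin (r + 2) =>
    FD.all1 (P := fun S v w => Ly r (R S) w b → (Q S (v i) w ↔ f a b)) <|
    (fd_ly h r b _ _).imp ((h' _ _ _).iff (FD.const _))

theorem fd_la (h : FD2 V R) (h' : FD2 V Q) (r : ℕ) (f : ℕ → ℕ → Prop) (a : ℕ) :
    FD1 V (fun S u => La r f (R S) (Q S) u a) := fun _ _ =>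
  (fd_ly h r a _ _).or ((fd_nz h _ _).not.and (fd_tt h h' r f a _ _))

/-- dense linear orders on definable sets -/
theorem ax_dlo (hP : FD1 (fun _ => True) P) (h : FD2 (fun _ => True) R) :
    Ax (fun S : L.Structure ℕ => DLO (fun x y : {x // P S x} => R S x y)) := by
  have h1 : Ax (fun S : L.Structure ℕ => ∀ v : Fin 1 → ℕ, P S (v 0) → ¬ R S (v 0) (v 0)) :=
    Ax.ofn 1 <| (hP _ _).imp (h _ _ _).not
  have h2 : Ax (fun S : L.Structure ℕ => ∀ v : Fin 3 → ℕ, P S (v 0) → P S (v 1) → P S (v 2) →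
      R S (v 0) (v 1) → R S (v 1) (v 2) → R S (v 0) (v 2)) :=
    Ax.ofn 3 <| (hP _ _).imp <| (hP _ _).imp <| (hP _ _).imp <| (h _ _ _).imp <|
      (h _ _ _).imp (h _ _ _)
  have h3 : Ax (fun S : L.Structure ℕ => ∀ v : Fin 2 → ℕ, P S (v 0) → P S (v 1) → v 0 ≠ v 1 →
      R S (v 0) (v 1) ∨ R S (v 1) (v 0)) :=
    Ax.ofn 2 <| (hP _ _).imp <| (hP _ _).imp <| (FD.eq _ _).not.imp <| (h _ _ _).or (h _ _ _)
  have h4 : Ax (fun S : L.Structure ℕ => ∀ v : Fin 2 → ℕ, P S (v 0) → P S (v 1) →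
      R S (v 0) (v 1) → ∃ w, P S w ∧ R S (v 0) w ∧ R S w (v 1)) :=
    Ax.ofn 2 <| (hP _ _).imp <| (hP _ _).imp <| (h _ _ _).imp <|
      FD.ex1 (P := fun S v w => P S w ∧ R S (v 0) w ∧ R S w (v 1)) <|
      (hP _ _).and <| (h _ _ _).and (h _ _ _)
  have h5 : Ax (fun S : L.Structure ℕ => ∀ v : Fin 1 → ℕ, P S (v 0) →
      ∃ w, P S w ∧ R S (v 0) w) :=
    Ax.ofn 1 <| (hP _ _).imp <|
      FD.ex1 (P := fun S v w => P S w ∧ R S (v 0) w) <| (hP _ _).and (h _ _ _)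
  have h6 : Ax (fun S : L.Structure ℕ => ∀ v : Fin 1 → ℕ, P S (v 0) →
      ∃ w, P S w ∧ R S w (v 0)) :=
    Ax.ofn 1 <| (hP _ _).imp <|
      FD.ex1 (P := fun S v w => P S w ∧ R S w (v 0)) <| (hP _ _).and (h _ _ _)
  refine (h1.and (h2.and (h3.and (h4.and (h5.and h6))))).congr fun S => ?_
  constructor
  · rintro ⟨k1, k2, k3, k4, k5, k6⟩
    refine ⟨fun a => k1 (fun _ => a) a.2, fun a b c => k2 ![a, b, c] a.2 b.2 c.2,
      fun a b hab => k3 ![a, b] a.2 b.2 fun e => hab (Subtype.ext e), fun a b hab => ?_,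
      fun a => ?_, fun a => ?_⟩
    · obtain ⟨w, m1, m2, m3⟩ := k4 ![a, b] a.2 b.2 hab
      exact ⟨⟨w, m1⟩, m2, m3⟩
    · obtain ⟨w, m1, m2⟩ := k5 (fun _ => a) a.2
      exact ⟨⟨w, m1⟩, m2⟩
    · obtain ⟨w, m1, m2⟩ := k6 (fun _ => a) a.2
      exact ⟨⟨w, m1⟩, m2⟩
  · rintro ⟨k1, k2, k3, k4, k5, k6⟩
    refine ⟨fun v h0 => k1 ⟨_, h0⟩, fun v m1 m2 m3 => k2 ⟨_, m1⟩ ⟨_, m2⟩ ⟨_, m3⟩,
      fun v m1 m2 m3 => k3 ⟨_, m1⟩ ⟨_, m2⟩ fun e => m3 (congrArg Subtype.val e),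
      fun v m1 m2 m3 => ?_, fun v m1 => ?_, fun v m1 => ?_⟩
    · obtain ⟨w, m4, m5⟩ := k4 ⟨_, m1⟩ ⟨_, m2⟩ m3
      exact ⟨w, w.2, m4, m5⟩
    · obtain ⟨w, m4⟩ := k5 ⟨_, m1⟩
      exact ⟨w, w.2, m4⟩
    · obtain ⟨w, m4⟩ := k6 ⟨_, m1⟩
      exact ⟨w, w.2, m4⟩

/-- exact numbers of elements -/
theorem ax_num (hP : FD1 (fun _ => True) P) (n : ℕ) : Ax (fun S : L.Structure ℕ =>
    ∃ p : Fin n → ℕ, Function.Injective p ∧ ∀ u, P S u ↔ ∃ i, p i = u) :=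
  Ax.of <| FD.ex (P := fun S _ (p : Fin n → ℕ) => Function.Injective p ∧
      ∀ u, P S u ↔ ∃ i, p i = u) <| (FD.inj _).and <|
    FD.all1 (P := fun S v u => P S u ↔ ∃ i : Fin n, v (Sum.inr i) = u) <|
    (hP _ _).iff (FD.fin' fun _ => FD.eq _ _)

theorem ax_w2 (h : FD2 (fun _ => True) R) (h' : FD2 (fun _ => True) Q) (r : ℕ)
    (f : ℕ → ℕ → Prop) : Ax (fun S : L.Structure ℕ => W2 r f (R S) (Q S)) := by
  have a1 : Ax (fun S : L.Structure ℕ => ∀ v : Fin 1 → ℕ, ¬ R S (v 0) (v 0)) :=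
    Ax.ofn 1 (h _ _ _).not
  have a2 : Ax (fun S : L.Structure ℕ => ∀ v : Fin 2 → ℕ, R S (v 0) (v 1) →
      R S (v 1) (v 0)) := Ax.ofn 2 ((h _ _ _).imp (h _ _ _))
  have a3 := ax_dlo (P := fun S => Dm (R S)) (R := fun S => O1 (R S)) (fd_dm h) (fd_o1 h)
  have a4 := ax_dlo (P := fun S => Dm (R S)) (R := fun S => O2 r (R S)) (fd_dm h) (fd_o2 h r)
  have a5 : Ax (fun S : L.Structure ℕ => ∀ m : ℕ, ∃ X : Fin m → ℕ,
      Function.Injective X ∧ ∀ i, Dm (R S) (X i)) := Ax.all fun m => Ax.of <|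
    FD.ex (P := fun S _ X => Function.Injective X ∧ ∀ i, Dm (R S) (X i)) <|
    (FD.inj _).and (FD.fin fun _ => fd_dm h _ _)
  have a6 : Ax (fun S : L.Structure ℕ => ∀ k : Kd r, ∀ v : Fin 1 → ℕ, Dm (R S) (v 0) →
      ∃ u, At (R S) k u (v 0)) := Ax.all fun k => Ax.ofn 1 <| (fd_dm h _ _).imp <|
    FD.ex1 (P := fun S v u => At (R S) k u (v 0)) (fd_at h k _ _ _)
  have a7 : Ax (fun S : L.Structure ℕ => ∀ k : Kd r, ∀ v : Fin 3 → ℕ, At (R S) k (v 1) (v 0) →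
      At (R S) k (v 2) (v 0) → v 1 = v 2) := Ax.all fun k => Ax.ofn 3 <|
    (fd_at h k _ _ _).imp <| (fd_at h k _ _ _).imp (FD.eq _ _)
  have a8 : Ax (fun S : L.Structure ℕ => ∀ k k' : Kd r, ∀ v : Fin 3 → ℕ,
      At (R S) k (v 0) (v 1) → At (R S) k' (v 0) (v 2) → k = k' ∧ v 1 = v 2) :=
    Ax.all fun k => Ax.all fun k' => Ax.ofn 3 <|
    (fd_at h k _ _ _).imp <| (fd_at h k' _ _ _).imp <| (FD.const _).and (FD.eq _ _)
  have a9 : Ax (fun S : L.Structure ℕ => ∀ k : Kd r, ∀ v : Fin 2 → ℕ, At (R S) k (v 0) (v 1) →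
      Nz (R S) (v 0)) := Ax.all fun k => Ax.ofn 2 <| (fd_at h k _ _ _).imp (fd_nz h _ _)
  have a10 := ax_num (P := fun S => Es (R S)) (fd_es h) 2
  have a11 := ax_num (P := fun S => Fs (R S)) (fd_fs h) 3
  have a12 : Ax (fun S : L.Structure ℕ => ∀ k : Kd r, ∀ v : Fin 2 → ℕ, At (R S) k (v 0) (v 1) →
      ¬ Es (R S) (v 0) ∧ ¬ Fs (R S) (v 0)) := Ax.all fun k => Ax.ofn 2 <|
    (fd_at h k _ _ _).imp <| (fd_es h _ _).not.and (fd_fs h _ _).not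
  have a13 : Ax (fun S : L.Structure ℕ => ∀ k k' : Kd r, ∀ v : Fin 4 → ℕ,
      At (R S) k (v 0) (v 2) → At (R S) k' (v 1) (v 3) →
      (R S (v 0) (v 1) ↔ cc false (O1 (R S)) (O2 r (R S)) k k' (v 2) (v 3))) :=
    Ax.all fun k => Ax.all fun k' => Ax.ofn 4 <|
    (fd_at h k _ _ _).imp <| (fd_at h k' _ _ _).imp <| (h _ _ _).iff (fd_cc h k k' _ _ _)
  have a14 : Ax (fun S : L.Structure ℕ => ∀ k : Kd r, ∀ v : Fin 3 → ℕ,
      Es (R S) (v 0) → At (R S) k (v 1) (v 2) → (R S (v 0) (v 1) ↔ k = Kd.a)) :=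
    Ax.all fun k => Ax.ofn 3 <|
    (fd_es h _ _).imp <| (fd_at h k _ _ _).imp <| (h _ _ _).iff (FD.const _)
  have a15 : Ax (fun S : L.Structure ℕ => ∀ k : Kd r, ∀ v : Fin 3 → ℕ,
      Fs (R S) (v 0) → At (R S) k (v 1) (v 2) → (R S (v 0) (v 1) ↔ k = Kd.b)) :=
    Ax.all fun k => Ax.ofn 3 <|
    (fd_fs h _ _).imp <| (fd_at h k _ _ _).imp <| (h _ _ _).iff (FD.const _)
  have a16 : Ax (fun S : L.Structure ℕ => ∀ v : Fin 2 → ℕ,
      Es (R S) (v 0) ∨ Fs (R S) (v 0) → Es (R S) (v 1) ∨ Fs (R S) (v 1) →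
      ¬ R S (v 0) (v 1)) := Ax.ofn 2 <|
    ((fd_es h _ _).or (fd_fs h _ _)).imp <| ((fd_es h _ _).or (fd_fs h _ _)).imp (h _ _ _).not
  have a17 : Ax (fun S : L.Structure ℕ => ∀ v : Fin 1 → ℕ, Nz (R S) (v 0) →
      Es (R S) (v 0) ∨ Fs (R S) (v 0) ∨ ∃ (k : Kd r) (x : ℕ), At (R S) k (v 0) x) :=
    Ax.ofn 1 <| (fd_nz h _ _).imp <| (fd_es h _ _).or <| (fd_fs h _ _).or <|
    FD.fin' fun k => FD.ex1 (P := fun S v x => At (R S) k (v 0) x) (fd_at h k _ _ _)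
  have a18 : Ax (fun S : L.Structure ℕ => ∀ v : Fin 1 → ℕ, ∃ a : Fin (r + 2),
      La r f (R S) (Q S) (v 0) a) := Ax.ofn 1 <| FD.fin' fun a => fd_la h h' r f a _ _
  have a19 : Ax (fun S : L.Structure ℕ => ∀ a b : Fin (r + 2), ∀ v : Fin 2 → ℕ,
      La r f (R S) (Q S) (v 0) a → La r f (R S) (Q S) (v 1) b →
      (Q S (v 0) (v 1) ↔ v 0 ≠ v 1 ∧ f a b)) := Ax.all fun a => Ax.all fun b => Ax.ofn 2 <|
    (fd_la h h' r f a _ _).imp <| (fd_la h h' r f b _ _).imp <|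
    (h' _ _ _).iff ((FD.eq _ _).not.and (FD.const _))
  have a20 : Ax (fun S : L.Structure ℕ => ∀ a : Fin (r + 2), ∀ m : ℕ, ∃ X : Fin m → ℕ,
      Function.Injective X ∧ ∀ i, ¬ Nz (R S) (X i) ∧ TT r f (R S) (Q S) (X i) a) :=
    Ax.all fun a => Ax.all fun m => Ax.of <|
    FD.ex (P := fun S _ X => Function.Injective X ∧ ∀ i, ¬ Nz (R S) (X i) ∧
      TT r f (R S) (Q S) (X i) a) <|
    (FD.inj _).and (FD.fin fun _ => (fd_nz h _ _).not.and (fd_tt h h' r f a _ _))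
  refine (a1.and <| a2.and <| a3.and <| a4.and <| a5.and <| a6.and <| a7.and <| a8.and <|
    a9.and <| a10.and <| a11.and <| a12.and <| a13.and <| a14.and <| a15.and <| a16.and <|
    a17.and <| a18.and <| a19.and a20).congr fun S => ?_
  constructor
  · rintro ⟨b1, b2, b3, b4, b5, b6, b7, b8, b9, b10, b11, b12, b13, b14, b15, b16, b17, b18,
      b19, b20⟩
    exact ⟨fun u => b1 fun _ => u, fun u v => b2 ![u, v], b3, b4, b5, fun k x => b6 k fun _ => x,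
      fun k x u u' => b7 k ![x, u, u'], fun k k' u x x' => b8 k k' ![u, x, x'],
      fun k u x => b9 k ![u, x], b10, b11, fun k u x => b12 k ![u, x],
      fun k k' u u' x x' => b13 k k' ![u, u', x, x'], fun k u v x => b14 k ![u, v, x],
      fun k u v x => b15 k ![u, v, x], fun u v => b16 ![u, v], fun u => b17 fun _ => u,
      fun u => b18 fun _ => u, fun a b u v => b19 a b ![u, v], b20⟩
  · rintro ⟨b1, b2, b3, b4, b5, b6, b7, b8, b9, b10, b11, b12, b13, b14, b15, b16, b17, b18,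
      b19, b20⟩
    exact ⟨fun v => b1 _, fun v => b2 _ _, b3, b4, b5, fun k v => b6 k _,
      fun k v => b7 k _ _ _, fun k k' v => b8 k k' _ _ _, fun k v => b9 k _ _, b10, b11,
      fun k v => b12 k _ _, fun k k' v => b13 k k' _ _ _ _, fun k v => b14 k _ _ _,
      fun k v => b15 k _ _ _, fun v => b16 _ _, fun v => b17 _, fun v => b18 _,
      fun a b v => b19 a b _ _, b20⟩

end Pool.Agent.TH783.MD
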