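import Pool.Agent.TH783.MD.Brg
import Pool.Agent.TH783.IS.Main

set_option autoImplicit false

/-! Graphs without a given induced subgraph. -/

namespace Pool.Agent.TH783.MD

open Pool.Agent.TH783.MD.Pat

/-- If `H` is not an induced subgraph of the path with four vertices then some flipped star
crossings of length one do not contain `H`. -/
theorem free_of {V : Type} {H : SimpleGraph V} (hH : ¬ Nonempty (H ↪g SimpleGraph.pathGraph 4)) :
    ∃ (F : Fin (1 + 2) → Fin (1 + 2) → Prop) (hF : ∀ a b, F a b → F b a),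
      ∀ R, InducedIn (crossing ℚ 1 Kind.star F hF) R → InducedFree H R := by
  let A : Vertex ℚ 1 → Prop := fun v => match v with
    | .pt _ _ _ => True
    | _ => False
  by_cases h1 : IS.Tr H
  · obtain ⟨a, b, c, hab, hbc, hac⟩ := h1
    refine ⟨fun _ _ => False, fun _ _ h => h, ?_⟩
    rintro R ⟨g, k1, k2⟩
    refine ⟨fun u hu => ((k2 u u).1 hu).1 rfl, fun u v huv => (k2 v u).2 ((k2 u v).1 huv).symm,
      ?_⟩
    rintro ⟨p, -, hp⟩
    have hA : ∀ u v, (crossing ℚ 1 Kind.star (fun _ _ => False) (fun _ _ h => h)).Adj u v →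
        (A u ↔ ¬ A v) := by
      rintro (i | j | ⟨i, j, t⟩) (i' | j' | ⟨i', j', t'⟩) ⟨h1, h2⟩
      all_goals simp [Vertex.Edge] at h2
      all_goals simp [A]
    have e1 := hA _ _ ((k2 _ _).1 ((hp a b).1 hab))
    have e2 := hA _ _ ((k2 _ _).1 ((hp b c).1 hbc))
    have e3 := hA _ _ ((k2 _ _).1 ((hp a c).1 hac))
    tauto
  by_cases h2 : IS.Co H
  · obtain ⟨a, b, c, nab, nbc, nac, hab, hbc, hac⟩ := h2
    refine ⟨fun _ _ => True, fun _ _ h => h, ?_⟩
    rintro R ⟨g, k1, k2⟩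
    refine ⟨fun u hu => ((k2 u u).1 hu).1 rfl, fun u v huv => (k2 v u).2 ((k2 u v).1 huv).symm,
      ?_⟩
    rintro ⟨p, hpi, hp⟩
    have hA : ∀ u v, u ≠ v →
        ¬ (crossing ℚ 1 Kind.star (fun _ _ => True) (fun _ _ h => h)).Adj u v →
        (A u ↔ ¬ A v) := by
      intro u v huv h3
      have h4 : Vertex.Edge Kind.star u v ∨ Vertex.Edge Kind.star v u := by
        by_contra h5
        exact h3 ⟨huv, fun h6 => h5 (h6.2 trivial)⟩
      clear h3 huv
      rcases u with i | j | ⟨i, j, t⟩ <;> rcases v with i' | j' | ⟨i', j', t'⟩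
      all_goals simp [Vertex.Edge] at h4
      all_goals simp [A]
    have e1 := hA _ _ (fun e => nab (hpi (k1 e))) fun h5 => hab ((hp a b).2 ((k2 _ _).2 h5))
    have e2 := hA _ _ (fun e => nbc (hpi (k1 e))) fun h5 => hbc ((hp b c).2 ((k2 _ _).2 h5))
    have e3 := hA _ _ (fun e => nac (hpi (k1 e))) fun h5 => hac ((hp a c).2 ((k2 _ _).2 h5))
    tauto
  by_cases h3 : IS.Sp H
  · exact absurd (IS.emb h1 h2 h3) hH
  · refine ⟨fun a b => a = 1 ∧ b = 1, fun _ _ h => ⟨h.2, h.1⟩, ?_⟩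
    rintro R ⟨g, k1, k2⟩
    refine ⟨fun u hu => ((k2 u u).1 hu).1 rfl, fun u v huv => (k2 v u).2 ((k2 u v).1 huv).symm,
      ?_⟩
    rintro ⟨p, hpi, hp⟩
    have hA1 : ∀ x y : Vertex ℚ 1, A x → A y → x ≠ y →
        (crossing ℚ 1 Kind.star (fun a b => a = 1 ∧ b = 1) (fun _ _ h => ⟨h.2, h.1⟩)).Adj x y := by
      rintro (i | j | ⟨i, j, t⟩) (i' | j' | ⟨i', j', t'⟩) hu hv hne
      all_goals first | exact hu.elim | exact hv.elim | skip
      refine ⟨hne, fun h5 => ?_⟩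
      have h6 := h5.2 ⟨by ext; simp [Vertex.layer], by ext; simp [Vertex.layer]⟩
      simp [Vertex.Edge] at h6
    have hA2 : ∀ x y : Vertex ℚ 1, ¬ A x → ¬ A y →
        ¬ (crossing ℚ 1 Kind.star (fun a b => a = 1 ∧ b = 1)
          (fun _ _ h => ⟨h.2, h.1⟩)).Adj x y := by
      rintro (i | j | ⟨i, j, t⟩) (i' | j' | ⟨i', j', t'⟩) hu hv ⟨h6, h7⟩
      all_goals first
        | exact hu trivial
        | exact hv trivial
        | exact h7 (by simp [Vertex.Edge, Vertex.layer])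
    refine h3 ⟨fun v => A (g (p v)), fun u v hu hv huv => ?_, fun u v hu hv huv => ?_⟩
    · exact (hp u v).2 ((k2 _ _).2 (hA1 _ _ hu hv fun e => huv (hpi (k1 e))))
    · exact hA2 _ _ hu hv ((k2 _ _).1 ((hp u v).1 huv))

end Pool.Agent.TH783.MD
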