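import Mathlib

set_option autoImplicit false

/-!
The patterns of monadic dependence (Dreier, Mählmann, Toruńczyk 2024): flipped star, clique and
half-graph crossings of length `r`, and comparability grids.
-/

namespace Pool.Agent.TH783.MD.Pat

/-- The three kinds of crossings. -/
inductive Kind : Type
  | star : Kind
  | clique : Kind
  | half : Kind

/-- The relation between the index of a row (or column) and the index of a path: equality for star
and clique crossings, the order for half-graph crossings. -/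
def Kind.rel {ι : Type} [LinearOrder ι] : Kind → ι → ι → Prop
  | Kind.star, i, j => i = j
  | Kind.clique, i, j => i = j
  | Kind.half, i, j => i ≤ j

/-- The vertices of the crossings of length `r` over the index set `ι`: the rows, the columns, and
for all `i`, `j` the `r` vertices `pt i j t` of the path with index `(i, j)`. -/
inductive Vertex (ι : Type) (r : ℕ) : Type
  | row (i : ι) : Vertex ι r
  | col (j : ι) : Vertex ι r
  | pt (i j : ι) (t : Fin r) : Vertex ι r

/-- The layers: the rows, the vertices at place `t` of their path for `t < r`, and the columns. -/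
def Vertex.layer {ι : Type} {r : ℕ} : Vertex ι r → Fin (r + 2)
  | Vertex.row _ => 0
  | Vertex.pt _ _ t => ⟨t + 1, by omega⟩
  | Vertex.col _ => Fin.last (r + 1)

/-- The edges. The vertices `pt i j 0, …, pt i j (r-1)` form a path. In the star crossing row `i` is
joined to the first vertices of the paths `(i, j)` and column `j` to the last vertices of the
paths `(i, j)`. The clique crossing has, moreover, an edge between any two neighbours of the same
row and between any two neighbours of the same column. In the half-graph crossing row `i` is joined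
to the first vertices of the paths `(i', j)` with `i ≤ i'`, and column `j` to the last vertices of
the paths `(i, j')` with `j ≤ j'`. -/
def Vertex.Edge {ι : Type} [LinearOrder ι] {r : ℕ} (K : Kind) : Vertex ι r → Vertex ι r → Prop
  | Vertex.row i, Vertex.pt i' _ t => K.rel i i' ∧ (t : ℕ) = 0
  | Vertex.pt i j t, Vertex.pt i' j' t' => (i = i' ∧ j = j' ∧ (t' : ℕ) = t + 1) ∨
      (K = Kind.clique ∧ ((i = i' ∧ (t : ℕ) = 0 ∧ (t' : ℕ) = 0) ∨
        (j = j' ∧ (t : ℕ) + 1 = r ∧ (t' : ℕ) + 1 = r)))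
  | Vertex.pt _ j t, Vertex.col j' => K.rel j' j ∧ (t : ℕ) + 1 = r
  | _, _ => False

/-- The flipped crossing of length `r` over `ι`: the adjacency of two distinct vertices is inverted
if the flip `F` relates their layers. -/
def crossing (ι : Type) [LinearOrder ι] (r : ℕ) (K : Kind) (F : Fin (r + 2) → Fin (r + 2) → Prop)
    (hF : ∀ a b, F a b → F b a) : SimpleGraph (Vertex ι r) where
  Adj u v := u ≠ v ∧ ¬ ((Vertex.Edge K u v ∨ Vertex.Edge K v u) ↔ F u.layer v.layer)
  symm := ⟨fun u v ⟨h1, h2⟩ => ⟨h1.symm, fun h3 => h2 (by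
    rw [or_comm, h3]
    exact ⟨hF _ _, hF _ _⟩)⟩⟩
  loopless := ⟨fun u h => h.1 rfl⟩

/-- The comparability grid over `ι`: distinct pairs `(i, j)`, `(i', j')` are adjacent if `i = i'`
or `j = j'` or (`i < i'` if and only if `j < j'`). -/
def comparabilityGrid (ι : Type) [LinearOrder ι] : SimpleGraph (ι × ι) where
  Adj u v := u ≠ v ∧ (u.1 = v.1 ∨ u.2 = v.2 ∨ (u.1 < v.1 ↔ u.2 < v.2))
  symm := ⟨fun u v ⟨h1, h2⟩ => ⟨h1.symm, by
    rcases h2 with h2 | h2 | h2
    · exact Or.inl h2.symm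
    · exact Or.inr (Or.inl h2.symm)
    · by_cases h3 : u.1 = v.1
      · exact Or.inl h3.symm
      by_cases h4 : u.2 = v.2
      · exact Or.inr (Or.inl h4.symm)
      refine Or.inr (Or.inr ?_)
      rcases lt_or_gt_of_ne h3 with h5 | h5 <;> rcases lt_or_gt_of_ne h4 with h6 | h6
      · exact iff_of_false (not_lt.2 h5.le) (not_lt.2 h6.le)
      · exact absurd (h2.1 h5) (not_lt.2 h6.le)
      · exact absurd (h2.2 h6) (not_lt.2 h5.le)
      · exact iff_of_true h5 h6⟩⟩
  loopless := ⟨fun u h => h.1 rfl⟩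

/-- The relation `R` is isomorphic to an induced subgraph of the graph `G`. -/
def InducedIn {V : Type} (G : SimpleGraph V) (R : ℕ → ℕ → Prop) : Prop :=
  ∃ g : ℕ → V, Function.Injective g ∧ ∀ u v, R u v ↔ G.Adj (g u) (g v)

/-- The relation `R` is a simple graph all of whose finite induced subgraphs belong to the class
`𝒞` of finite graphs. -/
def LocallyIn (𝒞 : (n : ℕ) → SimpleGraph (Fin n) → Prop) (R : ℕ → ℕ → Prop) : Prop :=
  (∀ u, ¬ R u u) ∧ (∀ u v, R u v → R v u) ∧ ∀ (n : ℕ) (G : SimpleGraph (Fin n)),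
    (∃ g : Fin n → ℕ, Function.Injective g ∧ ∀ u v, G.Adj u v ↔ R (g u) (g v)) → 𝒞 n G

/-- The class `𝒞` of finite graphs is hereditary (closed under isomorphism and under induced
subgraphs). -/
def Hereditary (𝒞 : (n : ℕ) → SimpleGraph (Fin n) → Prop) : Prop :=
  ∀ (m n : ℕ) (G : SimpleGraph (Fin m)) (G' : SimpleGraph (Fin n)),
    Nonempty (G ↪g G') → 𝒞 n G' → 𝒞 m G

/-- The class `𝒞` contains the (finite) graph `G`. -/
def Contains (𝒞 : (n : ℕ) → SimpleGraph (Fin n) → Prop) {V : Type} (G : SimpleGraph V) : Prop :=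
  ∀ (m : ℕ) (G' : SimpleGraph (Fin m)), Nonempty (G' ≃g G) → 𝒞 m G'

/-- For some `r ≥ 1` and all `N`, the class `𝒞` contains a flipped star, clique or half-graph
crossing of length `r` over `N` indices, or the comparability grid over `N` indices. By a theorem of
Dreier, Mählmann and Toruńczyk, a hereditary class has this property if and only if it is not
monadically dependent. -/
def HasPatterns (𝒞 : (n : ℕ) → SimpleGraph (Fin n) → Prop) : Prop :=
  ∃ r : ℕ, 1 ≤ r ∧ ∀ N : ℕ,
    (∃ (K : Kind) (F : Fin (r + 2) → Fin (r + 2) → Prop) (hF : ∀ a b, F a b → F b a),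
      Contains 𝒞 (crossing (Fin N) r K F hF)) ∨
    Contains 𝒞 (comparabilityGrid (Fin N))

/-- The relation `R` is a simple graph without induced subgraph `H`. -/
def InducedFree {V : Type} (H : SimpleGraph V) (R : ℕ → ℕ → Prop) : Prop :=
  (∀ u, ¬ R u u) ∧ (∀ u v, R u v → R v u) ∧
    ¬ ∃ g : V → ℕ, Function.Injective g ∧ ∀ u v, H.Adj u v ↔ R (g u) (g v)

/-! ### Auxiliary facts -/

section maps

variable {ι κ : Type} [LinearOrder ι] [LinearOrder κ] (e : ι ↪o κ) {r : ℕ}

/-- change of the index set -/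
def up : Vertex ι r → Vertex κ r
  | .row i => .row (e i)
  | .col j => .col (e j)
  | .pt i j t => .pt (e i) (e j) t

theorem up_inj : Function.Injective (up e : Vertex ι r → Vertex κ r) := by
  rintro (i | j | ⟨i, j, t⟩) (i' | j' | ⟨i', j', t'⟩) h
  all_goals
    simp only [up, Vertex.row.injEq, Vertex.col.injEq, Vertex.pt.injEq, reduceCtorEq,
      e.injective.eq_iff] at h ⊢
  all_goals exact h

theorem up_layer (v : Vertex ι r) : (up e v).layer = v.layer := by
  rcases v with i | j | ⟨i, j, t⟩ <;> rfl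

theorem rel_up (K : Kind) (i j : ι) : K.rel (e i) (e j) ↔ K.rel i j := by
  cases K
  · exact e.injective.eq_iff
  · exact e.injective.eq_iff
  · exact e.le_iff_le

theorem up_edge (K : Kind) (u v : Vertex ι r) :
    Vertex.Edge K (up e u) (up e v) ↔ Vertex.Edge K u v := by
  rcases u with i | j | ⟨i, j, t⟩ <;> rcases v with i' | j' | ⟨i', j', t'⟩
  all_goals simp only [up, Vertex.Edge, rel_up, e.injective.eq_iff]

theorem up_adj (K : Kind) (F : Fin (r + 2) → Fin (r + 2) → Prop) (hF : ∀ a b, F a b → F b a)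
    (u v : Vertex ι r) :
    (crossing κ r K F hF).Adj (up e u) (up e v) ↔ (crossing ι r K F hF).Adj u v := by
  show up e u ≠ up e v ∧ ¬ ((Vertex.Edge K (up e u) (up e v) ∨ Vertex.Edge K (up e v) (up e u)) ↔
    F (up e u).layer (up e v).layer) ↔
    u ≠ v ∧ ¬ ((Vertex.Edge K u v ∨ Vertex.Edge K v u) ↔ F u.layer v.layer)
  rw [(up_inj e).ne_iff, up_edge, up_edge, up_layer, up_layer]

/-- change of the index set -/
def upg (u : ι × ι) : κ × κ := (e u.1, e u.2)

theorem upg_inj : Function.Injective (upg e : ι × ι → κ × κ) := by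
  rintro ⟨i, j⟩ ⟨i', j'⟩ h
  simp only [upg, Prod.mk.injEq, e.injective.eq_iff] at h
  rw [h.1, h.2]

theorem upg_adj (u v : ι × ι) :
    (comparabilityGrid κ).Adj (upg e u) (upg e v) ↔ (comparabilityGrid ι).Adj u v := by
  show upg e u ≠ upg e v ∧ (e u.1 = e v.1 ∨ e u.2 = e v.2 ∨ (e u.1 < e v.1 ↔ e u.2 < e v.2)) ↔
    u ≠ v ∧ (u.1 = v.1 ∨ u.2 = v.2 ∨ (u.1 < v.1 ↔ u.2 < v.2))
  rw [(upg_inj e).ne_iff, e.injective.eq_iff, e.injective.eq_iff, e.lt_iff_lt, e.lt_iff_lt]

end maps

/-- the indices of a vertex -/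
def Vertex.idx {ι : Type} {r : ℕ} : Vertex ι r → List ι
  | .row i => [i]
  | .col j => [j]
  | .pt i j _ => [i, j]

variable {𝒞 : (n : ℕ) → SimpleGraph (Fin n) → Prop}

section loc

variable {ι : Type} [LinearOrder ι] {r : ℕ}

/-- finitely many vertices use finitely many indices -/
theorem fin_idx {n : ℕ} (g : Fin n → Vertex ι r) : ∃ (N : ℕ) (e : Fin N ↪o ι)
    (w : Fin n → Vertex (Fin N) r), ∀ i, up e (w i) = g i := by
  classical
  let s : Finset ι := Finset.univ.biUnion fun i => (g i).idx.toFinset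
  have hs : ∀ i, ∀ x ∈ (g i).idx, x ∈ s := fun i x hx =>
    Finset.mem_biUnion.2 ⟨i, Finset.mem_univ i, List.mem_toFinset.2 hx⟩
  let e := s.orderEmbOfFin rfl
  have he : ∀ x ∈ s, ∃ k, e k = x := fun x hx => by
    have : x ∈ Set.range (s.orderEmbOfFin rfl) := by
      rw [Finset.range_orderEmbOfFin]
      exact hx
    exact this
  refine ⟨s.card, e, ?_⟩
  have : ∀ i, ∃ w : Vertex (Fin s.card) r, up e w = g i := by
    intro i
    have h := hs i
    rcases hg : g i with a | a | ⟨a, b, t⟩ <;> rw [hg] at h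
    · obtain ⟨k, hk⟩ := he a (h a (by simp [Vertex.idx]))
      exact ⟨.row k, by show Vertex.row (e k) = _; rw [hk]⟩
    · obtain ⟨k, hk⟩ := he a (h a (by simp [Vertex.idx]))
      exact ⟨.col k, by show Vertex.col (e k) = _; rw [hk]⟩
    · obtain ⟨k, hk⟩ := he a (h a (by simp [Vertex.idx]))
      obtain ⟨l, hl⟩ := he b (h b (by simp [Vertex.idx]))
      exact ⟨.pt k l t, by show Vertex.pt (e k) (e l) t = _; rw [hk, hl]⟩
  choose w hw using this
  exact ⟨w, hw⟩

theorem fin_idxg {n : ℕ} (g : Fin n → ι × ι) : ∃ (N : ℕ) (e : Fin N ↪o ι)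
    (w : Fin n → Fin N × Fin N), ∀ i, upg e (w i) = g i := by
  classical
  let s : Finset ι := Finset.univ.biUnion fun i => {(g i).1, (g i).2}
  let e := s.orderEmbOfFin rfl
  have he : ∀ x ∈ s, ∃ k, e k = x := fun x hx => by
    have : x ∈ Set.range (s.orderEmbOfFin rfl) := by
      rw [Finset.range_orderEmbOfFin]
      exact hx
    exact this
  refine ⟨s.card, e, ?_⟩
  have : ∀ i, ∃ w : Fin s.card × Fin s.card, upg e w = g i := by
    intro i
    obtain ⟨k, hk⟩ := he (g i).1 (Finset.mem_biUnion.2 ⟨i, Finset.mem_univ i, by simp⟩)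
    obtain ⟨l, hl⟩ := he (g i).2 (Finset.mem_biUnion.2 ⟨i, Finset.mem_univ i, by simp⟩)
    exact ⟨(k, l), by show (e k, e l) = _; rw [hk, hl]⟩
  choose w hw using this
  exact ⟨w, hw⟩

instance finite_vertex (N : ℕ) : Finite (Vertex (Fin N) r) := by
  refine Finite.of_surjective (α := Fin N ⊕ Fin N ⊕ (Fin N × Fin N × Fin r))
    (fun x => match x with
      | .inl i => .row i
      | .inr (.inl j) => .col j
      | .inr (.inr (i, j, t)) => .pt i j t) ?_
  rintro (i | j | ⟨i, j, t⟩)
  · exact ⟨.inl i, rfl⟩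
  · exact ⟨.inr (.inl j), rfl⟩
  · exact ⟨.inr (.inr (i, j, t)), rfl⟩

/-- finite induced subgraphs of a graph in the class -/
theorem of_contains (h1 : Hereditary 𝒞) {V : Type} [Finite V] {G : SimpleGraph V}
    (h2 : Contains 𝒞 G) {n : ℕ} {G' : SimpleGraph (Fin n)} (w : Fin n → V)
    (hw : Function.Injective w) (h : ∀ i j, G'.Adj i j ↔ G.Adj (w i) (w j)) : 𝒞 n G' := by
  let e := Finite.equivFin V
  have h3 : 𝒞 _ (G.comap e.symm) := h2 _ _ ⟨⟨e.symm, Iff.rfl⟩⟩
  refine h1 _ _ G' _ ⟨⟨⟨fun i => e (w i), e.injective.comp hw⟩, ?_⟩⟩ h3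
  intro i j
  show G.Adj (e.symm (e (w i))) (e.symm (e (w j))) ↔ _
  rw [e.symm_apply_apply, e.symm_apply_apply, h]

/-- the graphs which are induced subgraphs of a crossing -/
theorem locally_crossing {K : Kind} {F : Fin (r + 2) → Fin (r + 2) → Prop}
    {hF : ∀ a b, F a b → F b a} (h1 : Hereditary 𝒞)
    (h2 : ∀ N, Contains 𝒞 (crossing (Fin N) r K F hF)) {R : ℕ → ℕ → Prop}
    (hR : InducedIn (crossing ι r K F hF) R) : LocallyIn 𝒞 R := by
  obtain ⟨g, k1, k2⟩ := hR
  refine ⟨fun u hu => ((k2 u u).1 hu).1 rfl, fun u v huv => (k2 v u).2 (((k2 u v).1 huv).symm),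
    fun n G hG => ?_⟩
  obtain ⟨g', k3, k4⟩ := hG
  obtain ⟨N, e, w, hw⟩ := fin_idx fun i => g (g' i)
  refine of_contains h1 (h2 N) w (fun i j hij => k3 (k1 ?_)) fun i j => ?_
  · rw [← hw i, ← hw j, hij]
  · rw [k4, k2, ← up_adj e, hw, hw]

theorem locally_grid (h1 : Hereditary 𝒞)
    (h2 : ∀ N, Contains 𝒞 (comparabilityGrid (Fin N))) {R : ℕ → ℕ → Prop}
    (hR : InducedIn (comparabilityGrid ι) R) : LocallyIn 𝒞 R := by
  obtain ⟨g, k1, k2⟩ := hR
  refine ⟨fun u hu => ((k2 u u).1 hu).1 rfl, fun u v huv => (k2 v u).2 (((k2 u v).1 huv).symm),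
    fun n G hG => ?_⟩
  obtain ⟨g', k3, k4⟩ := hG
  obtain ⟨N, e, w, hw⟩ := fin_idxg fun i => g (g' i)
  refine of_contains h1 (h2 N) w (fun i j hij => k3 (k1 ?_)) fun i j => ?_
  · rw [← hw i, ← hw j, hij]
  · rw [k4, k2, ← upg_adj e, hw, hw]

end loc

instance finite_kind : Finite Kind := by
  refine Finite.of_surjective (α := Option Bool) (fun x => match x with
    | none => Kind.star
    | some true => Kind.clique
    | some false => Kind.half) ?_
  rintro (_ | _ | _)
  · exact ⟨none, rfl⟩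
  · exact ⟨some true, rfl⟩
  · exact ⟨some false, rfl⟩

theorem contains_mono (h1 : Hereditary 𝒞) {V W : Type} [Finite W] {G : SimpleGraph V}
    {G' : SimpleGraph W} (h : Contains 𝒞 G') (w : V → W) (hw : Function.Injective w)
    (hw' : ∀ u v, G'.Adj (w u) (w v) ↔ G.Adj u v) : Contains 𝒞 G := by
  rintro m G'' ⟨i⟩
  refine of_contains h1 h (fun k => w (i k)) (hw.comp i.injective) fun a b => ?_
  rw [hw']
  exact i.map_adj_iff.symm

/-- one pattern occurs for all sizes -/
theorem HasPatterns.one (h1 : Hereditary 𝒞) (h : HasPatterns 𝒞) :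
    (∃ (r : ℕ) (K : Kind) (F : Fin (r + 2) → Fin (r + 2) → Prop) (hF : ∀ a b, F a b → F b a),
      1 ≤ r ∧ ∀ N, Contains 𝒞 (crossing (Fin N) r K F hF)) ∨
    ∀ N, Contains 𝒞 (comparabilityGrid (Fin N)) := by
  classical
  obtain ⟨r, hr, h⟩ := h
  by_contra hcon
  push Not at hcon
  obtain ⟨hc1, N0, hc2⟩ := hcon
  have hc1' : ∀ p : Kind × {F : Fin (r + 2) → Fin (r + 2) → Prop // ∀ a b, F a b → F b a},
      ∃ N, ¬ Contains 𝒞 (crossing (Fin N) r p.1 p.2.1 p.2.2) := fun p =>
    hc1 r p.1 p.2.1 p.2.2 hr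
  choose M hM using hc1'
  obtain ⟨B, hB⟩ : ∃ B, ∀ p, M p ≤ B := by
    have hfin : Finite (Kind × {F : Fin (r + 2) → Fin (r + 2) → Prop // ∀ a b, F a b → F b a}) :=
      inferInstance
    obtain ⟨B, hB⟩ := (Set.finite_range M).bddAbove
    exact ⟨B, fun p => hB ⟨p, rfl⟩⟩
  rcases h (max B N0) with ⟨K, F, hF, h2⟩ | h2
  · have hle : M (K, ⟨F, hF⟩) ≤ max B N0 := (hB _).trans (le_max_left _ _)
    refine hM (K, ⟨F, hF⟩) (contains_mono h1 h2 (up (Fin.castLEOrderEmb hle)) (up_inj _)
      fun u v => ?_)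
    exact up_adj _ K F hF u v
  · have hle : N0 ≤ max B N0 := le_max_right _ _
    exact hc2 (contains_mono h1 h2 (upg (Fin.castLEOrderEmb hle)) (upg_inj _) fun u v =>
      upg_adj _ u v)

end Pool.Agent.TH783.MD.Pat
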