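import Pool.Agent.TH783.MD.Std2
import Pool.Agent.TH783.FC.Mod

set_option autoImplicit false
set_option linter.unusedSectionVars false

/-! Graphs which look like standard graphs. -/

namespace Pool.Agent.TH783.MD

open Pool.Agent.TH783.FC (Tw Iz Mt Fl Un flip Good fib_equiv out)
open Pool.Agent.W889.VC (DLO)
open Pool.Agent.W889.SD (nth_equiv)

section gen

variable {T : Type}

/-- layers of the vertices that are not isolated -/
def Ly (r : ℕ) (X : T → T → Prop) (u : T) (a : ℕ) : Prop :=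
  (∃ k : Kd r, (∃ x, At X k u x) ∧ a = k.lay) ∨ (Es X u ∧ a = 1) ∨ (Fs X u ∧ a = r)

/-- the type of an isolated vertex -/
def TT (r : ℕ) (f : ℕ → ℕ → Prop) (X fl : T → T → Prop) (z : T) (a : ℕ) : Prop :=
  ∀ b : Fin (r + 2), ∀ v, Ly r X v b → (fl z v ↔ f a b)

/-- layers -/
def La (r : ℕ) (f : ℕ → ℕ → Prop) (X fl : T → T → Prop) (u : T) (a : ℕ) : Prop :=
  Ly r X u a ∨ (¬ Nz X u ∧ TT r f X fl u a)

/-- the axioms -/
structure W2 (r : ℕ) (f : ℕ → ℕ → Prop) (X fl : T → T → Prop) : Prop where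
  irr : ∀ u, ¬ X u u
  sy : ∀ u v, X u v → X v u
  d1 : DLO (fun x y : {x // Dm X x} => O1 X x y)
  d2 : DLO (fun x y : {x // Dm X x} => O2 r X x y)
  inf : ∀ m : ℕ, ∃ x : Fin m → T, Function.Injective x ∧ ∀ i, Dm X (x i)
  ex : ∀ (k : Kd r) (x : T), Dm X x → ∃ u, At X k u x
  uq : ∀ (k : Kd r) (x u u' : T), At X k u x → At X k u' x → u = u'
  ij : ∀ (k k' : Kd r) (u x x' : T), At X k u x → At X k' u x' → k = k' ∧ x = x'
  nz : ∀ (k : Kd r) (u x : T), At X k u x → Nz X u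
  nE : ∃ p : Fin 2 → T, Function.Injective p ∧ ∀ u, Es X u ↔ ∃ i, p i = u
  nF : ∃ p : Fin 3 → T, Function.Injective p ∧ ∀ u, Fs X u ↔ ∃ i, p i = u
  dj : ∀ (k : Kd r) (u x : T), At X k u x → ¬ Es X u ∧ ¬ Fs X u
  adj : ∀ (k k' : Kd r) (u u' x x' : T), At X k u x → At X k' u' x' →
    (X u u' ↔ cc false (O1 X) (O2 r X) k k' x x')
  eA : ∀ (k : Kd r) (u v x : T), Es X u → At X k v x → (X u v ↔ k = Kd.a)
  fB : ∀ (k : Kd r) (u v x : T), Fs X u → At X k v x → (X u v ↔ k = Kd.b)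
  ef : ∀ u v, Es X u ∨ Fs X u → Es X v ∨ Fs X v → ¬ X u v
  cov : ∀ u, Nz X u → Es X u ∨ Fs X u ∨ ∃ (k : Kd r) (x : T), At X k u x
  cv : ∀ u, ∃ a : Fin (r + 2), La r f X fl u a
  fli : ∀ a b : Fin (r + 2), ∀ u v, La r f X fl u a → La r f X fl v b →
    (fl u v ↔ u ≠ v ∧ f a b)
  mi : ∀ a : Fin (r + 2), ∀ m : ℕ, ∃ x : Fin m → T, Function.Injective x ∧
    ∀ i, ¬ Nz X (x i) ∧ TT r f X fl (x i) a

end gen

section std

variable {Q : Type} {r : ℕ} {s : Bool} {o1 o2 : Q → Q → Prop} {f : ℕ → ℕ → Prop}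

theorem infinite_of_dlo [Nonempty Q] (h : DLO o1) : Infinite Q := by
  by_contra hn
  rw [not_infinite_iff_finite] at hn
  obtain ⟨q0⟩ := ‹Nonempty Q›
  have : IsTrans Q o1 := ⟨h.trans⟩
  have : Std.Irrefl o1 := ⟨h.irrefl⟩
  have hwf : WellFounded (Function.swap o1) := Finite.wellFounded_of_trans_of_irrefl _
  obtain ⟨m, -, hm⟩ := hwf.has_min Set.univ ⟨q0, trivial⟩
  obtain ⟨p, hp⟩ := h.above m
  exact hm p trivial hp

variable [Nonempty Q] (hr : 1 ≤ r) (h1 : DLO o1) (h2 : DLO o2)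

include hr h1 h2 in
theorem ly_iff {u : Tk Q r} {a : ℕ} :
    Ly r (SY false o1 o2) u a ↔ a = u.lay ∧ ∀ m, u ≠ Tk.z m := by
  unfold Ly
  rw [es_iff hr h1 h2 (by simp), fs_iff hr h1 h2 (by simp)]
  constructor
  · rintro (⟨k, ⟨x, h⟩, rfl⟩ | ⟨⟨i, rfl⟩, rfl⟩ | ⟨⟨i, rfl⟩, rfl⟩)
    · obtain ⟨q, -, rfl⟩ := (at_iff hr h1 h2).1 h
      exact ⟨rfl, by simp⟩
    · exact ⟨rfl, by simp⟩
    · exact ⟨rfl, by simp⟩
  · rintro ⟨rfl, h⟩
    rcases u with ⟨k, q⟩ | i | i | i
    · exact Or.inl ⟨k, ⟨pt0 hr q, (at_iff hr h1 h2).2 ⟨q, rfl, rfl⟩⟩, rfl⟩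
    · exact Or.inr (Or.inl ⟨⟨i, rfl⟩, rfl⟩)
    · exact Or.inr (Or.inr ⟨⟨i, rfl⟩, rfl⟩)
    · exact absurd rfl (h i)

include hr in
/-- every layer contains a vertex that is not isolated -/
theorem ly_all (q : Q) (b : ℕ) (hb : b < r + 2) : ∃ u : Tk Q r, u.lay = b ∧ ∀ m, u ≠ Tk.z m := by
  by_cases h0 : b = 0
  · exact ⟨Tk.p Kd.a q, h0.symm, by simp⟩
  by_cases h1 : b = r + 1
  · exact ⟨Tk.p Kd.b q, h1.symm, by simp⟩
  have lt : b - 1 < r := by omega
  refine ⟨Tk.p (Kd.c ⟨b - 1, lt⟩) q, ?_, by simp⟩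
  show b - 1 + 1 = b
  omega

include hr h1 h2 in
theorem tt_iff {m : ℕ} {a : ℕ} : TT r f (SY false o1 o2) (flT f) (Tk.z m : Tk Q r) a ↔
    ∀ b : Fin (r + 2), f (m % (r + 2)) b ↔ f a b := by
  obtain ⟨q⟩ := ‹Nonempty Q›
  unfold TT
  constructor
  · intro h b
    obtain ⟨u, h3, h4⟩ := ly_all hr q b b.2
    have h5 := h b u ((ly_iff hr h1 h2).2 ⟨h3.symm, h4⟩)
    rw [← h5]
    unfold flT
    rw [h3]
    exact ⟨fun h => ⟨fun e => h4 m e.symm, h⟩, fun h => h.2⟩
  · intro h b v hv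
    obtain ⟨h3, h4⟩ := (ly_iff hr h1 h2).1 hv
    rw [← h b]
    unfold flT
    rw [h3]
    exact ⟨fun h => h.2, fun h => ⟨fun e => h4 m e.symm, h⟩⟩

include hr h1 h2 in
theorem la_iff {u : Tk Q r} {a : Fin (r + 2)} (h : La r f (SY false o1 o2) (flT f) u a) :
    ∀ b : Fin (r + 2), f u.lay b ↔ f a b := by
  rcases h with h | ⟨h3, h4⟩
  · obtain ⟨h3, -⟩ := (ly_iff hr h1 h2).1 h
    intro b
    rw [h3]
  · have hz : ∃ m, u = Tk.z m := by
      by_contra hn
      push Not at hn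
      exact h3 ((nz_iff hr h1 h2).2 hn)
    obtain ⟨m, rfl⟩ := hz
    exact (tt_iff hr h1 h2).1 h4

include hr h1 h2 in
theorem la_self (u : Tk Q r) : La r f (SY false o1 o2) (flT f) u u.lay := by
  by_cases hz : ∃ m, u = Tk.z m
  · obtain ⟨m, rfl⟩ := hz
    exact Or.inr ⟨not_nz m, (tt_iff hr h1 h2).2 fun b => Iff.rfl⟩
  · push Not at hz
    exact Or.inl ((ly_iff hr h1 h2).2 ⟨rfl, hz⟩)

include hr h1 h2 in
/-- the points of the standard graph -/
theorem dm_equiv : ∃ e : Q ≃ {x : Tk Q r // Dm (SY false o1 o2) x},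
    ∀ q, (e q : Tk Q r) = pt0 hr q := by
  refine ⟨Equiv.ofBijective (fun q => ⟨pt0 hr q, (dm_iff hr h1 h2).2 ⟨q, rfl⟩⟩) ⟨?_, ?_⟩,
    fun q => rfl⟩
  · intro q q' h
    exact pt0_inj hr (congrArg Subtype.val h)
  · rintro ⟨x, hx⟩
    obtain ⟨q, rfl⟩ := (dm_iff hr h1 h2).1 hx
    exact ⟨q, rfl⟩

theorem dlo_map {A B : Type} (e : A ≃ B) {l : A → A → Prop} {l' : B → B → Prop}
    (h : ∀ x y, l x y ↔ l' (e x) (e y)) (hl : DLO l) : DLO l' where
  irrefl a := by
    obtain ⟨a, rfl⟩ := e.surjective a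
    rw [← h]
    exact hl.irrefl a
  trans a b c := by
    obtain ⟨a, rfl⟩ := e.surjective a
    obtain ⟨b, rfl⟩ := e.surjective b
    obtain ⟨c, rfl⟩ := e.surjective c
    rw [← h, ← h, ← h]
    exact hl.trans a b c
  total a b hab := by
    obtain ⟨a, rfl⟩ := e.surjective a
    obtain ⟨b, rfl⟩ := e.surjective b
    rw [← h, ← h]
    exact hl.total a b fun e' => hab (by rw [e'])
  dense a b hab := by
    obtain ⟨a, rfl⟩ := e.surjective a
    obtain ⟨b, rfl⟩ := e.surjective b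
    rw [← h] at hab
    obtain ⟨c, h1, h2⟩ := hl.dense a b hab
    exact ⟨e c, (h _ _).1 h1, (h _ _).1 h2⟩
  above a := by
    obtain ⟨a, rfl⟩ := e.surjective a
    obtain ⟨c, h1⟩ := hl.above a
    exact ⟨e c, (h _ _).1 h1⟩
  below a := by
    obtain ⟨a, rfl⟩ := e.surjective a
    obtain ⟨c, h1⟩ := hl.below a
    exact ⟨e c, (h _ _).1 h1⟩

include hr h1 h2 in
theorem w2_T (hf : ∀ a b, f a b → f b a) :
    W2 r f (SY false o1 o2 : Tk Q r → Tk Q r → Prop) (flT f) := by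
  have hff : ∀ a b, f a b ↔ f b a := fun a b => ⟨hf a b, hf b a⟩
  obtain ⟨e, he⟩ := dm_equiv (r := r) hr h1 h2
  have hQ : Infinite Q := infinite_of_dlo h1
  constructor
  case irr => exact sy_irr h1
  case sy => exact fun _ _ => sy_symm
  case d1 =>
    refine dlo_map e (fun x y => ?_) h1
    rw [he, he, o1_iff hr h1 h2]
  case d2 =>
    refine dlo_map e (fun x y => ?_) h2
    rw [he, he, o2_iff hr h1 h2]
  case inf =>
    intro m
    let g := Infinite.natEmbedding Q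
    refine ⟨fun i => pt0 hr (g i), fun i j hij => Fin.ext (g.injective (pt0_inj hr hij)),
      fun i => (dm_iff hr h1 h2).2 ⟨_, rfl⟩⟩
  case ex =>
    intro k x hx
    obtain ⟨q, rfl⟩ := (dm_iff hr h1 h2).1 hx
    exact ⟨Tk.p k q, (at_iff hr h1 h2).2 ⟨q, rfl, rfl⟩⟩
  case uq =>
    intro k x u u' h h'
    obtain ⟨q, rfl, rfl⟩ := (at_iff hr h1 h2).1 h
    obtain ⟨q', h3, rfl⟩ := (at_iff hr h1 h2).1 h'
    rw [pt0_inj hr h3]
  case ij =>
    intro k k' u x x' h h'
    obtain ⟨q, rfl, rfl⟩ := (at_iff hr h1 h2).1 h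
    obtain ⟨q', rfl, h3⟩ := (at_iff hr h1 h2).1 h'
    simp only [Tk.p.injEq] at h3
    exact ⟨h3.1, by rw [h3.2]⟩
  case nz =>
    intro k u x h
    obtain ⟨q, rfl, rfl⟩ := (at_iff hr h1 h2).1 h
    exact (nz_iff hr h1 h2).2 (by simp)
  case nE =>
    refine ⟨Tk.e, fun i j h => by simpa using h, fun u => ?_⟩
    rw [es_iff hr h1 h2 (by simp)]
    exact exists_congr fun i => eq_comm
  case nF =>
    refine ⟨Tk.f, fun i j h => by simpa using h, fun u => ?_⟩
    rw [fs_iff hr h1 h2 (by simp)]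
    exact exists_congr fun i => eq_comm
  case dj =>
    intro k u x h
    obtain ⟨q, rfl, rfl⟩ := (at_iff hr h1 h2).1 h
    rw [es_iff hr h1 h2 (by simp), fs_iff hr h1 h2 (by simp)]
    simp
  case adj =>
    intro k k' u u' x x' h h'
    obtain ⟨q, rfl, rfl⟩ := (at_iff hr h1 h2).1 h
    obtain ⟨q', rfl, rfl⟩ := (at_iff hr h1 h2).1 h'
    have e1 : ∀ q q', O1 (SY false o1 o2) (pt0 hr q : Tk Q r) (pt0 hr q') ↔ o1 q q' :=
      fun q q' => o1_iff hr h1 h2
    have e2 : ∀ q q', O2 r (SY false o1 o2) (pt0 hr q : Tk Q r) (pt0 hr q') ↔ o2 q q' :=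
      fun q q' => o2_iff hr h1 h2
    have e3 : ∀ q q' : Q, (pt0 hr q : Tk Q r) = pt0 hr q' ↔ q = q' := fun q q' =>
      ⟨pt0_inj hr, fun h => by rw [h]⟩
    rcases k with _ | _ | t <;> rcases k' with _ | _ | t'
    · exact Iff.rfl
    · exact Iff.rfl
    · show (¬ o1 q' q ∧ _) ↔ (¬ O1 _ _ _ ∧ _)
      rw [e1]
    · exact Iff.rfl
    · exact Iff.rfl
    · show (¬ o2 q' q ∧ _) ↔ (¬ O2 r _ _ _ ∧ _)
      rw [e2]
    · show (¬ o1 q q' ∧ _) ↔ (¬ O1 _ _ _ ∧ _)
      rw [e1]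
    · show (¬ o2 q q' ∧ _) ↔ (¬ O2 r _ _ _ ∧ _)
      rw [e2]
    · show ((q = q' ∧ _) ∨ (false = true ∧ _)) ↔ ((pt0 hr q = pt0 hr q' ∧ _) ∨ (false = true ∧ _))
      rw [e3]
      simp
  case eA =>
    intro k u v x h h'
    obtain ⟨i, rfl⟩ := (es_iff hr h1 h2 (by simp)).1 h
    obtain ⟨q', rfl, rfl⟩ := (at_iff hr h1 h2).1 h'
    exact Iff.rfl
  case fB =>
    intro k u v x h h'
    obtain ⟨i, rfl⟩ := (fs_iff hr h1 h2 (by simp)).1 h
    obtain ⟨q', rfl, rfl⟩ := (at_iff hr h1 h2).1 h'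
    exact Iff.rfl
  case ef =>
    intro u v h h'
    rw [es_iff hr h1 h2 (by simp), fs_iff hr h1 h2 (by simp)] at h h'
    rcases h with ⟨i, rfl⟩ | ⟨i, rfl⟩ <;> rcases h' with ⟨j, rfl⟩ | ⟨j, rfl⟩ <;> exact id
  case cov =>
    intro u h
    have h := (nz_iff hr h1 h2).1 h
    rw [es_iff hr h1 h2 (by simp), fs_iff hr h1 h2 (by simp)]
    rcases u with ⟨k, q⟩ | i | i | i
    · exact Or.inr (Or.inr ⟨k, pt0 hr q, (at_iff hr h1 h2).2 ⟨q, rfl, rfl⟩⟩)
    · exact Or.inl ⟨i, rfl⟩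
    · exact Or.inr (Or.inl ⟨i, rfl⟩)
    · exact absurd rfl (h i)
  case cv => exact fun u => ⟨⟨u.lay, lay_lt u hr⟩, la_self hr h1 h2 u⟩
  case fli =>
    intro a b u v hu hv
    have h3 := la_iff hr h1 h2 hu b
    have h4 := la_iff hr h1 h2 hv ⟨u.lay, lay_lt u hr⟩
    unfold flT
    refine and_congr Iff.rfl ?_
    rw [hff u.lay, h4, ← h3, hff]
  case mi =>
    intro a m
    refine ⟨fun i => Tk.z (a + i * (r + 2)), fun i j hij => ?_, fun i => ⟨not_nz _, ?_⟩⟩
    · simp only [Tk.z.injEq] at hij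
      have h3 : (i : ℕ) * (r + 2) = j * (r + 2) := by omega
      exact Fin.ext (Nat.eq_of_mul_eq_mul_right (by omega) h3)
    · rw [tt_iff hr h1 h2]
      intro b
      rw [Nat.add_mul_mod_self_right, Nat.mod_eq_of_lt a.2]

end std

section map

variable {T S : Type} {r : ℕ} {f : ℕ → ℕ → Prop} {y fl : T → T → Prop} {z fl' : S → S → Prop}
  (e : T ≃ S) (h : ∀ u v, y u v ↔ z (e u) (e v))

include h

theorem nz_map (u : T) : Nz y u ↔ Nz z (e u) := by
  simp only [Nz, e.surjective.exists, h]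

theorem tw_map (u v : T) : Tw y u v ↔ Tw z (e u) (e v) := by
  simp only [Tw, e.surjective.forall, h, e.injective.ne_iff]

theorem es_map (u : T) : Es y u ↔ Es z (e u) := by
  simp only [Es, e.surjective.forall, e.surjective.exists, nz_map e h, tw_map e h,
    e.injective.eq_iff]

theorem fs_map (u : T) : Fs y u ↔ Fs z (e u) := by
  simp only [Fs, e.surjective.exists, nz_map e h, tw_map e h, e.injective.ne_iff]

theorem rw_map (u : T) : Rw y u ↔ Rw z (e u) := by
  simp only [Rw, e.surjective.exists, es_map e h, h]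

theorem cw_map (u : T) : Cw y u ↔ Cw z (e u) := by
  simp only [Cw, e.surjective.exists, fs_map e h, h]

theorem dm_map (u : T) : Dm y u ↔ Dm z (e u) := by
  simp only [Dm, e.surjective.exists, es_map e h, rw_map e h, h]

theorem pt_map (n : ℕ) : (∀ x u, Pt y n x u ↔ Pt z n (e x) (e u)) ∧
    ∀ x u, Pt y (n + 1) x u ↔ Pt z (n + 1) (e x) (e u) := by
  induction n with
  | zero =>
    refine ⟨fun x u => ?_, fun x u => ?_⟩
    · simp only [Pt, e.injective.eq_iff]
    · simp only [Pt, h, rw_map e h, cw_map e h]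
  | succ n ih =>
    refine ⟨ih.2, fun x u => ?_⟩
    simp only [Pt, e.surjective.exists, h, rw_map e h, cw_map e h, e.injective.ne_iff, ih.1, ih.2]

theorem o1_map (u v : T) : O1 y u v ↔ O1 z (e u) (e v) := by
  simp only [O1, e.surjective.exists, rw_map e h, h]

theorem o2_map (u v : T) : O2 r y u v ↔ O2 r z (e u) (e v) := by
  simp only [O2, e.surjective.exists, cw_map e h, h, (pt_map e h _).1]

theorem at_map (k : Kd r) (u v : T) : At y k u v ↔ At z k (e u) (e v) := by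
  rcases k with _ | _ | t
  · simp only [At, e.surjective.forall, rw_map e h, dm_map e h, h]
  · simp only [At, e.surjective.exists, e.surjective.forall, cw_map e h, dm_map e h,
      (pt_map e h _).1, h]
  · simp only [At, dm_map e h, (pt_map e h _).1]

theorem en_map (s : Bool) (u v : T) : En s r y u v ↔ En s r z (e u) (e v) := by
  simp only [En, dm_map e h, o1_map e h, o2_map (r := r) e h, h]

theorem de_map (s : Bool) (u v : T) : De s y u v ↔ De s z (e u) (e v) := by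
  simp only [De, rw_map e h, cw_map e h, h]

theorem ly_map (u : T) (a : ℕ) : Ly r y u a ↔ Ly r z (e u) a := by
  simp only [Ly, e.surjective.exists, es_map e h, fs_map e h, at_map e h]

theorem iz_map (u : T) : Iz y u ↔ Iz z (e u) := by
  unfold Iz
  constructor
  · rintro ⟨p, h1, h2⟩
    exact ⟨fun i => e (p i), e.injective.comp h1, fun i => (tw_map e h _ _).1 (h2 i)⟩
  · rintro ⟨p, h1, h2⟩
    refine ⟨fun i => e.symm (p i), e.symm.injective.comp h1, fun i => (tw_map e h _ _).2 ?_⟩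
    rw [e.apply_symm_apply]
    exact h2 i

variable (h' : ∀ u v, fl u v ↔ fl' (e u) (e v))

include h'

theorem tt_map (u : T) (a : ℕ) : TT r f y fl u a ↔ TT r f z fl' (e u) a := by
  simp only [TT, e.surjective.forall, ly_map e h, h']

theorem la_map (u : T) (a : ℕ) : La r f y fl u a ↔ La r f z fl' (e u) a := by
  simp only [La, ly_map e h, nz_map e h, tt_map e h h']

theorem good_map (hy : Good y fl) : Good z fl' where
  irr := by
    intro u
    obtain ⟨u, rfl⟩ := e.surjective u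
    rw [← h]
    exact hy.irr u
  sy := by
    intro u v
    obtain ⟨u, rfl⟩ := e.surjective u
    obtain ⟨v, rfl⟩ := e.surjective v
    rw [← h, ← h]
    exact hy.sy u v
  tw := by
    intro u hu
    obtain ⟨u, rfl⟩ := e.surjective u
    rw [← iz_map e h]
    exact hy.tw u ((nz_map e h u).2 hu)
  lay := by
    classical
    obtain ⟨L, l, f, h1, h2, h3⟩ := hy.lay
    refine ⟨L, fun u => l (e.symm u), f, h1, fun u v => ?_, fun u s => ?_⟩
    · obtain ⟨u, rfl⟩ := e.surjective u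
      obtain ⟨v, rfl⟩ := e.surjective v
      beta_reduce
      rw [← h', e.symm_apply_apply, e.symm_apply_apply, h2, e.injective.ne_iff]
    · obtain ⟨u, rfl⟩ := e.surjective u
      obtain ⟨x, h4, h5, h6⟩ := h3 u (s.image e.symm)
      refine ⟨e x, fun hx => h4 ?_, fun v hv => ?_, fun w => ?_⟩
      · rw [Finset.mem_image]
        exact ⟨e x, hx, e.symm_apply_apply x⟩
      · obtain ⟨v, rfl⟩ := e.surjective v
        exact h5 v ((h _ _).2 hv)
      · beta_reduce
        rw [e.symm_apply_apply, e.symm_apply_apply]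
        exact h6 _

theorem w2_map (hy : W2 r f y fl) : W2 r f z fl' := by
  have hD : ∃ E : {x // Dm y x} ≃ {x // Dm z x}, ∀ x, (E x : S) = e x :=
    ⟨e.subtypeEquiv fun x => dm_map e h x, fun x => rfl⟩
  obtain ⟨E, hE⟩ := hD
  constructor
  case irr =>
    intro u
    obtain ⟨u, rfl⟩ := e.surjective u
    rw [← h]
    exact hy.irr u
  case sy =>
    intro u v
    obtain ⟨u, rfl⟩ := e.surjective u
    obtain ⟨v, rfl⟩ := e.surjective v
    rw [← h, ← h]
    exact hy.sy u v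
  case d1 =>
    refine dlo_map E (fun x y => ?_) hy.d1
    rw [hE, hE]
    exact o1_map e h _ _
  case d2 =>
    refine dlo_map E (fun x y => ?_) hy.d2
    rw [hE, hE]
    exact o2_map e h _ _
  case inf =>
    intro m
    obtain ⟨x, h1, h2⟩ := hy.inf m
    exact ⟨fun i => e (x i), e.injective.comp h1, fun i => (dm_map e h _).1 (h2 i)⟩
  case ex =>
    intro k
    have := hy.ex k
    simpa only [dm_map e h, e.surjective.forall, e.surjective.exists, at_map e h] using this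
  case uq =>
    intro k
    have := hy.uq k
    simpa only [dm_map e h, e.surjective.forall, e.surjective.exists, at_map e h,
      e.injective.eq_iff] using this
  case ij =>
    intro k k'
    have := hy.ij k k'
    simpa only [dm_map e h, e.surjective.forall, e.surjective.exists, at_map e h,
      e.injective.eq_iff] using this
  case nz =>
    intro k
    have := hy.nz k
    simpa only [nz_map e h, e.surjective.forall, e.surjective.exists, at_map e h] using this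
  case nE =>
    obtain ⟨p, h1, h2⟩ := hy.nE
    refine ⟨fun i => e (p i), e.injective.comp h1, fun u => ?_⟩
    obtain ⟨u, rfl⟩ := e.surjective u
    rw [← es_map e h, h2]
    simp only [e.injective.eq_iff]
  case nF =>
    obtain ⟨p, h1, h2⟩ := hy.nF
    refine ⟨fun i => e (p i), e.injective.comp h1, fun u => ?_⟩
    obtain ⟨u, rfl⟩ := e.surjective u
    rw [← fs_map e h, h2]
    simp only [e.injective.eq_iff]
  case dj =>
    intro k
    have := hy.dj k
    simpa only [es_map e h, fs_map e h, e.surjective.forall, e.surjective.exists,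
      at_map e h] using this
  case adj =>
    intro k k' u u' x x' hu hu'
    obtain ⟨u, rfl⟩ := e.surjective u
    obtain ⟨u', rfl⟩ := e.surjective u'
    obtain ⟨x, rfl⟩ := e.surjective x
    obtain ⟨x', rfl⟩ := e.surjective x'
    rw [← at_map e h] at hu hu'
    rw [← h, hy.adj k k' u u' x x' hu hu']
    rcases k with _ | _ | t <;> rcases k' with _ | _ | t' <;>
      simp only [cc, o1_map e h, o2_map (r := r) e h, e.injective.eq_iff]
  case eA =>
    intro k u v x hu hv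
    obtain ⟨u, rfl⟩ := e.surjective u
    obtain ⟨v, rfl⟩ := e.surjective v
    obtain ⟨x, rfl⟩ := e.surjective x
    rw [← es_map e h] at hu
    rw [← at_map e h] at hv
    rw [← h]
    exact hy.eA k u v x hu hv
  case fB =>
    intro k u v x hu hv
    obtain ⟨u, rfl⟩ := e.surjective u
    obtain ⟨v, rfl⟩ := e.surjective v
    obtain ⟨x, rfl⟩ := e.surjective x
    rw [← fs_map e h] at hu
    rw [← at_map e h] at hv
    rw [← h]
    exact hy.fB k u v x hu hv
  case ef =>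
    intro u v hu hv
    obtain ⟨u, rfl⟩ := e.surjective u
    obtain ⟨v, rfl⟩ := e.surjective v
    rw [← es_map e h, ← fs_map e h] at hu hv
    rw [← h]
    exact hy.ef u v hu hv
  case cov =>
    intro u hu
    obtain ⟨u, rfl⟩ := e.surjective u
    rw [← nz_map e h] at hu
    rcases hy.cov u hu with h1 | h1 | ⟨k, x, h1⟩
    · exact Or.inl ((es_map e h u).1 h1)
    · exact Or.inr (Or.inl ((fs_map e h u).1 h1))
    · exact Or.inr (Or.inr ⟨k, e x, (at_map e h k u x).1 h1⟩)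
  case cv =>
    intro u
    obtain ⟨u, rfl⟩ := e.surjective u
    obtain ⟨a, ha⟩ := hy.cv u
    exact ⟨a, (la_map e h h' u a).1 ha⟩
  case fli =>
    intro a b u v hu hv
    obtain ⟨u, rfl⟩ := e.surjective u
    obtain ⟨v, rfl⟩ := e.surjective v
    rw [← h', e.injective.ne_iff]
    exact hy.fli a b u v ((la_map e h h' u a).2 hu) ((la_map e h h' v b).2 hv)
  case mi =>
    intro a m
    obtain ⟨x, h1, h2⟩ := hy.mi a m
    exact ⟨fun i => e (x i), e.injective.comp h1, fun i =>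
      ⟨fun h3 => (h2 i).1 ((nz_map e h _).2 h3), (tt_map e h h' _ a).1 (h2 i).2⟩⟩

end map

end Pool.Agent.TH783.MD
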