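import Pool.Agent.TH783.MD.Rep

set_option autoImplicit false
set_option linter.unusedSectionVars false

/-! The representation of the graphs which satisfy the axioms. -/

namespace Pool.Agent.TH783.MD

open Pool.Agent.TH783.FC (Tw Iz Mt Fl Un flip Good fib_equiv out)
open Pool.Agent.W889.VC (DLO)
open Pool.Agent.W889.SD (nth_equiv)

section rep

variable {r : ℕ} {f : ℕ → ℕ → Prop} {X fl : ℕ → ℕ → Prop}

/-- the type of an isolated vertex as a set of layers -/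
def ty (r : ℕ) (X fl : ℕ → ℕ → Prop) (z : ℕ) (b : Fin (r + 2)) : Prop :=
  ∃ v, Ly r X v b ∧ fl z v

theorem W2.pt (h : W2 r f X fl) : ∃ x, Dm X x := by
  obtain ⟨x, -, h2⟩ := h.inf 1
  exact ⟨x 0, h2 0⟩

theorem W2.ly_all (h : W2 r f X fl) (b : Fin (r + 2)) : ∃ u, Ly r X u b := by
  obtain ⟨x, hx⟩ := h.pt
  by_cases h0 : (b : ℕ) = 0
  · obtain ⟨u, hu⟩ := h.ex Kd.a x hx
    exact ⟨u, Or.inl ⟨Kd.a, ⟨x, hu⟩, h0⟩⟩
  by_cases h1 : (b : ℕ) = r + 1
  · obtain ⟨u, hu⟩ := h.ex Kd.b x hx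
    exact ⟨u, Or.inl ⟨Kd.b, ⟨x, hu⟩, h1⟩⟩
  have lt : (b : ℕ) - 1 < r := by have := b.2; omega
  obtain ⟨u, hu⟩ := h.ex (Kd.c ⟨b - 1, lt⟩) x hx
  refine ⟨u, Or.inl ⟨Kd.c ⟨b - 1, lt⟩, ⟨x, hu⟩, ?_⟩⟩
  show (b : ℕ) = b - 1 + 1
  omega

theorem W2.ly_nz (h : W2 r f X fl) {u a : ℕ} (hu : Ly r X u a) : Nz X u := by
  rcases hu with ⟨k, ⟨x, h1⟩, -⟩ | ⟨h1, -⟩ | ⟨h1, -⟩
  · exact h.nz k u x h1
  · exact h1.1
  · exact h1.1

theorem W2.ty_iff (h : W2 r f X fl) {z a : ℕ} (hz : TT r f X fl z a) (b : Fin (r + 2)) :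
    ty r X fl z b ↔ f a b := by
  constructor
  · rintro ⟨v, h2, h3⟩
    exact (hz b v h2).1 h3
  · intro h2
    obtain ⟨y, hy⟩ := h.ly_all b
    exact ⟨y, hy, (hz b y hy).2 h2⟩

theorem W2.tt (h : W2 r f X fl) {z : ℕ} (hz : ¬ Nz X z) : ∃ a : Fin (r + 2), TT r f X fl z a := by
  obtain ⟨a', ha' | ⟨-, ha'⟩⟩ := h.cv z
  · exact absurd (h.ly_nz ha') hz
  · exact ⟨a', ha'⟩

theorem W2.tt_of_ty (h : W2 r f X fl) {z : ℕ} (hz : ¬ Nz X z) {a : ℕ}
    (h1 : ∀ b, ty r X fl z b ↔ f a b) : TT r f X fl z a := by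
  obtain ⟨a', ha'⟩ := h.tt hz
  intro b v hv
  rw [← h1 b, h.ty_iff ha' b]
  exact ha' b v hv

theorem W2.fib (h : W2 r f X fl) (c : Fin (r + 2) → Prop) :
    Nonempty ({m : ℕ // (fun b : Fin (r + 2) => f (m % (r + 2)) b) = c} ≃
      {i : {u // ¬ Nz X u} // ty r X fl i = c}) := by
  by_cases hc : ∃ a : Fin (r + 2), ∀ b : Fin (r + 2), c b ↔ f a b
  · obtain ⟨a, ha⟩ := hc
    have i1 : Infinite {m : ℕ // (fun b : Fin (r + 2) => f (m % (r + 2)) b) = c} := by
      refine Infinite.of_injective (fun i : ℕ => (⟨a + i * (r + 2), funext fun b => propext ?_⟩ :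
        {m : ℕ // (fun b : Fin (r + 2) => f (m % (r + 2)) b) = c})) fun i j hij => ?_
      · rw [Nat.add_mul_mod_self_right, Nat.mod_eq_of_lt a.2]
        exact (ha b).symm
      · have h1 := congrArg Subtype.val hij
        have h2 : i * (r + 2) = j * (r + 2) := by
          simp only at h1
          omega
        exact Nat.eq_of_mul_eq_mul_right (by omega) h2
    have i2 : Infinite {i : {u // ¬ Nz X u} // ty r X fl i = c} := by
      have h1 : ∀ N, ∃ u, N ≤ u ∧ ¬ Nz X u ∧ TT r f X fl u a := by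
        intro N
        obtain ⟨u, hu1, hu2⟩ := out (P := fun z => ¬ Nz X z ∧ TT r f X fl z a)
          (h.mi a) (Finset.range N)
        exact ⟨u, by simpa using hu1, hu2⟩
      have h3 : Infinite {u // ¬ Nz X u ∧ TT r f X fl u a} := by
        obtain ⟨e, -⟩ := nth_equiv h1
        exact Infinite.of_injective e e.injective
      refine Infinite.of_injective (fun u : {u // ¬ Nz X u ∧ TT r f X fl u a} =>
        (⟨⟨u, u.2.1⟩, funext fun b => propext ((h.ty_iff u.2.2 b).trans (ha b).symm)⟩ :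
          {i : {u // ¬ Nz X u} // ty r X fl i = c})) fun u v huv => ?_
      have := congrArg (fun i => (i.1.1 : ℕ)) huv
      exact Subtype.ext this
    exact nonempty_equiv_of_countable
  · have i1 : IsEmpty {m : ℕ // (fun b : Fin (r + 2) => f (m % (r + 2)) b) = c} := by
      refine ⟨fun i => hc ⟨⟨i.1 % (r + 2), Nat.mod_lt _ (by omega)⟩, fun b => ?_⟩⟩
      rw [← congrFun i.2 b]
    have i2 : IsEmpty {i : {u // ¬ Nz X u} // ty r X fl i = c} := by
      refine ⟨fun i => hc ?_⟩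
      obtain ⟨a, ha⟩ := h.tt i.1.2
      refine ⟨a, fun b => ?_⟩
      rw [← congrFun i.2 b]
      exact h.ty_iff ha b
    exact ⟨Equiv.equivOfIsEmpty _ _⟩

theorem cc_sub {T : Type} {P : T → Prop} {s : Bool} {o1 o2 : T → T → Prop} {k k' : Kd r}
    {q q' : {x // P x}} :
    cc s (fun x y : {x // P x} => o1 x y) (fun x y : {x // P x} => o2 x y) k k' q q' ↔
      cc s o1 o2 k k' (q : T) (q' : T) := by
  rcases k with _ | _ | t <;> rcases k' with _ | _ | t' <;>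
    simp only [cc, Subtype.ext_iff]

/-- the representation -/
theorem W2.rep (h : W2 r f X fl) : ∃ e : Tk {x // Dm X x} r ≃ ℕ,
    (∀ u v, SY false (fun x y : {x // Dm X x} => O1 X x y)
      (fun x y : {x // Dm X x} => O2 r X x y) u v ↔ X (e u) (e v)) ∧
    (∀ u v, flT f u v ↔ fl (e u) (e v)) := by
  classical
  choose g hg using fun (k : Kd r) (x : {x // Dm X x}) => h.ex k x x.2
  obtain ⟨pE, pE1, pE2⟩ := h.nE
  obtain ⟨pF, pF1, pF2⟩ := h.nF
  obtain ⟨ι, hι⟩ := fib_equiv (fun m : ℕ => fun b : Fin (r + 2) => f (m % (r + 2)) b)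
    (fun i : {u // ¬ Nz X u} => ty r X fl i) h.fib
  let E : Tk {x // Dm X x} r → ℕ := fun u => match u with
    | Tk.p k q => g k q
    | Tk.e i => pE i
    | Tk.f j => pF j
    | Tk.z m => ι m
  have hE : ∀ i, Es X (pE i) := fun i => (pE2 _).2 ⟨i, rfl⟩
  have hF : ∀ i, Fs X (pF i) := fun i => (pF2 _).2 ⟨i, rfl⟩
  have hEF : ∀ u, Es X u → ¬ Fs X u := by
    rintro u ⟨-, v, h1, h2⟩ ⟨-, w, w', h3, h4, h5⟩
    exact h3 ((h2 w h4).trans (h2 w' h5).symm)
  have hZ : ∀ m, ¬ Nz X (ι m : ℕ) := fun m => (ι m).2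
  have hinj : Function.Injective E := by
    rintro (⟨k, q⟩ | i | i | i) (⟨k', q'⟩ | j | j | j) huv
    · have huv : g k q = g k' q' := huv
      obtain ⟨h1, h2⟩ := h.ij k k' _ _ _ (hg k q) (huv ▸ hg k' q')
      rw [h1, Subtype.ext h2]
    · have huv : g k q = pE j := huv
      exact ((h.dj k _ _ (hg k q)).1 (huv ▸ hE j)).elim
    · have huv : g k q = pF j := huv
      exact ((h.dj k _ _ (hg k q)).2 (huv ▸ hF j)).elim
    · have huv : g k q = ι j := huv
      exact (hZ j (huv ▸ h.nz k _ _ (hg k q))).elim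
    · have huv : pE i = g k' q' := huv
      exact ((h.dj k' _ _ (hg k' q')).1 (huv ▸ hE i)).elim
    · have huv : pE i = pE j := huv
      rw [pE1 huv]
    · have huv : pE i = pF j := huv
      exact (hEF _ (hE i) (huv ▸ hF j)).elim
    · have huv : pE i = ι j := huv
      exact (hZ j (huv ▸ (hE i).1)).elim
    · have huv : pF i = g k' q' := huv
      exact ((h.dj k' _ _ (hg k' q')).2 (huv ▸ hF i)).elim
    · have huv : pF i = pE j := huv
      exact (hEF _ (hE j) (huv ▸ hF i)).elim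
    · have huv : pF i = pF j := huv
      rw [pF1 huv]
    · have huv : pF i = ι j := huv
      exact (hZ j (huv ▸ (hF i).1)).elim
    · have huv : (ι i : ℕ) = g k' q' := huv
      exact (hZ i (by rw [huv]; exact h.nz k' _ _ (hg k' q'))).elim
    · have huv : (ι i : ℕ) = pE j := huv
      exact (hZ i (by rw [huv]; exact (hE j).1)).elim
    · have huv : (ι i : ℕ) = pF j := huv
      exact (hZ i (by rw [huv]; exact (hF j).1)).elim
    · have huv : (ι i : ℕ) = ι j := huv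
      rw [ι.injective (Subtype.ext huv)]
  have hsurj : Function.Surjective E := by
    intro u
    by_cases hu : Nz X u
    · rcases h.cov u hu with h1 | h1 | ⟨k, x, h1⟩
      · obtain ⟨i, hi⟩ := (pE2 u).1 h1
        exact ⟨Tk.e i, hi⟩
      · obtain ⟨i, hi⟩ := (pF2 u).1 h1
        exact ⟨Tk.f i, hi⟩
      · have hx : Dm X x := by
          rcases k with _ | _ | t
          · exact h1.1
          · exact h1.1
          · exact h1.1
        exact ⟨Tk.p k ⟨x, hx⟩, h.uq k x _ _ (hg k ⟨x, hx⟩) h1⟩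
    · refine ⟨Tk.z (ι.symm ⟨u, hu⟩), ?_⟩
      show (ι (ι.symm ⟨u, hu⟩) : ℕ) = u
      rw [ι.apply_symm_apply]
  have hX : ∀ u v, SY false (fun x y : {x // Dm X x} => O1 X x y)
      (fun x y : {x // Dm X x} => O2 r X x y) u v ↔ X (E u) (E v) := by
    have hz : ∀ m v, ¬ X (ι m : ℕ) v := fun m v hv => hZ m ⟨v, hv⟩
    have hs : ∀ u v, X u v ↔ X v u := fun u v => ⟨h.sy _ _, h.sy _ _⟩
    rintro (⟨k, q⟩ | i | i | i) (⟨k', q'⟩ | j | j | j)
    · show _ ↔ X (g k q) (g k' q')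
      rw [h.adj k k' _ _ _ _ (hg k q) (hg k' q'), ← cc_sub]
      exact Iff.rfl
    · show _ ↔ X (g k q) (pE j)
      rw [hs, h.eA k _ _ _ (hE j) (hg k q)]
      exact Iff.rfl
    · show _ ↔ X (g k q) (pF j)
      rw [hs, h.fB k _ _ _ (hF j) (hg k q)]
      exact Iff.rfl
    · show False ↔ X (g k q) (ι j)
      rw [hs]
      exact iff_of_false id (hz _ _)
    · show _ ↔ X (pE i) (g k' q')
      rw [h.eA k' _ _ _ (hE i) (hg k' q')]
      exact Iff.rfl
    · exact iff_of_false id (h.ef _ _ (Or.inl (hE i)) (Or.inl (hE j)))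
    · exact iff_of_false id (h.ef _ _ (Or.inl (hE i)) (Or.inr (hF j)))
    · show False ↔ X (pE i) (ι j)
      rw [hs]
      exact iff_of_false id (hz _ _)
    · show _ ↔ X (pF i) (g k' q')
      rw [h.fB k' _ _ _ (hF i) (hg k' q')]
      exact Iff.rfl
    · exact iff_of_false id (h.ef _ _ (Or.inr (hF i)) (Or.inl (hE j)))
    · exact iff_of_false id (h.ef _ _ (Or.inr (hF i)) (Or.inr (hF j)))
    · show False ↔ X (pF i) (ι j)
      rw [hs]
      exact iff_of_false id (hz _ _)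
    all_goals exact iff_of_false id (hz _ _)
  have hlay : ∀ u : Tk {x // Dm X x} r, La r f X fl (E u) u.lay := by
    rintro (⟨k, q⟩ | i | i | i)
    · exact Or.inl (Or.inl ⟨k, ⟨q, hg k q⟩, rfl⟩)
    · exact Or.inl (Or.inr (Or.inl ⟨hE i, rfl⟩))
    · exact Or.inl (Or.inr (Or.inr ⟨hF i, rfl⟩))
    · refine Or.inr ⟨hZ i, h.tt_of_ty (hZ i) fun b => ?_⟩
      exact iff_of_eq (congrFun (hι i) b)
  have hlt : ∀ u : Tk {x // Dm X x} r, u.lay < r + 2 := by
    rintro (⟨k, q⟩ | i | i | i)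
    · rcases k with _ | _ | t
      · show 0 < r + 2
        omega
      · show r + 1 < r + 2
        omega
      · show (t : ℕ) + 1 < r + 2
        omega
    · show 1 < r + 2
      omega
    · show r < r + 2
      omega
    · exact Nat.mod_lt _ (by omega)
  refine ⟨Equiv.ofBijective E ⟨hinj, hsurj⟩, hX, fun u v => ?_⟩
  show _ ↔ fl (E u) (E v)
  rw [h.fli ⟨u.lay, hlt u⟩ ⟨v.lay, hlt v⟩ _ _ (hlay u) (hlay v), hinj.ne_iff]
  exact Iff.rfl

/-- places over equivalent sets of points -/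
def Tk.map {Q Q' : Type} (π : Q ≃ Q') : Tk Q r ≃ Tk Q' r where
  toFun u := match u with
    | Tk.p k q => Tk.p k (π q)
    | Tk.e i => Tk.e i
    | Tk.f i => Tk.f i
    | Tk.z i => Tk.z i
  invFun u := match u with
    | Tk.p k q => Tk.p k (π.symm q)
    | Tk.e i => Tk.e i
    | Tk.f i => Tk.f i
    | Tk.z i => Tk.z i
  left_inv := by
    rintro (⟨k, q⟩ | i | i | i)
    · show Tk.p k (π.symm (π q)) = _
      rw [π.symm_apply_apply]
    all_goals rfl
  right_inv := by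
    rintro (⟨k, q⟩ | i | i | i)
    · show Tk.p k (π (π.symm q)) = _
      rw [π.apply_symm_apply]
    all_goals rfl

theorem sy_tkmap {Q Q' : Type} (π : Q ≃ Q') {s : Bool} {o1 o2 : Q → Q → Prop}
    {o1' o2' : Q' → Q' → Prop} (h1 : ∀ x y, o1 x y ↔ o1' (π x) (π y))
    (h2 : ∀ x y, o2 x y ↔ o2' (π x) (π y)) (u v : Tk Q r) :
    SY s o1 o2 u v ↔ SY s o1' o2' (Tk.map π u) (Tk.map π v) := by
  rcases u with ⟨k, q⟩ | i | i | i <;> rcases v with ⟨k', q'⟩ | j | j | j <;> try exact Iff.rfl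
  show cc s o1 o2 k k' q q' ↔ cc s o1' o2' k k' (π q) (π q')
  rcases k with _ | _ | t <;> rcases k' with _ | _ | t' <;>
    simp only [cc, h1, h2, π.injective.eq_iff]

theorem lay_tkmap {Q Q' : Type} (π : Q ≃ Q') (u : Tk Q r) : (Tk.map π u).lay = u.lay := by
  rcases u with ⟨k, q⟩ | i | i | i <;> rfl

/-- the pair of orders determines the structure -/
theorem W2.ext {X' fl' : ℕ → ℕ → Prop} (h : W2 r f X fl) (h' : W2 r f X' fl')
    (π : {x // Dm X x} ≃ {x // Dm X' x})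
    (h1 : ∀ x y : {x // Dm X x}, O1 X x y ↔ O1 X' (π x) (π y))
    (h2 : ∀ x y : {x // Dm X x}, O2 r X x y ↔ O2 r X' (π x) (π y)) :
    ∃ e : ℕ ≃ ℕ, (∀ u v, X u v ↔ X' (e u) (e v)) ∧ ∀ u v, fl u v ↔ fl' (e u) (e v) := by
  obtain ⟨e, h3, h4⟩ := h.rep
  obtain ⟨e', h3', h4'⟩ := h'.rep
  refine ⟨(e.symm.trans (Tk.map π)).trans e', fun u v => ?_, fun u v => ?_⟩
  · obtain ⟨u, rfl⟩ := e.surjective u
    obtain ⟨v, rfl⟩ := e.surjective v
    rw [← h3]
    show _ ↔ X' (e' (Tk.map π (e.symm (e u)))) (e' (Tk.map π (e.symm (e v))))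
    rw [← h3', e.symm_apply_apply, e.symm_apply_apply]
    exact sy_tkmap π h1 h2 u v
  · obtain ⟨u, rfl⟩ := e.surjective u
    obtain ⟨v, rfl⟩ := e.surjective v
    rw [← h4]
    show _ ↔ fl' (e' (Tk.map π (e.symm (e u)))) (e' (Tk.map π (e.symm (e v))))
    rw [← h4', e.symm_apply_apply, e.symm_apply_apply]
    unfold flT
    rw [(Tk.map π).injective.ne_iff, lay_tkmap, lay_tkmap]

/-- the encoded graph -/
theorem W2.rep_en (h : W2 r f X fl) (hr : 1 ≤ r) {s : Bool} (hs : s = true → r = 1) :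
    ∃ e : Tk {x // Dm X x} r ≃ ℕ,
    (∀ u v, SY s (fun x y : {x // Dm X x} => O1 X x y)
      (fun x y : {x // Dm X x} => O2 r X x y) u v ↔ En s r X (e u) (e v)) ∧
    (∀ u v, flT f u v ↔ fl (e u) (e v)) := by
  obtain ⟨x, hx⟩ := h.pt
  have : Nonempty {x // Dm X x} := ⟨⟨x, hx⟩⟩
  obtain ⟨e, h3, h4⟩ := h.rep
  refine ⟨e, fun u v => ?_, h4⟩
  rw [← en_map e h3, en_sy hr h.d1 h.d2 hs]

/-- decoding -/
theorem W2.unflip (h : W2 r f X fl) (hf : ∀ a b, f a b → f b a) (hr : 1 ≤ r) {s : Bool}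
    (hs : s = true → r = 1) :
    (∀ u v, De s (Un (flip (En s r X) fl)) u v ↔ X u v) ∧
      ∀ u v, Fl (flip (En s r X) fl) u v ↔ fl u v := by
  obtain ⟨x, hx⟩ := h.pt
  have : Nonempty {x // Dm X x} := ⟨⟨x, hx⟩⟩
  obtain ⟨e, h3, h4⟩ := h.rep
  have h5 : ∀ u v, SY s (fun x y : {x // Dm X x} => O1 X x y)
      (fun x y : {x // Dm X x} => O2 r X x y) u v ↔ En s r X (e u) (e v) := fun u v => by
    rw [← en_map e h3, en_sy hr h.d1 h.d2 hs]
  have hg : Good (En s r X) fl := good_map e h5 h4 (good hr h.d1 h.d2 hf hs)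
  obtain ⟨h6, h7⟩ := hg.unflip
  refine ⟨fun u v => ?_, h7⟩
  have e1 : Un (flip (En s r X) fl) = En s r X := by
    funext u v
    exact propext (h6 u v)
  rw [e1]
  obtain ⟨u, rfl⟩ := e.surjective u
  obtain ⟨v, rfl⟩ := e.surjective v
  rw [← de_map e h5, de_sy hr h.d1 h.d2 hs, h3]

end rep

end Pool.Agent.TH783.MD
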