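import Pool.Agent.TH783.FC.Unflip
import Pool.Agent.W889.VC.BF

set_option autoImplicit false
set_option linter.unusedSectionVars false

/-! The standard graph over a pair of linear orders. -/

namespace Pool.Agent.TH783.MD

open Pool.Agent.TH783.FC (Tw Iz Mt Fl Un flip Good)
open Pool.Agent.W889.VC (DLO)

/-- kinds of places -/
inductive Kd (r : ℕ) : Type
  | a : Kd r
  | b : Kd r
  | c (t : Fin r) : Kd r

/-- places of the standard graph over `Q` -/
inductive Tk (Q : Type) (r : ℕ) : Type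
  | p (k : Kd r) (q : Q) : Tk Q r
  | e (i : Fin 2) : Tk Q r
  | f (j : Fin 3) : Tk Q r
  | z (m : ℕ) : Tk Q r

section defs

variable {Q : Type} {r : ℕ}

/-- the adjacency of the places over the points -/
def cc (s : Bool) (o1 o2 : Q → Q → Prop) : Kd r → Kd r → Q → Q → Prop
  | Kd.a, Kd.c t, p, q => ¬ o1 q p ∧ (t : ℕ) = 0
  | Kd.c t, Kd.a, q, p => ¬ o1 q p ∧ (t : ℕ) = 0
  | Kd.b, Kd.c t, p, q => ¬ o2 q p ∧ (t : ℕ) + 1 = r
  | Kd.c t, Kd.b, q, p => ¬ o2 q p ∧ (t : ℕ) + 1 = r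
  | Kd.c t, Kd.c t', q, q' => (q = q' ∧ ((t' : ℕ) = t + 1 ∨ (t : ℕ) = t' + 1)) ∨
      (s = true ∧ ((o1 q q' ∧ o2 q q') ∨ (o1 q' q ∧ o2 q' q)))
  | _, _, _, _ => False

/-- the standard graph -/
def SY (s : Bool) (o1 o2 : Q → Q → Prop) : Tk Q r → Tk Q r → Prop
  | Tk.p k q, Tk.p k' q' => cc s o1 o2 k k' q q'
  | Tk.e _, Tk.p k _ => k = Kd.a
  | Tk.p k _, Tk.e _ => k = Kd.a
  | Tk.f _, Tk.p k _ => k = Kd.b
  | Tk.p k _, Tk.f _ => k = Kd.b
  | _, _ => False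

/-- layers of kinds -/
def Kd.lay : Kd r → ℕ
  | Kd.a => 0
  | Kd.b => r + 1
  | Kd.c t => t + 1

/-- layers of places -/
def Tk.lay : Tk Q r → ℕ
  | Tk.p k _ => k.lay
  | Tk.e _ => 1
  | Tk.f _ => r
  | Tk.z m => m % (r + 2)

/-- the flip -/
def flT (f : ℕ → ℕ → Prop) (u v : Tk Q r) : Prop := u ≠ v ∧ f u.lay v.lay

end defs

section preds

variable {T : Type}

/-- not isolated -/
def Nz (X : T → T → Prop) (u : T) : Prop := ∃ v, X u v

/-- exactly one twin -/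
def Es (X : T → T → Prop) (u : T) : Prop := Nz X u ∧ ∃ v, Tw X u v ∧ ∀ w, Tw X u w → w = v

/-- at least two twins -/
def Fs (X : T → T → Prop) (u : T) : Prop := Nz X u ∧ ∃ v w, v ≠ w ∧ Tw X u v ∧ Tw X u w

/-- rows -/
def Rw (X : T → T → Prop) (u : T) : Prop := ∃ v, Es X v ∧ X v u

/-- columns -/
def Cw (X : T → T → Prop) (u : T) : Prop := ∃ v, Fs X v ∧ X v u

/-- the points -/
def Dm (X : T → T → Prop) (x : T) : Prop := ¬ Es X x ∧ ∃ u, Rw X u ∧ X u x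

/-- the places of the path -/
def Pt (X : T → T → Prop) : ℕ → T → T → Prop
  | 0 => fun x u => u = x
  | 1 => fun x u => X x u ∧ ¬ Rw X u ∧ ¬ Cw X u
  | n + 2 => fun x u => ∃ w w', Pt X n x w' ∧ Pt X (n + 1) x w ∧ X w u ∧ u ≠ w' ∧
      ¬ Rw X u ∧ ¬ Cw X u

/-- the first order -/
def O1 (X : T → T → Prop) (x x' : T) : Prop := ∃ u, Rw X u ∧ X u x' ∧ ¬ X u x

/-- the second order -/
def O2 (r : ℕ) (X : T → T → Prop) (x x' : T) : Prop :=
  ∃ u y y', Cw X u ∧ Pt X (r - 1) x y ∧ Pt X (r - 1) x' y' ∧ X u y' ∧ ¬ X u y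

/-- the place of a kind over a point -/
def At {r : ℕ} (X : T → T → Prop) : Kd r → T → T → Prop
  | Kd.a => fun u x => Dm X x ∧ Rw X u ∧ X u x ∧ ∀ v, Rw X v → X v x → ∀ y, X u y → X v y
  | Kd.b => fun u x => Dm X x ∧ ∃ y, Pt X (r - 1) x y ∧ Cw X u ∧ X u y ∧
      ∀ v, Cw X v → X v y → ∀ w, X u w → X v w
  | Kd.c t => fun u x => Dm X x ∧ Pt X t x u

/-- the encoded graph -/
def En (s : Bool) (r : ℕ) (X : T → T → Prop) (u v : T) : Prop :=
  X u v ∨ (s = true ∧ Dm X u ∧ Dm X v ∧ ((O1 X u v ∧ O2 r X u v) ∨ (O1 X v u ∧ O2 r X v u)))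

/-- the decoded graph -/
def De (s : Bool) (Y : T → T → Prop) (u v : T) : Prop :=
  Y u v ∧ (s = true → Rw Y u ∨ Cw Y u ∨ Rw Y v ∨ Cw Y v)

end preds

section eval

variable {Q : Type} {r : ℕ} {s : Bool} {o1 o2 : Q → Q → Prop}

theorem sy_symm {u v : Tk Q r} (h : SY s o1 o2 u v) : SY s o1 o2 v u := by
  rcases u with ⟨k, q⟩ | i | i | i <;> rcases v with ⟨k', q'⟩ | j | j | j <;>
    try exact h
  rcases k with _ | _ | t <;> rcases k' with _ | _ | t' <;> try exact h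
  rcases h with ⟨h1, h2⟩ | ⟨h1, h2⟩
  · exact Or.inl ⟨h1.symm, h2.symm⟩
  · exact Or.inr ⟨h1, h2.symm⟩

theorem sy_irr (h1 : DLO o1) (u : Tk Q r) : ¬ SY s o1 o2 u u := by
  rcases u with ⟨k, q⟩ | i | i | i
  · rcases k with _ | _ | t
    · exact id
    · exact id
    · rintro (⟨-, h | h⟩ | ⟨-, ⟨h, -⟩ | ⟨h, -⟩⟩)
      · omega
      · omega
      · exact h1.irrefl _ h
      · exact h1.irrefl _ h
  all_goals exact id

/-- vertices which are not twins -/
def Ds (s : Bool) (o1 o2 : Q → Q → Prop) (u v : Tk Q r) : Prop :=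
  ∃ w, w ≠ u ∧ w ≠ v ∧ ¬ (SY s o1 o2 u w ↔ SY s o1 o2 v w)

theorem Ds.symm {u v : Tk Q r} (h : Ds s o1 o2 u v) : Ds s o1 o2 v u := by
  obtain ⟨w, h1, h2, h3⟩ := h
  exact ⟨w, h2, h1, fun h => h3 h.symm⟩

theorem Ds.not_tw {u v : Tk Q r} (h : Ds s o1 o2 u v) : ¬ Tw (SY s o1 o2) u v := by
  obtain ⟨w, h1, h2, h3⟩ := h
  exact fun h => h3 (h.2 w h1 h2)

variable (hr : 1 ≤ r) (h1 : DLO o1) (h2 : DLO o2)

include hr h1 in
theorem ds_a {q : Q} {v : Tk Q r} (hv : v ≠ Tk.p Kd.a q) : Ds s o1 o2 (Tk.p Kd.a q) v := by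
  have adj : SY s o1 o2 (Tk.p Kd.a q : Tk Q r) (Tk.p (Kd.c ⟨0, hr⟩) q) := ⟨h1.irrefl q, rfl⟩
  rcases v with ⟨k, q'⟩ | i | i | i
  · rcases k with _ | _ | t
    · have hne : q ≠ q' := fun e => hv (by rw [e])
      have key : ∀ q q' : Q, o1 q q' → Ds s o1 o2 (Tk.p Kd.a q : Tk Q r) (Tk.p Kd.a q') := by
        intro q q' hlt
        refine ⟨Tk.p (Kd.c ⟨0, hr⟩) q, by simp, by simp, fun h => ?_⟩
        have h3 : SY s o1 o2 (Tk.p Kd.a q : Tk Q r) (Tk.p (Kd.c ⟨0, hr⟩) q) :=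
          ⟨h1.irrefl q, rfl⟩
        exact (h.1 h3).1 hlt
      rcases h1.total q q' hne with h | h
      · exact key q q' h
      · exact (key q' q h).symm
    · refine ⟨Tk.e 0, by simp, by simp, fun h => ?_⟩
      have := h.1 rfl
      cases this
    · refine ⟨Tk.e 0, by simp, by simp, fun h => ?_⟩
      have := h.1 rfl
      cases this
  · exact ⟨Tk.p (Kd.c ⟨0, hr⟩) q, by simp, by simp, fun h => by cases h.1 adj⟩
  · exact ⟨Tk.e 0, by simp, by simp, fun h => h.1 rfl⟩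
  · exact ⟨Tk.e 0, by simp, by simp, fun h => h.1 rfl⟩

include hr h2 in
theorem ds_b {q : Q} {v : Tk Q r} (hv : v ≠ Tk.p Kd.b q) (hv' : ∀ q', v ≠ Tk.p Kd.a q') :
    Ds s o1 o2 (Tk.p Kd.b q) v := by
  have lt : r - 1 < r := by omega
  have adj : ∀ q, SY s o1 o2 (Tk.p Kd.b q : Tk Q r) (Tk.p (Kd.c ⟨r - 1, lt⟩) q) := fun q =>
    ⟨h2.irrefl q, by show r - 1 + 1 = r; omega⟩
  rcases v with ⟨k, q'⟩ | i | i | i
  · rcases k with _ | _ | t
    · exact absurd rfl (hv' q')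
    · have hne : q ≠ q' := fun e => hv (by rw [e])
      have key : ∀ q q' : Q, o2 q q' → Ds s o1 o2 (Tk.p Kd.b q : Tk Q r) (Tk.p Kd.b q') := by
        intro q q' hlt
        exact ⟨Tk.p (Kd.c ⟨r - 1, lt⟩) q, by simp, by simp, fun h => (h.1 (adj q)).1 hlt⟩
      rcases h2.total q q' hne with h | h
      · exact key q q' h
      · exact (key q' q h).symm
    · refine ⟨Tk.f 0, by simp, by simp, fun h => ?_⟩
      have := h.1 rfl
      cases this
  · exact ⟨Tk.f 0, by simp, by simp, fun h => h.1 rfl⟩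
  · exact ⟨Tk.p (Kd.c ⟨r - 1, lt⟩) q, by simp, by simp, fun h => by cases h.1 (adj q)⟩
  · exact ⟨Tk.f 0, by simp, by simp, fun h => h.1 rfl⟩

include h1 h2 hr in
theorem ds_c (hs : s = true → r = 1) {q : Q} {t : Fin r} {v : Tk Q r}
    (hv : v ≠ Tk.p (Kd.c t) q) (hv' : ∀ q', v ≠ Tk.p Kd.a q') (hv'' : ∀ q', v ≠ Tk.p Kd.b q') :
    Ds s o1 o2 (Tk.p (Kd.c t) q) v := by
  rcases v with ⟨k, q'⟩ | i | i | i
  · rcases k with _ | _ | t'
    · exact absurd rfl (hv' q')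
    · exact absurd rfl (hv'' q')
    · -- two inner places
      by_cases h0 : (t : ℕ) = 0 ∧ (t' : ℕ) = 0
      · obtain ⟨h3, h4⟩ := h0
        have ht : t = t' := Fin.ext (by omega)
        subst ht
        have hne : q ≠ q' := fun e => hv (by rw [e])
        have key : ∀ q q' : Q, o1 q q' →
            Ds s o1 o2 (Tk.p (Kd.c t) q : Tk Q r) (Tk.p (Kd.c t) q') := by
          intro q q' hlt
          refine ⟨Tk.p Kd.a q', by simp, by simp, fun h => ?_⟩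
          exact (h.2 ⟨h1.irrefl q', h3⟩).1 hlt
        rcases h1.total q q' hne with h | h
        · exact key q q' h
        · exact (key q' q h).symm
      · by_cases h3 : (t : ℕ) = 0
        · refine ⟨Tk.p Kd.a q, by simp, by simp, fun h => ?_⟩
          have := (h.1 ⟨h1.irrefl q, h3⟩).2
          omega
        by_cases h4 : (t' : ℕ) = 0
        · refine ⟨Tk.p Kd.a q', by simp, by simp, fun h => ?_⟩
          have := (h.2 ⟨h1.irrefl q', h4⟩).2
          omega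
        -- both places are positive
        have hs' : ¬ s = true := fun h => by have := hs h; have := t.2; omega
        have key : ∀ (q q' : Q) (t t' : Fin r), (t : ℕ) ≠ 0 → (q = q' → (t : ℕ) < t') →
            Ds s o1 o2 (Tk.p (Kd.c t) q : Tk Q r) (Tk.p (Kd.c t') q') := by
          intro q q' t t' h5 h6
          have lt : (t : ℕ) - 1 < r := by omega
          refine ⟨Tk.p (Kd.c ⟨t - 1, lt⟩) q, fun e => ?_, fun e => ?_, fun h => ?_⟩
          · simp only [Tk.p.injEq, Kd.c.injEq, Fin.ext_iff] at e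
            omega
          · simp only [Tk.p.injEq, Kd.c.injEq, Fin.ext_iff] at e
            have := h6 e.2
            omega
          · have h7 : SY s o1 o2 (Tk.p (Kd.c t) q : Tk Q r) (Tk.p (Kd.c ⟨t - 1, lt⟩) q) := by
              refine Or.inl ⟨rfl, Or.inr ?_⟩
              show (t : ℕ) = t - 1 + 1
              omega
            rcases h.1 h7 with ⟨h8, h9⟩ | ⟨h8, -⟩
            · have := h6 h8.symm
              simp only at h9
              omega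
            · exact hs' h8
        by_cases hq : q = q'
        · have htt : (t : ℕ) ≠ t' := fun e => hv (by rw [hq, Fin.ext e])
          rcases lt_or_gt_of_ne htt with h | h
          · exact key q q' t t' h3 fun _ => h
          · exact (key q' q t' t h4 fun _ => h).symm
        · exact key q q' t t' h3 fun e => absurd e hq
  · obtain ⟨p, hp⟩ := h1.above q
    refine ⟨Tk.p Kd.a p, by simp, by simp, fun h => ?_⟩
    have := (h.2 rfl).1
    exact this hp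
  · obtain ⟨p, hp⟩ := h2.above q
    refine ⟨Tk.p Kd.b p, by simp, by simp, fun h => ?_⟩
    have := (h.2 rfl).1
    exact this hp
  · by_cases h3 : (t : ℕ) = 0
    · exact ⟨Tk.p Kd.a q, by simp, by simp, fun h => h.1 ⟨h1.irrefl q, h3⟩⟩
    · have lt : (t : ℕ) - 1 < r := by have := t.2; omega
      refine ⟨Tk.p (Kd.c ⟨t - 1, lt⟩) q, fun e => ?_, by simp, fun h => h.1 ?_⟩
      · simp only [Tk.p.injEq, Kd.c.injEq, Fin.ext_iff] at e
        omega
      · refine Or.inl ⟨rfl, Or.inr ?_⟩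
        show (t : ℕ) = t - 1 + 1
        omega

theorem ds_e [Nonempty Q] {i : Fin 2} {v : Tk Q r} (hv : ∀ k q, v ≠ Tk.p k q)
    (hv' : ∀ i, v ≠ Tk.e i) : Ds s o1 o2 (Tk.e i) v := by
  obtain ⟨q⟩ := ‹Nonempty Q›
  refine ⟨Tk.p Kd.a q, by simp, fun e => hv _ _ e.symm, fun h => ?_⟩
  rcases v with ⟨k, q'⟩ | j | j | j
  · exact hv k q' rfl
  · exact hv' j rfl
  · have : (Kd.a : Kd r) = Kd.b := h.1 rfl
    cases this
  · exact h.1 rfl

theorem ds_f [Nonempty Q] {i : Fin 3} {m : ℕ} : Ds s o1 o2 (Tk.f i : Tk Q r) (Tk.z m) := by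
  obtain ⟨q⟩ := ‹Nonempty Q›
  exact ⟨Tk.p Kd.b q, by simp, by simp, fun h => h.1 rfl⟩

include hr h1 h2 in
/-- twins -/
theorem tw_cases [Nonempty Q] (hs : s = true → r = 1) {u v : Tk Q r} (hu : ∀ m, u ≠ Tk.z m)
    (h : Tw (SY s o1 o2) u v) :
    (∃ i j, u = Tk.e i ∧ v = Tk.e j) ∨ ∃ i j, u = Tk.f i ∧ v = Tk.f j := by
  have key : ∀ u v : Tk Q r, (∀ m, u ≠ Tk.z m) → Tw (SY s o1 o2) u v →
      ((∃ k q, u = Tk.p k q) → False) ∧ ((∃ i, u = Tk.e i) → ∀ q k, v ≠ Tk.p q k) := by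
    intro u v hu h
    have hne : v ≠ u := h.1.symm
    have a1 : ∀ q, u ≠ Tk.p Kd.a q := fun q e => by
      subst e
      exact (ds_a hr h1 hne).not_tw h
    have hsym : Tw (SY s o1 o2) v u := ⟨h.1.symm, fun w hw hw' => (h.2 w hw' hw).symm⟩
    have a2 : ∀ q, v ≠ Tk.p Kd.a q := fun q e => by
      subst e
      exact (ds_a hr h1 hne.symm).not_tw hsym
    have b1 : ∀ q, u ≠ Tk.p Kd.b q := fun q e => by
      subst e
      exact (ds_b hr h2 hne a2).not_tw h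
    have b2 : ∀ q, v ≠ Tk.p Kd.b q := fun q e => by
      subst e
      exact (ds_b hr h2 hne.symm a1).not_tw hsym
    have c1 : ∀ t q, u ≠ Tk.p (Kd.c t) q := fun t q e => by
      subst e
      exact (ds_c hr h1 h2 hs hne a2 b2).not_tw h
    have c2 : ∀ t q, v ≠ Tk.p (Kd.c t) q := fun t q e => by
      subst e
      exact (ds_c hr h1 h2 hs hne.symm a1 b1).not_tw hsym
    refine ⟨?_, fun _ => ?_⟩
    · rintro ⟨k | k | k, q, e⟩
      · exact a1 q e
      · exact b1 q e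
      · exact c1 _ q e
    · rintro (k | k | k) q e
      · exact a2 q e
      · exact b2 q e
      · exact c2 _ q e
  have hsym : Tw (SY s o1 o2) v u := ⟨h.1.symm, fun w hw hw' => (h.2 w hw' hw).symm⟩
  rcases u with ⟨k, q⟩ | i | i | i
  · exact ((key _ _ hu h).1 ⟨k, q, rfl⟩).elim
  · rcases v with ⟨k', q'⟩ | j | j | j
    · exact ((key _ _ hu h).2 ⟨i, rfl⟩ k' q' rfl).elim
    · exact Or.inl ⟨i, j, rfl, rfl⟩
    · exact ((ds_e (by simp) (by simp)).not_tw h).elim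
    · exact ((ds_e (by simp) (by simp)).not_tw h).elim
  · rcases v with ⟨k', q'⟩ | j | j | j
    · exact ((key _ _ (by simp) hsym).1 ⟨k', q', rfl⟩).elim
    · exact ((ds_e (by simp) (by simp)).not_tw hsym).elim
    · exact Or.inr ⟨i, j, rfl, rfl⟩
    · exact (ds_f.not_tw h).elim
  · exact absurd rfl (hu i)

theorem tw_e {i j : Fin 2} (h : i ≠ j) : Tw (SY s o1 o2) (Tk.e i : Tk Q r) (Tk.e j) := by
  refine ⟨fun e => h (by simpa using e), fun w _ _ => ?_⟩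
  rcases w with ⟨k, q⟩ | i | i | i <;> exact Iff.rfl

theorem tw_f {i j : Fin 3} (h : i ≠ j) : Tw (SY s o1 o2) (Tk.f i : Tk Q r) (Tk.f j) := by
  refine ⟨fun e => h (by simpa using e), fun w _ _ => ?_⟩
  rcases w with ⟨k, q⟩ | i | i | i <;> exact Iff.rfl

theorem not_nz (m : ℕ) : ¬ Nz (SY s o1 o2) (Tk.z m : Tk Q r) := by
  rintro ⟨v, hv⟩
  rcases v with ⟨k, q⟩ | i | i | i <;> exact hv

theorem not_to_z (u : Tk Q r) (m : ℕ) : ¬ SY s o1 o2 u (Tk.z m) := by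
  rcases u with ⟨k, q⟩ | i | i | i <;> exact id

include hr h1 h2 in
theorem nz_iff [Nonempty Q] {u : Tk Q r} : Nz (SY s o1 o2) u ↔ ∀ m, u ≠ Tk.z m := by
  constructor
  · rintro h m rfl
    exact not_nz m h
  · intro h
    obtain ⟨q0⟩ := ‹Nonempty Q›
    rcases u with ⟨k, q⟩ | i | i | i
    · rcases k with _ | _ | t
      · exact ⟨Tk.e 0, rfl⟩
      · exact ⟨Tk.f 0, rfl⟩
      · by_cases h3 : (t : ℕ) = 0
        · exact ⟨Tk.p Kd.a q, h1.irrefl q, h3⟩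
        · have lt : (t : ℕ) - 1 < r := by have := t.2; omega
          refine ⟨Tk.p (Kd.c ⟨t - 1, lt⟩) q, Or.inl ⟨rfl, Or.inr ?_⟩⟩
          show (t : ℕ) = t - 1 + 1
          omega
    · exact ⟨Tk.p Kd.a q0, rfl⟩
    · exact ⟨Tk.p Kd.b q0, rfl⟩
    · exact absurd rfl (h i)

include hr h1 h2 in
theorem not_iz [Nonempty Q] (hs : s = true → r = 1) {u : Tk Q r} (hu : Nz (SY s o1 o2) u) :
    ¬ Iz (SY s o1 o2) u := by
  rintro ⟨p, hp, hp'⟩
  have hz := (nz_iff hr h1 h2).1 hu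
  have h3 : ∀ i, (∃ j, p i = Tk.e j) ∨ ∃ j, p i = Tk.f j := by
    intro i
    rcases tw_cases hr h1 h2 hs hz (hp' i) with ⟨-, j, -, e⟩ | ⟨-, j, -, e⟩
    · exact Or.inl ⟨j, e⟩
    · exact Or.inr ⟨j, e⟩
  rcases tw_cases hr h1 h2 hs hz (hp' 0) with ⟨i, -, e, -⟩ | ⟨i, -, e, -⟩
  · have h4 : ∀ k, ∃ j : Fin 2, p k = Tk.e j := by
      intro k
      rcases tw_cases hr h1 h2 hs hz (hp' k) with ⟨-, j, -, e'⟩ | ⟨i', j, e', -⟩
      · exact ⟨j, e'⟩
      · rw [e] at e'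
        cases e'
    choose g hg using h4
    have hinj : Function.Injective g := fun k k' hkk => hp (by rw [hg, hg, hkk])
    have := Fintype.card_le_of_injective g hinj
    simp at this
  · have h4 : ∀ k, ∃ j : Fin 3, p k = Tk.f j := by
      intro k
      rcases tw_cases hr h1 h2 hs hz (hp' k) with ⟨i', j, e', -⟩ | ⟨-, j, -, e'⟩
      · rw [e] at e'
        cases e'
      · exact ⟨j, e'⟩
    choose g hg using h4
    have hinj : Function.Injective g := fun k k' hkk => hp (by rw [hg, hg, hkk])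
    have := Fintype.card_le_of_injective g hinj
    simp at this

include hr h1 h2 in
theorem es_iff [Nonempty Q] (hs : s = true → r = 1) {u : Tk Q r} :
    Es (SY s o1 o2) u ↔ ∃ i, u = Tk.e i := by
  constructor
  · rintro ⟨h3, v, h4, h5⟩
    rcases tw_cases hr h1 h2 hs ((nz_iff hr h1 h2).1 h3) h4 with ⟨i, j, e, -⟩ | ⟨i, j, rfl, rfl⟩
    · exact ⟨i, e⟩
    · exfalso
      have dec : ∀ i j : Fin 3, ∃ k : Fin 3, k ≠ i ∧ k ≠ j := by decide
      obtain ⟨k, hk, hk'⟩ := dec i j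
      have := h5 (Tk.f k) (tw_f (Ne.symm hk))
      simp at this
      exact hk' this
  · rintro ⟨i, rfl⟩
    refine ⟨(nz_iff hr h1 h2).2 (by simp), ?_⟩
    obtain ⟨j, hj, hj'⟩ : ∃ j : Fin 2, i ≠ j ∧ ∀ k : Fin 2, k ≠ i → k = j := by
      revert i
      decide
    refine ⟨Tk.e j, tw_e hj, fun w hw => ?_⟩
    rcases tw_cases hr h1 h2 hs (by simp) hw with ⟨i', k, e, rfl⟩ | ⟨i', k, e, -⟩
    · rw [hj' k fun e' => hw.1 (by rw [e'])]
    · cases e

include hr h1 h2 in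
theorem fs_iff [Nonempty Q] (hs : s = true → r = 1) {u : Tk Q r} :
    Fs (SY s o1 o2) u ↔ ∃ i, u = Tk.f i := by
  constructor
  · rintro ⟨h3, v, w, h4, h5, h6⟩
    have hz := (nz_iff hr h1 h2).1 h3
    rcases tw_cases hr h1 h2 hs hz h5 with ⟨i, j, rfl, rfl⟩ | ⟨i, j, e, -⟩
    · rcases tw_cases hr h1 h2 hs hz h6 with ⟨i', k, e, rfl⟩ | ⟨i', k, e, -⟩
      · exfalso
        have e1 : i ≠ j := fun e => h5.1 (by rw [e])
        have e2 : i ≠ k := fun e => h6.1 (by rw [e])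
        have e3 : j ≠ k := fun e => h4 (by rw [e])
        clear h4 h5 h6 h3 hz e
        revert i j k
        decide
      · cases e
    · exact ⟨i, e⟩
  · rintro ⟨i, rfl⟩
    refine ⟨(nz_iff hr h1 h2).2 (by simp), ?_⟩
    obtain ⟨j, k, h3, h4, h5⟩ : ∃ j k : Fin 3, j ≠ k ∧ i ≠ j ∧ i ≠ k := by
      revert i
      decide
    exact ⟨Tk.f j, Tk.f k, by simpa using h3, tw_f h4, tw_f h5⟩

include hr h1 h2 in
theorem rw_iff [Nonempty Q] (hs : s = true → r = 1) {u : Tk Q r} :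
    Rw (SY s o1 o2) u ↔ ∃ q, u = Tk.p Kd.a q := by
  constructor
  · rintro ⟨v, h3, h4⟩
    obtain ⟨i, rfl⟩ := (es_iff hr h1 h2 hs).1 h3
    rcases u with ⟨k, q⟩ | j | j | j
    · exact ⟨q, by rw [show k = Kd.a from h4]⟩
    all_goals exact h4.elim
  · rintro ⟨q, rfl⟩
    exact ⟨Tk.e 0, (es_iff hr h1 h2 hs).2 ⟨0, rfl⟩, rfl⟩

include hr h1 h2 in
theorem cw_iff [Nonempty Q] (hs : s = true → r = 1) {u : Tk Q r} :
    Cw (SY s o1 o2) u ↔ ∃ q, u = Tk.p Kd.b q := by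
  constructor
  · rintro ⟨v, h3, h4⟩
    obtain ⟨i, rfl⟩ := (fs_iff hr h1 h2 hs).1 h3
    rcases u with ⟨k, q⟩ | j | j | j
    · exact ⟨q, by rw [show k = Kd.b from h4]⟩
    all_goals exact h4.elim
  · rintro ⟨q, rfl⟩
    exact ⟨Tk.f 0, (fs_iff hr h1 h2 hs).2 ⟨0, rfl⟩, rfl⟩

end eval

end Pool.Agent.TH783.MD
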