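import Pool.Agent.TH783.MD.Std

set_option autoImplicit false
set_option linter.unusedSectionVars false

/-! Evaluation of the decoding on the standard graph. -/

namespace Pool.Agent.TH783.MD

open Pool.Agent.TH783.FC (Tw Iz Mt Fl Un flip Good)
open Pool.Agent.W889.VC (DLO)

section eval

variable {Q : Type} {r : ℕ} {s : Bool} {o1 o2 : Q → Q → Prop} [Nonempty Q]
  (hr : 1 ≤ r) (h1 : DLO o1) (h2 : DLO o2)

/-- the first place of the path over a point -/
def pt0 (hr : 1 ≤ r) (q : Q) : Tk Q r := Tk.p (Kd.c ⟨0, hr⟩) q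

theorem pt0_inj {q q' : Q} (h : pt0 hr q = pt0 hr q') : q = q' := by
  simpa [pt0] using h

include hr h1 h2 in
theorem dm_iff {x : Tk Q r} : Dm (SY false o1 o2) x ↔ ∃ q, x = pt0 hr q := by
  constructor
  · rintro ⟨h3, u, h4, h5⟩
    obtain ⟨p, rfl⟩ := (rw_iff hr h1 h2 (by simp)).1 h4
    rcases x with ⟨k, q⟩ | j | j | j
    · rcases k with _ | _ | t
      · exact h5.elim
      · exact h5.elim
      · refine ⟨q, ?_⟩
        have : t = ⟨0, hr⟩ := Fin.ext h5.2
        rw [this]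
        rfl
    · exact (h3 ((es_iff hr h1 h2 (by simp)).2 ⟨j, rfl⟩)).elim
    · cases (h5 : (Kd.a : Kd r) = Kd.b)
    · exact h5.elim
  · rintro ⟨q, rfl⟩
    refine ⟨fun h => ?_, Tk.p Kd.a q, (rw_iff hr h1 h2 (by simp)).2 ⟨q, rfl⟩, h1.irrefl q, rfl⟩
    obtain ⟨i, hi⟩ := (es_iff hr h1 h2 (by simp)).1 h
    cases hi

include hr h1 h2 in
theorem not_root {u : Tk Q r} (h : ¬ Rw (SY false o1 o2) u ∧ ¬ Cw (SY false o1 o2) u) :
    (∀ q, u ≠ Tk.p Kd.a q) ∧ ∀ q, u ≠ Tk.p Kd.b q :=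
  ⟨fun q e => h.1 ((rw_iff hr h1 h2 (by simp)).2 ⟨q, e⟩),
    fun q e => h.2 ((cw_iff hr h1 h2 (by simp)).2 ⟨q, e⟩)⟩

include hr h1 h2 in
theorem not_root' {q : Q} {t : Fin r} : ¬ Rw (SY false o1 o2) (Tk.p (Kd.c t) q) ∧
    ¬ Cw (SY false o1 o2) (Tk.p (Kd.c t) q) := by
  constructor
  · intro h
    obtain ⟨q, hq⟩ := (rw_iff hr h1 h2 (by simp)).1 h
    simp at hq
  · intro h
    obtain ⟨q, hq⟩ := (cw_iff hr h1 h2 (by simp)).1 h
    simp at hq

/-- the neighbours of the inner places -/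
theorem nb_c {q : Q} {t : Fin r} {u : Tk Q r} (h : SY false o1 o2 (Tk.p (Kd.c t) q) u)
    (ha : ∀ q, u ≠ Tk.p Kd.a q) (hb : ∀ q, u ≠ Tk.p Kd.b q) :
    ∃ t' : Fin r, u = Tk.p (Kd.c t') q ∧ ((t' : ℕ) = t + 1 ∨ (t : ℕ) = t' + 1) := by
  rcases u with ⟨k, q'⟩ | j | j | j
  · rcases k with _ | _ | t'
    · exact absurd rfl (ha q')
    · exact absurd rfl (hb q')
    · rcases h with ⟨h, h'⟩ | ⟨h, -⟩
      · exact ⟨t', by rw [h], h'⟩
      · cases h
  · cases (h : (Kd.c t : Kd r) = Kd.a)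
  · cases (h : (Kd.c t : Kd r) = Kd.b)
  · exact h.elim

include hr h1 h2 in
theorem pt_iff (n : ℕ) : (∀ {q : Q} {u : Tk Q r}, Pt (SY false o1 o2) n (pt0 hr q) u ↔
    ∃ t : Fin r, (t : ℕ) = n ∧ u = Tk.p (Kd.c t) q) ∧
    ∀ {q : Q} {u : Tk Q r}, Pt (SY false o1 o2) (n + 1) (pt0 hr q) u ↔
    ∃ t : Fin r, (t : ℕ) = n + 1 ∧ u = Tk.p (Kd.c t) q := by
  induction n with
  | zero =>
    refine ⟨fun {q u} => ?_, fun {q u} => ?_⟩
    · constructor
      · intro h
        exact ⟨⟨0, hr⟩, rfl, h⟩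
      · rintro ⟨t, h3, h4⟩
        have : t = ⟨0, hr⟩ := Fin.ext h3
        rw [h4, this]
        exact rfl
    · constructor
      · rintro ⟨h3, h4⟩
        obtain ⟨ha, hb⟩ := not_root hr h1 h2 h4
        obtain ⟨t', h5, h6⟩ := nb_c h3 ha hb
        refine ⟨t', ?_, h5⟩
        simp only at h6
        omega
      · rintro ⟨t, h3, h4⟩
        subst h4
        exact ⟨Or.inl ⟨rfl, Or.inl (by simpa using h3)⟩, not_root' hr h1 h2⟩
  | succ n ih =>
    refine ⟨ih.2, fun {q u} => ?_⟩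
    constructor
    · rintro ⟨w, w', h3, h4, h5, h6, h7⟩
      obtain ⟨ha, hb⟩ := not_root hr h1 h2 h7
      obtain ⟨t, h8, rfl⟩ := ih.1.1 h3
      obtain ⟨t', h9, rfl⟩ := ih.2.1 h4
      obtain ⟨t'', h10, h11⟩ := nb_c h5 ha hb
      refine ⟨t'', ?_, h10⟩
      rcases h11 with h11 | h11
      · omega
      · exfalso
        apply h6
        rw [h10]
        have : t'' = t := Fin.ext (by omega)
        rw [this]
    · rintro ⟨t, h3, rfl⟩
      have l1 : n < r := by have := t.2; omega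
      have l2 : n + 1 < r := by have := t.2; omega
      refine ⟨Tk.p (Kd.c ⟨n + 1, l2⟩) q, Tk.p (Kd.c ⟨n, l1⟩) q, ih.1.2 ⟨_, rfl, rfl⟩,
        ih.2.2 ⟨_, rfl, rfl⟩, Or.inl ⟨rfl, Or.inl (by simpa using h3)⟩, fun e => ?_,
        not_root' hr h1 h2⟩
      simp only [Tk.p.injEq, Kd.c.injEq, Fin.ext_iff] at e
      omega

include hr h1 h2 in
theorem pt_iff' {n : ℕ} {q : Q} {u : Tk Q r} : Pt (SY false o1 o2) n (pt0 hr q) u ↔
    ∃ t : Fin r, (t : ℕ) = n ∧ u = Tk.p (Kd.c t) q := (pt_iff hr h1 h2 n).1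

include hr h1 h2 in
theorem o1_iff {q q' : Q} : O1 (SY false o1 o2) (pt0 hr q : Tk Q r) (pt0 hr q') ↔ o1 q q' := by
  constructor
  · rintro ⟨u, h3, h4, h5⟩
    obtain ⟨p, rfl⟩ := (rw_iff hr h1 h2 (by simp)).1 h3
    have h6 : ¬ o1 q' p := h4.1
    have h7 : o1 q p := by
      by_contra h
      exact h5 ⟨h, rfl⟩
    by_cases h8 : p = q'
    · exact h8 ▸ h7
    · rcases h1.total p q' h8 with h | h
      · exact h1.trans _ _ _ h7 h
      · exact absurd h h6
  · intro h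
    exact ⟨Tk.p Kd.a q', (rw_iff hr h1 h2 (by simp)).2 ⟨_, rfl⟩, ⟨h1.irrefl _, rfl⟩,
      fun h' => h'.1 h⟩

include hr h1 h2 in
theorem o2_iff {q q' : Q} : O2 r (SY false o1 o2) (pt0 hr q : Tk Q r) (pt0 hr q') ↔ o2 q q' := by
  have lt : r - 1 < r := by omega
  constructor
  · rintro ⟨u, y, y', h3, h4, h4', h5, h6⟩
    obtain ⟨p, rfl⟩ := (cw_iff hr h1 h2 (by simp)).1 h3
    obtain ⟨t, ht, rfl⟩ := (pt_iff' hr h1 h2).1 h4
    obtain ⟨t', ht', rfl⟩ := (pt_iff' hr h1 h2).1 h4'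
    have h7 : ¬ o2 q' p := h5.1
    have h8 : o2 q p := by
      by_contra h
      exact h6 ⟨h, by omega⟩
    by_cases h9 : p = q'
    · exact h9 ▸ h8
    · rcases h2.total p q' h9 with h | h
      · exact h2.trans _ _ _ h8 h
      · exact absurd h h7
  · intro h
    exact ⟨Tk.p Kd.b q', Tk.p (Kd.c ⟨r - 1, lt⟩) q, Tk.p (Kd.c ⟨r - 1, lt⟩) q',
      (cw_iff hr h1 h2 (by simp)).2 ⟨_, rfl⟩, (pt_iff' hr h1 h2).2 ⟨_, rfl, rfl⟩,
      (pt_iff' hr h1 h2).2 ⟨_, rfl, rfl⟩, ⟨h2.irrefl _, by show r - 1 + 1 = r; omega⟩,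
      fun h' => h'.1 h⟩

include hr h1 h2 in
theorem at_iff {k : Kd r} {u x : Tk Q r} :
    At (SY false o1 o2) k u x ↔ ∃ q, x = pt0 hr q ∧ u = Tk.p k q := by
  have lt : r - 1 < r := by omega
  rcases k with _ | _ | t
  · constructor
    · rintro ⟨h3, h4, h5, h6⟩
      obtain ⟨q, rfl⟩ := (dm_iff hr h1 h2).1 h3
      obtain ⟨p, rfl⟩ := (rw_iff hr h1 h2 (by simp)).1 h4
      refine ⟨q, rfl, ?_⟩
      have h7 := h6 (Tk.p Kd.a q) ((rw_iff hr h1 h2 (by simp)).2 ⟨q, rfl⟩) ⟨h1.irrefl q, rfl⟩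
        (pt0 hr p) ⟨h1.irrefl p, rfl⟩
      have h8 : ¬ o1 p q := h7.1
      have h9 : ¬ o1 q p := h5.1
      by_contra hne
      rcases h1.total p q (fun e => hne (by rw [e])) with h | h
      · exact h8 h
      · exact h9 h
    · rintro ⟨q, rfl, rfl⟩
      refine ⟨(dm_iff hr h1 h2).2 ⟨q, rfl⟩, (rw_iff hr h1 h2 (by simp)).2 ⟨q, rfl⟩,
        ⟨h1.irrefl q, rfl⟩, fun v hv hvx y hy => ?_⟩
      obtain ⟨p, rfl⟩ := (rw_iff hr h1 h2 (by simp)).1 hv
      rcases y with ⟨k, q'⟩ | j | j | j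
      · rcases k with _ | _ | t
        · exact hy.elim
        · exact hy.elim
        · refine ⟨fun h => ?_, hy.2⟩
          have h3 : ¬ o1 q p := hvx.1
          have h4 : ¬ o1 q' q := hy.1
          by_cases h5 : p = q
          · exact h4 (h5 ▸ h)
          · rcases h1.total p q h5 with h6 | h6
            · exact h4 (h1.trans _ _ _ h h6)
            · exact h3 h6
      · exact rfl
      · cases (hy : (Kd.a : Kd r) = Kd.b)
      · exact hy.elim
  · constructor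
    · rintro ⟨h3, y, h4, h5, h6, h7⟩
      obtain ⟨q, rfl⟩ := (dm_iff hr h1 h2).1 h3
      obtain ⟨t, ht, rfl⟩ := (pt_iff' hr h1 h2).1 h4
      obtain ⟨p, rfl⟩ := (cw_iff hr h1 h2 (by simp)).1 h5
      have ht' : (t : ℕ) + 1 = r := by omega
      refine ⟨q, rfl, ?_⟩
      have h7 := h7 (Tk.p Kd.b q) ((cw_iff hr h1 h2 (by simp)).2 ⟨q, rfl⟩)
        ⟨h2.irrefl q, ht'⟩ (Tk.p (Kd.c t) p) ⟨h2.irrefl p, ht'⟩
      have h8 : ¬ o2 p q := h7.1
      have h9 : ¬ o2 q p := h6.1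
      by_contra hne
      rcases h2.total p q (fun e => hne (by rw [e])) with h | h
      · exact h8 h
      · exact h9 h
    · rintro ⟨q, rfl, rfl⟩
      refine ⟨(dm_iff hr h1 h2).2 ⟨q, rfl⟩, Tk.p (Kd.c ⟨r - 1, lt⟩) q,
        (pt_iff' hr h1 h2).2 ⟨_, rfl, rfl⟩, (cw_iff hr h1 h2 (by simp)).2 ⟨q, rfl⟩,
        ⟨h2.irrefl q, by show r - 1 + 1 = r; omega⟩, fun v hv hvx y hy => ?_⟩
      obtain ⟨p, rfl⟩ := (cw_iff hr h1 h2 (by simp)).1 hv
      rcases y with ⟨k, q'⟩ | j | j | j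
      · rcases k with _ | _ | t
        · exact hy.elim
        · exact hy.elim
        · refine ⟨fun h => ?_, hy.2⟩
          have h3 : ¬ o2 q p := hvx.1
          have h4 : ¬ o2 q' q := hy.1
          by_cases h5 : p = q
          · exact h4 (h5 ▸ h)
          · rcases h2.total p q h5 with h6 | h6
            · exact h4 (h2.trans _ _ _ h h6)
            · exact h3 h6
      · cases (hy : (Kd.b : Kd r) = Kd.a)
      · exact rfl
      · exact hy.elim
  · constructor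
    · rintro ⟨h3, h4⟩
      obtain ⟨q, rfl⟩ := (dm_iff hr h1 h2).1 h3
      obtain ⟨t', ht, rfl⟩ := (pt_iff' hr h1 h2).1 h4
      have : t' = t := Fin.ext ht
      rw [this]
      exact ⟨q, rfl, rfl⟩
    · rintro ⟨q, rfl, rfl⟩
      exact ⟨(dm_iff hr h1 h2).2 ⟨q, rfl⟩, (pt_iff' hr h1 h2).2 ⟨_, rfl, rfl⟩⟩

include hr h1 h2 in
theorem en_sy (hs : s = true → r = 1) (u v : Tk Q r) :
    En s r (SY false o1 o2) u v ↔ SY s o1 o2 u v := by
  cases s with
  | false => simp [En]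
  | true =>
    have hr1 := hs rfl
    constructor
    · rintro (h | ⟨-, h3, h4, h5⟩)
      · rcases u with ⟨k, q⟩ | i | i | i <;> rcases v with ⟨k', q'⟩ | j | j | j <;>
          try exact h
        rcases k with _ | _ | t <;> rcases k' with _ | _ | t' <;> try exact h
        rcases h with h | ⟨h, -⟩
        · exact Or.inl h
        · cases h
      · obtain ⟨q, rfl⟩ := (dm_iff hr h1 h2).1 h3
        obtain ⟨q', rfl⟩ := (dm_iff hr h1 h2).1 h4
        rw [o1_iff hr h1 h2, o1_iff hr h1 h2, o2_iff hr h1 h2, o2_iff hr h1 h2] at h5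
        exact Or.inr ⟨rfl, h5⟩
    · intro h
      rcases u with ⟨k, q⟩ | i | i | i <;> rcases v with ⟨k', q'⟩ | j | j | j <;>
        try exact Or.inl h
      rcases k with _ | _ | t <;> rcases k' with _ | _ | t' <;> try exact Or.inl h
      rcases h with h | ⟨-, h⟩
      · exact Or.inl (Or.inl h)
      · have e1 : (Tk.p (Kd.c t) q : Tk Q r) = pt0 hr q := by
          have : t = ⟨0, hr⟩ := Fin.ext (by have := t.2; simp; omega)
          rw [this]
          rfl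
        have e2 : (Tk.p (Kd.c t') q' : Tk Q r) = pt0 hr q' := by
          have : t' = ⟨0, hr⟩ := Fin.ext (by have := t'.2; simp; omega)
          rw [this]
          rfl
        rw [e1, e2]
        refine Or.inr ⟨rfl, (dm_iff hr h1 h2).2 ⟨q, rfl⟩, (dm_iff hr h1 h2).2 ⟨q', rfl⟩, ?_⟩
        rw [o1_iff hr h1 h2, o1_iff hr h1 h2, o2_iff hr h1 h2, o2_iff hr h1 h2]
        exact h

include hr h1 h2 in
theorem de_sy (hs : s = true → r = 1) (u v : Tk Q r) :
    De s (SY s o1 o2) u v ↔ SY false o1 o2 u v := by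
  cases s with
  | false => simp [De]
  | true =>
    have hr1 := hs rfl
    unfold De
    rw [rw_iff hr h1 h2 hs, rw_iff hr h1 h2 hs, cw_iff hr h1 h2 hs, cw_iff hr h1 h2 hs]
    constructor
    · rintro ⟨h, h'⟩
      have h' := h' rfl
      rcases u with ⟨k, q⟩ | i | i | i <;> rcases v with ⟨k', q'⟩ | j | j | j <;>
        try exact h
      rcases k with _ | _ | t <;> rcases k' with _ | _ | t' <;> try exact h
      simp at h'
    · intro h
      rcases u with ⟨k, q⟩ | i | i | i <;> rcases v with ⟨k', q'⟩ | j | j | j <;>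
        try exact h.elim
      · rcases k with _ | _ | t <;> rcases k' with _ | _ | t'
        · exact h.elim
        · exact h.elim
        · exact ⟨h, fun _ => Or.inl ⟨_, rfl⟩⟩
        · exact h.elim
        · exact h.elim
        · exact ⟨h, fun _ => Or.inr (Or.inl ⟨_, rfl⟩)⟩
        · exact ⟨h, fun _ => Or.inr (Or.inr (Or.inl ⟨_, rfl⟩))⟩
        · exact ⟨h, fun _ => Or.inr (Or.inr (Or.inr ⟨_, rfl⟩))⟩
        · rcases h with ⟨-, h⟩ | ⟨h, -⟩
          · have := t.2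
            have := t'.2
            omega
          · cases h
      · exact ⟨h, fun _ => Or.inl ⟨q, by rw [show k = Kd.a from h]⟩⟩
      · exact ⟨h, fun _ => Or.inr (Or.inl ⟨q, by rw [show k = Kd.b from h]⟩)⟩
      · exact ⟨h, fun _ => Or.inr (Or.inr (Or.inl ⟨q', by rw [show k' = Kd.a from h]⟩))⟩
      · exact ⟨h, fun _ => Or.inr (Or.inr (Or.inr ⟨q', by rw [show k' = Kd.b from h]⟩))⟩

variable {f : ℕ → ℕ → Prop}

theorem lay_lt (u : Tk Q r) (hr : 1 ≤ r) : u.lay < r + 2 := by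
  rcases u with ⟨k, q⟩ | i | i | i
  · rcases k with _ | _ | t
    · show 0 < r + 2
      omega
    · show r + 1 < r + 2
      omega
    · show (t : ℕ) + 1 < r + 2
      omega
  · show 1 < r + 2
    omega
  · show r < r + 2
    omega
  · exact Nat.mod_lt _ (by omega)

include hr h1 h2 in
/-- the hypotheses for the decoding of the flip -/
theorem good (hf : ∀ a b, f a b → f b a) (hs : s = true → r = 1) :
    Good (SY s o1 o2 : Tk Q r → Tk Q r → Prop) (flT f) where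
  irr := sy_irr h1
  sy := fun _ _ => sy_symm
  tw := fun _ hu => not_iz hr h1 h2 hs hu
  lay := by
    classical
    refine ⟨ℕ, Tk.lay, f, hf, fun _ _ => Iff.rfl, fun u S => ?_⟩
    have hinj : Function.Injective fun m : ℕ => (Tk.z (u.lay + m * (r + 2)) : Tk Q r) := by
      intro m n h
      simp only [Tk.z.injEq] at h
      have h3 : m * (r + 2) = n * (r + 2) := by omega
      exact Nat.eq_of_mul_eq_mul_right (by omega) h3
    obtain ⟨z, ⟨m, hm⟩, hz⟩ := (Set.infinite_range_of_injective hinj).exists_notMem_finset S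
    refine ⟨z, hz, ?_, ?_⟩
    · rw [← hm]
      exact fun v hv => not_nz _ ⟨v, hv⟩
    · intro w
      have : z.lay = u.lay := by
        rw [← hm]
        show (u.lay + m * (r + 2)) % (r + 2) = u.lay
        rw [Nat.add_mul_mod_self_right, Nat.mod_eq_of_lt (lay_lt u hr)]
      rw [this]

end eval

end Pool.Agent.TH783.MD
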